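import Mathlib

/-!
Fixed point rotation: integer recurrences which follow `exp (i j θ)`.
-/

open Finset

namespace Pool.Agent.H10.MK

/-- fixed point scale -/
def SC : ℤ := 187500000000

theorem SC_pos : (0 : ℤ) < SC := by decide

theorem SC_posR : (0 : ℝ) < (SC : ℝ) := by exact_mod_cast SC_pos

/-- scaled cosine of `n / m` -/
def cosA (n m : ℤ) : ℤ :=
  SC * (720 * m ^ 6 - 360 * n ^ 2 * m ^ 4 + 30 * n ^ 4 * m ^ 2 - n ^ 6) / (720 * m ^ 6)

/-- scaled sine of `n / m` -/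
def sinA (n m : ℤ) : ℤ :=
  SC * (5040 * n * m ^ 6 - 840 * n ^ 3 * m ^ 4 + 42 * n ^ 5 * m ^ 2 - n ^ 7) / (5040 * m ^ 7)

/-- floor division of integers, real form -/
theorem fdiv_bd (m k : ℤ) (hk : 0 < k) :
    ((m / k : ℤ) : ℝ) ≤ (m : ℝ) / k ∧ (m : ℝ) / k < ((m / k : ℤ) : ℝ) + 1 := by
  have hk' : (0 : ℝ) < k := by exact_mod_cast hk
  constructor
  · rw [le_div_iff₀ hk']
    have h1 : m / k * k ≤ m := Int.ediv_mul_le m hk.ne'
    exact_mod_cast h1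
  · rw [div_lt_iff₀ hk']
    have h1 := Int.lt_ediv_add_one_mul_self m hk
    exact_mod_cast h1

/-- complex number with given coordinates -/
noncomputable def cx (a b : ℝ) : ℂ := (a : ℂ) + (b : ℂ) * Complex.I

theorem norm_cx_le (a b : ℝ) : ‖cx a b‖ ≤ |a| + |b| := by
  unfold cx
  refine (norm_add_le _ _).trans ?_
  rw [norm_mul, Complex.norm_I, mul_one, Complex.norm_real, Complex.norm_real]
  exact le_rfl

theorem taylor8 (θ : ℝ) (h1 : |θ| ≤ 1 / 10) :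
    ‖Complex.exp ((θ : ℂ) * Complex.I) -
      cx (1 - θ ^ 2 / 2 + θ ^ 4 / 24 - θ ^ 6 / 720)
        (θ - θ ^ 3 / 6 + θ ^ 5 / 120 - θ ^ 7 / 5040)‖ ≤ 1 / 10 ^ 12 := by
  have hn : ‖(θ : ℂ) * Complex.I‖ = |θ| := by
    rw [norm_mul, Complex.norm_I, mul_one, Complex.norm_real]; rfl
  have hx : ‖(θ : ℂ) * Complex.I‖ ≤ 1 := by rw [hn]; linarith
  have h := Complex.exp_bound hx (n := 8) (by norm_num)
  have hs : ∑ m ∈ range 8, ((θ : ℂ) * Complex.I) ^ m / (m.factorial : ℂ) =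
      cx (1 - θ ^ 2 / 2 + θ ^ 4 / 24 - θ ^ 6 / 720)
        (θ - θ ^ 3 / 6 + θ ^ 5 / 120 - θ ^ 7 / 5040) := by
    have hI : Complex.I ^ 2 = -1 := Complex.I_sq
    have hI3 : Complex.I ^ 3 = -Complex.I := by rw [pow_succ, hI]; ring
    have hI4 : Complex.I ^ 4 = 1 := by
      rw [show (4 : ℕ) = 2 * 2 from rfl, pow_mul, hI]; norm_num
    have hI5 : Complex.I ^ 5 = Complex.I := by rw [pow_succ, hI4]; ring
    have hI6 : Complex.I ^ 6 = -1 := by rw [pow_succ, hI5, ← sq, hI]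
    have hI7 : Complex.I ^ 7 = -Complex.I := by rw [pow_succ, hI6]; ring
    unfold cx
    simp only [Finset.sum_range_succ, Finset.sum_range_zero, mul_pow, hI, hI3, hI4, hI5, hI6, hI7,
      pow_zero, pow_one, Nat.factorial]
    push_cast
    ring
  rw [hs] at h
  refine h.trans ?_
  rw [hn]
  have h8 : |θ| ^ 8 ≤ (1 / 10) ^ 8 := pow_le_pow_left₀ (abs_nonneg θ) h1 8
  have hc : ((Nat.succ 8 : ℕ) : ℝ) * (((Nat.factorial 8 : ℕ) : ℝ) * ((8 : ℕ) : ℝ))⁻¹ ≤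
      1 / 10 ^ 4 := by
    norm_num [Nat.factorial]
  calc |θ| ^ 8 * (((Nat.succ 8 : ℕ) : ℝ) * (((Nat.factorial 8 : ℕ) : ℝ) * ((8 : ℕ) : ℝ))⁻¹)
      ≤ (1 / 10) ^ 8 * (1 / 10 ^ 4) := by
        apply mul_le_mul h8 hc _ (by positivity)
        positivity
    _ = 1 / 10 ^ 12 := by norm_num

/-- the starting rotation -/
theorem step_close (n m : ℤ) (hn : 0 ≤ n) (hm : 0 < m) (hnm : 10 * n ≤ m) :
    ‖Complex.exp ((((n : ℝ) / m : ℝ) : ℂ) * Complex.I) -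
      cx ((cosA n m : ℝ) / SC) ((sinA n m : ℝ) / SC)‖ ≤ 3 / SC := by
  have hm' : (0 : ℝ) < m := by exact_mod_cast hm
  have hn' : (0 : ℝ) ≤ n := by exact_mod_cast hn
  have hS := SC_posR
  set θ : ℝ := (n : ℝ) / m with hθ
  have hθ0 : 0 ≤ θ := div_nonneg hn' hm'.le
  have hθ1 : |θ| ≤ 1 / 10 := by
    rw [abs_of_nonneg hθ0, hθ, div_le_iff₀ hm']
    have : (10 : ℝ) * n ≤ m := by exact_mod_cast hnm
    linarith
  have h := taylor8 θ hθ1
  have hm6 : (0 : ℤ) < 720 * m ^ 6 := by positivity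
  have hm7 : (0 : ℤ) < 5040 * m ^ 7 := by positivity
  have hc := fdiv_bd (SC * (720 * m ^ 6 - 360 * n ^ 2 * m ^ 4 + 30 * n ^ 4 * m ^ 2 - n ^ 6))
    (720 * m ^ 6) hm6
  have hs := fdiv_bd (SC * (5040 * n * m ^ 6 - 840 * n ^ 3 * m ^ 4 + 42 * n ^ 5 * m ^ 2 - n ^ 7))
    (5040 * m ^ 7) hm7
  have ec : ((SC * (720 * m ^ 6 - 360 * n ^ 2 * m ^ 4 + 30 * n ^ 4 * m ^ 2 - n ^ 6) : ℤ) : ℝ) /
      ((720 * m ^ 6 : ℤ) : ℝ) = SC * (1 - θ ^ 2 / 2 + θ ^ 4 / 24 - θ ^ 6 / 720) := by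
    rw [hθ]; push_cast; field_simp; ring
  have es : ((SC * (5040 * n * m ^ 6 - 840 * n ^ 3 * m ^ 4 + 42 * n ^ 5 * m ^ 2 - n ^ 7) : ℤ) : ℝ) /
      ((5040 * m ^ 7 : ℤ) : ℝ) = SC * (θ - θ ^ 3 / 6 + θ ^ 5 / 120 - θ ^ 7 / 5040) := by
    rw [hθ]; push_cast; field_simp; ring
  rw [ec] at hc
  rw [es] at hs
  change (cosA n m : ℝ) ≤ _ ∧ _ < (cosA n m : ℝ) + 1 at hc
  change (sinA n m : ℝ) ≤ _ ∧ _ < (sinA n m : ℝ) + 1 at hs
  set tc := 1 - θ ^ 2 / 2 + θ ^ 4 / 24 - θ ^ 6 / 720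
  set ts := θ - θ ^ 3 / 6 + θ ^ 5 / 120 - θ ^ 7 / 5040
  have d1 : ‖cx tc ts - cx ((cosA n m : ℝ) / SC) ((sinA n m : ℝ) / SC)‖ ≤ 2 / SC := by
    have e : cx tc ts - cx ((cosA n m : ℝ) / SC) ((sinA n m : ℝ) / SC) =
        cx (tc - (cosA n m : ℝ) / SC) (ts - (sinA n m : ℝ) / SC) := by
      unfold cx; push_cast; ring
    rw [e]
    refine (norm_cx_le _ _).trans ?_
    have a1 : |tc - (cosA n m : ℝ) / SC| ≤ 1 / SC := by
      have : tc - (cosA n m : ℝ) / SC = (SC * tc - cosA n m) / SC := by field_simp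
      rw [this, abs_div, abs_of_pos hS]
      refine div_le_div_of_nonneg_right ?_ hS.le
      rw [abs_le]; constructor <;> linarith [hc.1, hc.2]
    have a2 : |ts - (sinA n m : ℝ) / SC| ≤ 1 / SC := by
      have : ts - (sinA n m : ℝ) / SC = (SC * ts - sinA n m) / SC := by field_simp
      rw [this, abs_div, abs_of_pos hS]
      refine div_le_div_of_nonneg_right ?_ hS.le
      rw [abs_le]; constructor <;> linarith [hs.1, hs.2]
    have : (2 : ℝ) / SC = 1 / SC + 1 / SC := by ring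
    linarith
  have d2 : (1 : ℝ) / 10 ^ 12 ≤ 1 / SC := by
    apply one_div_le_one_div_of_le hS
    unfold SC; norm_num
  have : Complex.exp ((θ : ℂ) * Complex.I) - cx ((cosA n m : ℝ) / SC) ((sinA n m : ℝ) / SC) =
      (Complex.exp ((θ : ℂ) * Complex.I) - cx tc ts) +
        (cx tc ts - cx ((cosA n m : ℝ) / SC) ((sinA n m : ℝ) / SC)) := by ring
  rw [this]
  refine (norm_add_le _ _).trans ?_
  have e3 : (3 : ℝ) / SC = 1 / SC + 2 / SC := by ring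
  linarith

/-- rotation state -/
structure St where
  C : ℤ
  S : ℤ
  X : ℤ
  Y : ℤ

/-- one rotation step -/
def St.next (t : St) : St :=
  ⟨t.C, t.S, (t.X * t.C - t.Y * t.S) / SC, (t.X * t.S + t.Y * t.C) / SC⟩

/-- the state follows `exp (i j θ)` -/
def St.Ok (t : St) (θ : ℝ) (j : ℕ) : Prop :=
  ‖Complex.exp ((θ : ℂ) * Complex.I) - cx ((t.C : ℝ) / SC) ((t.S : ℝ) / SC)‖ ≤ 3 / SC ∧
  ‖Complex.exp (((j * θ : ℝ) : ℂ) * Complex.I) - cx ((t.X : ℝ) / SC) ((t.Y : ℝ) / SC)‖ ≤ 6 * j / SC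

/-- initial state -/
def St.init (n m : ℤ) : St := ⟨cosA n m, sinA n m, SC, 0⟩

theorem St.init_ok (n m : ℤ) (hn : 0 ≤ n) (hm : 0 < m) (hnm : 10 * n ≤ m) :
    (St.init n m).Ok ((n : ℝ) / m) 0 := by
  refine ⟨step_close n m hn hm hnm, ?_⟩
  have hS := SC_posR
  unfold St.init cx
  simp [div_self hS.ne']

theorem St.next_ok (t : St) (θ : ℝ) (j : ℕ) (hj : j ≤ 10 ^ 6) (h : t.Ok θ j) :
    t.next.Ok θ (j + 1) := by
  obtain ⟨h1, h2⟩ := h
  refine ⟨h1, ?_⟩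
  have hS := SC_posR
  have hj' : (j : ℝ) ≤ 10 ^ 6 := by exact_mod_cast hj
  set e : ℂ := Complex.exp ((θ : ℂ) * Complex.I) with he
  set w : ℂ := Complex.exp (((j * θ : ℝ) : ℂ) * Complex.I) with hw
  set ρ : ℂ := cx ((t.C : ℝ) / SC) ((t.S : ℝ) / SC) with hρ
  set x : ℂ := cx ((t.X : ℝ) / SC) ((t.Y : ℝ) / SC) with hx
  have ew : Complex.exp ((((j + 1 : ℕ) * θ : ℝ) : ℂ) * Complex.I) = w * e := by
    rw [he, hw, ← Complex.exp_add]
    congr 1
    push_cast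
    ring
  have b1 := fdiv_bd (t.X * t.C - t.Y * t.S) SC SC_pos
  have b2 := fdiv_bd (t.X * t.S + t.Y * t.C) SC SC_pos
  have e1 : x * ρ = cx (((t.X * t.C - t.Y * t.S : ℤ) : ℝ) / SC / SC)
      (((t.X * t.S + t.Y * t.C : ℤ) : ℝ) / SC / SC) := by
    rw [hx, hρ]
    unfold cx
    have hI : Complex.I ^ 2 = -1 := Complex.I_sq
    have hSC : ((SC : ℝ) : ℂ) ≠ 0 := by exact_mod_cast hS.ne'
    push_cast
    push_cast at hSC
    field_simp
    linear_combination (((t.Y : ℂ) * (t.S : ℂ))) * hI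
  have e2 : ‖x * ρ - cx (((t.next).X : ℝ) / SC) (((t.next).Y : ℝ) / SC)‖ ≤ 2 / SC := by
    have e : x * ρ - cx (((t.next).X : ℝ) / SC) (((t.next).Y : ℝ) / SC) =
        cx (((t.X * t.C - t.Y * t.S : ℤ) : ℝ) / SC / SC - ((t.next).X : ℝ) / SC)
          (((t.X * t.S + t.Y * t.C : ℤ) : ℝ) / SC / SC - ((t.next).Y : ℝ) / SC) := by
      rw [e1]; unfold cx; push_cast; ring
    rw [e]
    refine (norm_cx_le _ _).trans ?_
    rw [← sub_div, ← sub_div, abs_div, abs_div, abs_of_pos hS]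
    have a1 : |((t.X * t.C - t.Y * t.S : ℤ) : ℝ) / SC - ((t.next).X : ℝ)| ≤ 1 := by
      show |((t.X * t.C - t.Y * t.S : ℤ) : ℝ) / SC -
        (((t.X * t.C - t.Y * t.S) / SC : ℤ) : ℝ)| ≤ 1
      rw [abs_le]; constructor <;> linarith [b1.1, b1.2]
    have a2 : |((t.X * t.S + t.Y * t.C : ℤ) : ℝ) / SC - ((t.next).Y : ℝ)| ≤ 1 := by
      show |((t.X * t.S + t.Y * t.C : ℤ) : ℝ) / SC -
        (((t.X * t.S + t.Y * t.C) / SC : ℤ) : ℝ)| ≤ 1
      rw [abs_le]; constructor <;> linarith [b2.1, b2.2]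
    have := div_le_div_of_nonneg_right a1 hS.le
    have := div_le_div_of_nonneg_right a2 hS.le
    have : (2 : ℝ) / SC = 1 / SC + 1 / SC := by ring
    linarith
  have nw : ‖w‖ = 1 := by rw [hw, Complex.norm_exp_ofReal_mul_I]
  have ne : ‖e‖ = 1 := by rw [he, Complex.norm_exp_ofReal_mul_I]
  have nρ : ‖ρ‖ ≤ 1 + 3 / SC := by
    have : ρ = e - (e - ρ) := by ring
    rw [this]
    refine (norm_sub_le _ _).trans ?_
    rw [ne]; linarith
  rw [ew]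
  have e3 : w * e - cx (((t.next).X : ℝ) / SC) (((t.next).Y : ℝ) / SC) =
      w * (e - ρ) + (w - x) * ρ + (x * ρ - cx (((t.next).X : ℝ) / SC) (((t.next).Y : ℝ) / SC)) := by
    ring
  rw [e3]
  refine (norm_add_le _ _).trans ?_
  have n1 : ‖w * (e - ρ) + (w - x) * ρ‖ ≤ 3 / SC + 6 * j / SC * (1 + 3 / SC) := by
    refine (norm_add_le _ _).trans ?_
    rw [norm_mul, norm_mul, nw, one_mul]
    refine add_le_add h1 ?_
    exact mul_le_mul h2 nρ (norm_nonneg _) (by positivity)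
  have n2 : 6 * (j : ℝ) / SC * (3 / SC) ≤ 1 / SC := by
    rw [div_mul_div_comm, div_le_div_iff₀ (by positivity) hS]
    have : (10 : ℝ) ^ 11 ≤ SC := by unfold SC; norm_num
    nlinarith
  have e4 : 6 * ((j + 1 : ℕ) : ℝ) / SC = 6 * j / SC + 3 / SC + 1 / SC + 2 / SC := by
    push_cast; ring
  rw [e4]
  have e5 : 6 * (j : ℝ) / SC * (1 + 3 / SC) = 6 * j / SC + 6 * (j : ℝ) / SC * (3 / SC) := by ring
  linarith

/-- value of a trigonometric form -/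
theorem St.form (t : St) (θ : ℝ) (j : ℕ) (h : t.Ok θ j) (D E T : ℝ) (hT : 0 ≤ T)
    (hDE : D ^ 2 + E ^ 2 ≤ T ^ 2) :
    D * Real.cos (j * θ) + E * Real.sin (j * θ) ≤ (D * t.X + E * t.Y) / SC + T * (6 * j / SC) := by
  have hS := SC_posR
  obtain ⟨-, h2⟩ := h
  set w : ℂ := Complex.exp (((j * θ : ℝ) : ℂ) * Complex.I) with hw
  set x : ℂ := cx ((t.X : ℝ) / SC) ((t.Y : ℝ) / SC) with hx
  have hre : (cx D (-E) * (w - x)).re =
      D * Real.cos (j * θ) + E * Real.sin (j * θ) - (D * t.X + E * t.Y) / SC := by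
    rw [hw, hx, Complex.exp_mul_I, ← Complex.ofReal_cos, ← Complex.ofReal_sin]
    generalize Real.cos (j * θ) = c
    generalize Real.sin (j * θ) = s
    unfold cx
    simp only [Complex.mul_re, Complex.add_re, Complex.add_im, Complex.sub_re, Complex.sub_im,
      Complex.ofReal_re, Complex.ofReal_im, Complex.I_re, Complex.I_im, Complex.mul_im]
    field_simp
    ring
  have hn : ‖cx D (-E)‖ ≤ T := by
    have e : ‖cx D (-E)‖ ^ 2 = D ^ 2 + E ^ 2 := by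
      rw [← Complex.normSq_eq_norm_sq, Complex.normSq_apply]
      unfold cx
      simp
      ring
    exact abs_le_of_sq_le_sq' (by rw [e]; exact hDE) hT |>.2
  have h3 := Complex.re_le_norm (cx D (-E) * (w - x))
  rw [hre, norm_mul] at h3
  have h4 : ‖cx D (-E)‖ * ‖w - x‖ ≤ T * (6 * j / SC) :=
    mul_le_mul hn h2 (norm_nonneg _) hT
  linarith

/-- the cosine coordinate -/
theorem St.cos_bd (t : St) (θ : ℝ) (j : ℕ) (h : t.Ok θ j) :
    SC * Real.cos (j * θ) ≤ t.X + 6 * j := by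
  have hS := SC_posR
  have := t.form θ j h 1 0 1 (by norm_num) (by norm_num)
  have h2 := mul_le_mul_of_nonneg_left this hS.le
  have e : (SC : ℝ) * ((1 * (t.X : ℝ) + 0 * t.Y) / SC + 1 * (6 * j / SC)) = t.X + 6 * j := by
    field_simp
    ring
  rw [e] at h2
  linarith

end Pool.Agent.H10.MK
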