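import Mathlib
import Pool.Agent.H10.MK.Rot

/-!
The integer checker for certificates (to be evaluated by the kernel).
Coefficients are scaled by `10^8`, frequencies by `10`, thresholds by `50`, densities by `10^4`,
variances by `10^4`; the grid in `z` has step `1/50`, the grid in `y` has step `1/64`.
-/

namespace Pool.Agent.H10.MK

/-- one frequency -/
structure Fr where
  U : ℤ
  D : ℤ
  E : ℤ
  T : ℤ

/-- a normalised certificate with its cell -/
structure Dat where
  A0 : ℤ
  A1 : ℤ
  A2 : ℤ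
  A3 : ℤ
  A4 : ℤ
  fr : List Fr
  base : ℤ
  jp : List (ℤ × ℤ)
  J : ℕ
  V1 : ℤ
  V2 : ℤ
  K1 : ℤ
  K2 : ℤ
  i0 : ℕ
  NP : ℤ
  NN : ℤ
  kf : ℤ

/-- maximum of two integers -/
def mx (a b : ℤ) : ℤ := bif decide (a ≤ b) then b else a

/-- minimum of two integers -/
def mn (a b : ℤ) : ℤ := bif decide (a ≤ b) then a else b

/-- frequency with rotation state -/
structure Tm where
  f : Fr
  s : St

/-- next state -/
def Tm.next (t : Tm) : Tm := ⟨t.f, t.s.next⟩

/-- even part -/
def evS : List Tm → ℤ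
  | [] => 0
  | t :: l => t.f.D * t.s.X + evS l

/-- odd part -/
def odS : List Tm → ℤ
  | [] => 0
  | t :: l => t.f.E * t.s.Y + odS l

/-- next states -/
def nextL : List Tm → List Tm
  | [] => []
  | t :: l => t.next :: nextL l

/-- initial states -/
def initL : List Fr → List Tm
  | [] => []
  | f :: l => ⟨f, St.init f.U 500⟩ :: initL l

/-- total amplitude -/
def sumT : List Fr → ℤ
  | [] => 0
  | f :: l => f.T + sumT l

/-- amplitude times squared frequency -/
def sumTU : List Fr → ℤ
  | [] => 0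
  | f :: l => f.T * (f.U * f.U) + sumTU l

/-- jumps below the point `j` -/
def levS : List (ℤ × ℤ) → ℤ → ℤ
  | [], _ => 0
  | p :: l, j => (bif decide (p.1 < j) then p.2 else 0) + levS l j

/-- sum of all jumps -/
def totS : List (ℤ × ℤ) → ℤ
  | [] => 0
  | p :: l => p.2 + totS l

/-- pointwise check at `j / 50` and `- j / 50` -/
def chkP (d : Dat) (ERR TU : ℤ) (j e o : ℤ) : Bool :=
  let pe := 30000 * (d.A0 * 6250000 + d.A2 * 2500 * (j * j) + d.A4 * (j * j * (j * j))) + e + ERR
  let po := 30000 * (d.A1 * 125000 * j + d.A3 * 50 * (j * j * j)) + o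
  let me := TU - 10000 * (2500 * d.A2 + 6 * d.A4 * (j * j))
  let mo := 1500000 * d.A3 * j
  let rp := (d.base + levS d.jp j) * 6250000000000000000
  let rm := (d.base + levS d.jp (-j)) * 6250000000000000000
  decide (pe + po ≤ rp) && decide (pe + po + (me - mo) ≤ rp) &&
    decide (pe - po ≤ rm) && decide (pe - po + (me + mo) ≤ rm)

/-- loop of the pointwise check -/
def loopP (d : Dat) (ERR TU : ℤ) : ℕ → ℤ → List Tm → Bool
  | 0, _, _ => true
  | n + 1, j, l => chkP d ERR TU j (evS l) (odS l) && loopP d ERR TU n (j + 1) (nextL l)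

/-- tail check -/
def chkT (d : Dat) : Bool :=
  let J : ℤ := d.J
  let T := sumT d.fr * SC
  let pe := 30000 * (d.A0 * 6250000 + d.A2 * 2500 * (J * J) + d.A4 * (J * J * (J * J))) + T
  let po := 30000 * (d.A1 * 125000 * J + d.A3 * 50 * (J * J * J))
  let se := 2 * d.A2 * 2500 + 12 * d.A4 * (J * J)
  let so := 6 * d.A3 * 50 * J
  let fo := d.A1 * 125000 + 3 * d.A3 * 50 * (J * J)
  let fe := 2 * d.A2 * 2500 * J + 4 * d.A4 * (J * J * J)
  decide (pe + po ≤ (d.base + levS d.jp J) * 6250000000000000000) &&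
    decide (levS d.jp J = totS d.jp) &&
    decide (pe - po ≤ d.base * 6250000000000000000) &&
    decide (fo + fe ≤ 0) && decide (0 ≤ fo - fe) &&
    decide (se + so ≤ 0) && decide (se - so ≤ 0) &&
    decide (d.A3 * 50 + 4 * d.A4 * J ≤ 0) && decide (0 ≤ d.A3 * 50 - 4 * d.A4 * J)

/-- frequency with rotation state and the value of the lower bound -/
structure Wm where
  f : Fr
  s : St
  L : ℤ

/-- lower bound of the exponent at `i / 64` -/
def lval (qN U X i : ℤ) : ℤ :=
  let c := mx 0 (SC - X - 6 * i)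
  let a := qN * c / 100000000
  (c * (SC + a + 4 * (a * a) / (3 * SC)) / SC - U * U * 205994) * 4096 / (i * i)

/-- next state -/
def Wm.next (qN i : ℤ) (t : Wm) : Wm := ⟨t.f, t.s.next, lval qN t.f.U t.s.next.X i⟩

/-- next states -/
def nextW (qN i : ℤ) : List Wm → List Wm
  | [] => []
  | t :: l => t.next qN i :: nextW qN i l

/-- initial states -/
def initW : List Fr → List Wm
  | [] => []
  | f :: l => ⟨f, St.init f.U 640, 0⟩ :: initW l

/-- advance -/
def runW (qN : ℤ) : ℕ → ℤ → List Wm → List Wm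
  | 0, _, l => l
  | n + 1, i, l => runW qN n (i + 1) (nextW qN (i + 1) l)

/-- squaring, rounded up -/
def sqU (P : ℤ) : ℤ := (P * P + 187499999999) / SC

/-- start value for the exponential -/
def exS (t : ℤ) : ℤ := SC - t + (t * t + 374999999999) / 375000000000

/-- upper bound for `exp (-x)` -/
def expUp (x : ℤ) : ℤ :=
  bif decide (0 ≤ x) then
    sqU (sqU (sqU (sqU (sqU (sqU (sqU (sqU (sqU (sqU (exS (x / 1024)))))))))))
  else SC - 2 * x

/-- weighted sum of exponentials -/
def wS : List Wm → ℤ → ℤ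
  | [], _ => 0
  | t :: l, V => t.f.T * expUp (V * t.L / 10000) + wS l V

/-- polynomial part of the weight -/
def wP (d : Dat) (K qN V i : ℤ) : ℤ :=
  d.A0 * 12288000000000000 + d.A2 * V * 1228800000000 +
    d.A3 * (10000 - 2 * K) * V * i * 1920000 +
    d.A4 * (3 * (V * V) * 122880000 + (100000000 - 6 * qN) * V * (i * i) * 3)

/-- target value -/
def tgt (d : Dat) (K sl : ℤ) : ℤ :=
  12288000000000000 * (1000 + d.kf * (K * 10000)) - d.A4 * d.V2 * 9375000 * sl

/-- check of the weight at `i / 64` and `- i / 64` -/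
def chkG (d : Dat) (K qN V i : ℤ) (l : List Wm) : Bool :=
  let w := wS l V * 65536 + tgt d K 1
  (decide (d.NP < i) || decide (w ≤ wP d K qN V i)) &&
    (decide (d.NN < i) || decide (w ≤ wP d K qN V (-i)))

/-- check of the interpolation -/
def chkB (qN i : ℤ) : List Wm → Bool
  | [] => true
  | t :: l =>
    let L := t.L
    let M := (t.next qN (i + 1)).L
    decide (0 ≤ mn L M + 2 * (i + 1) * mn 0 (M - L) + t.f.U * t.f.U * 2400000000) &&
      chkB qN i l

/-- the lower bounds are not too negative -/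
def chkL : List Wm → Bool
  | [] => true
  | t :: l => decide (-45000000000 ≤ t.L) && chkL l

/-- main loop of the weight check -/
def loopW (d : Dat) (K qN q1 : ℤ) : ℕ → ℤ → List Wm → Bool
  | 0, _, _ => true
  | n + 1, i, l =>
    chkL l && chkG d K qN (mx d.V1 (q1 * ((i - 1) * (i - 1)) / 40960000)) i l &&
      chkG d K qN d.V2 i l && chkB qN i l && loopW d K qN q1 n (i + 1) (nextW qN (i + 1) l)

/-- lower bound of the exponent near the origin -/
def lval0 (U i0 : ℤ) : ℤ := SC * (U * U * 8192000 - U * U * (U * U) * (i0 * i0)) / 1638400000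

/-- weighted sum of exponentials near the origin -/
def wS0 (i0 V : ℤ) : List Fr → ℤ
  | [] => 0
  | f :: l => f.T * expUp (V * lval0 f.U i0 / 10000) + wS0 i0 V l

/-- check near the origin -/
def chk0 (d : Dat) (K qN V : ℤ) : Bool :=
  let w := wS0 d.i0 V d.fr * 65536 + tgt d K (d.i0 * d.i0)
  decide (w ≤ wP d K qN V 0) && decide (w ≤ wP d K qN V d.i0) && decide (w ≤ wP d K qN V (-d.i0))

/-- all frequencies are admissible -/
def chkF (i0 : ℤ) : List Fr → Bool
  | [] => true
  | f :: l => decide (0 < f.U) && decide (f.U ≤ 50) && decide (f.U * i0 ≤ 640) && decide (0 ≤ f.T) &&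
      decide (f.D * f.D + f.E * f.E ≤ f.T * f.T) && chkF i0 l

/-- all jumps are nonnegative -/
def chkJ : List (ℤ × ℤ) → Bool
  | [] => true
  | p :: l => decide (0 ≤ p.2) && chkJ l

/-- weight check for one density -/
def chkK (d : Dat) (K : ℤ) : Bool :=
  let qN := K * (10000 - K)
  chk0 d K qN d.V1 && chk0 d K qN d.V2 &&
    loopW d K qN (d.K1 * (10000 - d.K1)) ((mx d.NP d.NN).toNat + 1 - d.i0) d.i0
      (runW qN d.i0 0 (initW d.fr))

/-- side conditions -/
def chkS (d : Dat) : Bool :=
  chkF d.i0 d.fr && chkJ d.jp && decide (d.A4 ≤ 0) && decide (1999 ≤ d.K1) && decide (d.K1 ≤ d.K2) &&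
    decide (d.K2 ≤ 2500) && decide (0 < d.V1) && decide (d.V1 ≤ d.V2) && decide (d.V2 ≤ 20000) &&
    decide (0 < d.i0) && decide (d.J ≤ 1000) && decide (d.NP ≤ 1000) && decide (d.NN ≤ 1000) &&
    decide (0 ≤ d.kf) && decide (d.kf ≤ 1) && decide (0 < d.J)

/-- the complete check -/
def chkA (d : Dat) : Bool :=
  chkS d && loopP d (6 * d.J * sumT d.fr) (125000 * sumTU d.fr) (d.J + 1) 0 (initL d.fr) &&
    chkT d && chkK d d.K1 && chkK d d.K2

end Pool.Agent.H10.MK
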