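import Mathlib
import Pool.Agent.H49.MK.Defs

/-!
Elementary one variable inequalities for the certificate checker.
-/

open Finset

namespace Pool.Agent.H10.MK

open Pool.Agent.H49.MK

theorem exp_chord (a b t : ℝ) (h0 : 0 ≤ t) (h1 : t ≤ 1) :
    Real.exp ((1 - t) * a + t * b) ≤ (1 - t) * Real.exp a + t * Real.exp b := by
  have := convexOn_exp.2 (Set.mem_univ a) (Set.mem_univ b) (by linarith : (0 : ℝ) ≤ 1 - t) h0
    (by ring)
  simpa [smul_eq_mul] using this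

theorem trig_le (d e T x : ℝ) (hT : 0 ≤ T) (h : d ^ 2 + e ^ 2 ≤ T ^ 2) :
    d * Real.cos x + e * Real.sin x ≤ T := by
  have h1 : (d * Real.cos x + e * Real.sin x) ^ 2 ≤ T ^ 2 := by
    have h2 := Real.sin_sq_add_cos_sq x
    nlinarith [sq_nonneg (d * Real.sin x - e * Real.cos x)]
  exact abs_le_of_sq_le_sq' h1 hT |>.2

theorem trig_convex (d e T u : ℝ) (hT : 0 ≤ T) (h : d ^ 2 + e ^ 2 ≤ T ^ 2) :
    ConvexOn ℝ Set.univ
      (fun z : ℝ => d * Real.cos (u * z) + e * Real.sin (u * z) + T * u ^ 2 / 2 * z ^ 2) := by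
  have hd1 : ∀ z : ℝ, HasDerivAt
      (fun z : ℝ => d * Real.cos (u * z) + e * Real.sin (u * z) + T * u ^ 2 / 2 * z ^ 2)
      (d * (-Real.sin (u * z) * u) + e * (Real.cos (u * z) * u) + T * u ^ 2 / 2 * (2 * z)) z := by
    intro z
    have hu : HasDerivAt (fun z : ℝ => u * z) u z := by
      simpa using (hasDerivAt_id z).const_mul u
    have h1 := (hu.cos).const_mul d
    have h2 := (hu.sin).const_mul e
    have h3 := ((hasDerivAt_pow 2 z)).const_mul (T * u ^ 2 / 2)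
    exact ((h1.add h2).add h3).congr_deriv (by norm_num)
  have hd2 : ∀ z : ℝ, HasDerivAt
      (fun z : ℝ => d * (-Real.sin (u * z) * u) + e * (Real.cos (u * z) * u) +
        T * u ^ 2 / 2 * (2 * z))
      (-(u ^ 2) * (d * Real.cos (u * z) + e * Real.sin (u * z)) + T * u ^ 2) z := by
    intro z
    have hu : HasDerivAt (fun z : ℝ => u * z) u z := by
      simpa using (hasDerivAt_id z).const_mul u
    have h1 := (((hu.sin).neg).mul_const u).const_mul d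
    have h2 := ((hu.cos).mul_const u).const_mul e
    have h3 := ((hasDerivAt_id z).const_mul 2).const_mul (T * u ^ 2 / 2)
    exact ((h1.add h2).add h3).congr_deriv (by ring)
  have e1 : deriv (fun z : ℝ => d * Real.cos (u * z) + e * Real.sin (u * z) +
      T * u ^ 2 / 2 * z ^ 2) = fun z : ℝ => d * (-Real.sin (u * z) * u) +
        e * (Real.cos (u * z) * u) + T * u ^ 2 / 2 * (2 * z) :=
    funext fun z => (hd1 z).deriv
  refine convexOn_univ_of_deriv2_nonneg (fun z => (hd1 z).differentiableAt) ?_ ?_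
  · rw [e1]; exact fun z => (hd2 z).differentiableAt
  · intro z
    show 0 ≤ deriv (deriv _) z
    rw [e1, (hd2 z).deriv]
    have := trig_le d e T (u * z) hT h
    nlinarith [sq_nonneg u]

theorem trig_chord (d e T u z1 z2 t : ℝ) (hT : 0 ≤ T) (h : d ^ 2 + e ^ 2 ≤ T ^ 2)
    (h0 : 0 ≤ t) (h1 : t ≤ 1) :
    d * Real.cos (u * ((1 - t) * z1 + t * z2)) + e * Real.sin (u * ((1 - t) * z1 + t * z2)) ≤
      (1 - t) * (d * Real.cos (u * z1) + e * Real.sin (u * z1)) +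
      t * (d * Real.cos (u * z2) + e * Real.sin (u * z2)) +
      T * u ^ 2 / 2 * (t * (1 - t) * (z2 - z1) ^ 2) := by
  have := (trig_convex d e T u hT h).2 (Set.mem_univ z1) (Set.mem_univ z2)
    (by linarith : (0 : ℝ) ≤ 1 - t) h0 (by ring)
  simp only [smul_eq_mul] at this
  nlinarith [this]

/-- the numerator of `ef` -/
noncomputable def HH (q θ : ℝ) : ℝ :=
  (1 - Real.cos θ) * (1 + q * (1 - Real.cos θ) + 4 / 3 * (q * (1 - Real.cos θ)) ^ 2)

theorem ef_eq (q u y : ℝ) : ef q u y = HH q (u * y) / y ^ 2 := rfl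

theorem HH_nonneg (q θ : ℝ) (hq : 0 ≤ q) : 0 ≤ HH q θ := by
  have := Real.cos_le_one θ
  have h : 0 ≤ 1 - Real.cos θ := by linarith
  unfold HH
  positivity

theorem HH_concave (q : ℝ) (hq : 159 / 1000 ≤ q) (hq2 : q ≤ 3 / 16) :
    ConcaveOn ℝ Set.univ (fun θ : ℝ => HH q θ - 52 / 100 * θ ^ 2) := by
  have hd1 : ∀ z : ℝ, HasDerivAt (fun θ : ℝ => HH q θ - 52 / 100 * θ ^ 2)
      (Real.sin z * (1 + 2 * q * (1 - Real.cos z) + 4 * q ^ 2 * (1 - Real.cos z) ^ 2) -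
        52 / 100 * (2 * z)) z := by
    intro z
    unfold HH
    have hc : HasDerivAt (fun θ : ℝ => 1 - Real.cos θ) (Real.sin z) z := by
      simpa using (Real.hasDerivAt_cos z).const_sub 1
    have h1 := hc.const_mul q
    have h2 := (h1.pow 2).const_mul (4 / 3)
    have h3 := (h1.const_add 1).add h2
    have h4 := hc.mul h3
    have h5 := (hasDerivAt_pow 2 z).const_mul (52 / 100 : ℝ)
    exact (h4.sub h5).congr_deriv (by simp only [Pi.add_apply, Pi.pow_apply]; ring)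
  have hd2 : ∀ z : ℝ, HasDerivAt (fun z : ℝ =>
      Real.sin z * (1 + 2 * q * (1 - Real.cos z) + 4 * q ^ 2 * (1 - Real.cos z) ^ 2) -
        52 / 100 * (2 * z))
      (Real.cos z * (1 + 2 * q * (1 - Real.cos z) + 4 * q ^ 2 * (1 - Real.cos z) ^ 2) +
        Real.sin z * (2 * q * Real.sin z + 4 * q ^ 2 * (2 * (1 - Real.cos z) * Real.sin z)) -
        52 / 100 * 2) z := by
    intro z
    have hc : HasDerivAt (fun θ : ℝ => 1 - Real.cos θ) (Real.sin z) z := by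
      simpa using (Real.hasDerivAt_cos z).const_sub 1
    have h1 := (hc.const_mul (2 * q)).const_add 1
    have h2 := (hc.pow 2).const_mul (4 * q ^ 2)
    have h3 := h1.add h2
    have h4 := (Real.hasDerivAt_sin z).mul h3
    have h5 := ((hasDerivAt_id z).const_mul 2).const_mul (52 / 100 : ℝ)
    exact (h4.sub h5).congr_deriv (by simp only [Pi.add_apply, Pi.pow_apply]; ring)
  have e1 : deriv (fun θ : ℝ => HH q θ - 52 / 100 * θ ^ 2) = fun z : ℝ =>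
      Real.sin z * (1 + 2 * q * (1 - Real.cos z) + 4 * q ^ 2 * (1 - Real.cos z) ^ 2) -
        52 / 100 * (2 * z) :=
    funext fun z => (hd1 z).deriv
  refine concaveOn_univ_of_deriv2_nonpos (fun z => (hd1 z).differentiableAt) ?_ ?_
  · rw [e1]; exact fun z => (hd2 z).differentiableAt
  · intro z
    show deriv (deriv _) z ≤ 0
    rw [e1, (hd2 z).deriv]
    have hs := Real.sin_sq_add_cos_sq z
    have hc1 := Real.cos_le_one z
    have hc2 := Real.neg_one_le_cos z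
    set c := 1 - Real.cos z with hc
    have hcos : Real.cos z = 1 - c := by rw [hc]; ring
    have hsin : Real.sin z ^ 2 = c * (2 - c) := by
      have : Real.sin z ^ 2 = 1 - Real.cos z ^ 2 := by linarith
      rw [this, hcos]; ring
    have hc0 : 0 ≤ c := by rw [hc]; linarith
    have hcc : c ≤ 2 := by rw [hc]; linarith
    have e2 : Real.sin z * (2 * q * Real.sin z + 4 * q ^ 2 * (2 * c * Real.sin z)) =
        (2 * q + 8 * q ^ 2 * c) * (c * (2 - c)) := by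
      rw [← hsin]; ring
    rw [e2, hcos]
    have e3 : (1 - c) * (1 + 2 * q * c + 4 * q ^ 2 * c ^ 2) +
        (2 * q + 8 * q ^ 2 * c) * (c * (2 - c)) - 52 / 100 * 2 =
        c * (6 * q - 1) + 4 * q * (5 * q - 1) * c ^ 2 - 12 * q ^ 2 * c ^ 3 - 4 / 100 := by ring
    rw [e3]
    have a1 : c * (6 * q - 1) ≤ c * (1 / 8) := mul_le_mul_of_nonneg_left (by linarith) hc0
    have a2 : 4 * q * (5 * q - 1) * c ^ 2 ≤ 0 := by
      have : 5 * q - 1 ≤ 0 := by linarith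
      have : 4 * q * (5 * q - 1) ≤ 0 := by nlinarith
      nlinarith [sq_nonneg c]
    have a3 : 3 / 10 * c ^ 3 ≤ 12 * q ^ 2 * c ^ 3 := by
      have : 3 / 10 ≤ 12 * q ^ 2 := by nlinarith
      exact mul_le_mul_of_nonneg_right this (by positivity)
    have a4 : c * (1 / 8) - 3 / 10 * c ^ 3 ≤ 4 / 100 := by
      nlinarith [mul_nonneg hc0 (sq_nonneg (c - 37 / 100)), sq_nonneg (c - 37 / 100)]
    linarith

theorem HH_chord (q u y1 y2 t : ℝ) (hq : 159 / 1000 ≤ q) (hq2 : q ≤ 3 / 16)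
    (h0 : 0 ≤ t) (h1 : t ≤ 1) :
    (1 - t) * HH q (u * y1) + t * HH q (u * y2) -
      52 / 100 * u ^ 2 * (t * (1 - t) * (y2 - y1) ^ 2) ≤ HH q (u * ((1 - t) * y1 + t * y2)) := by
  have := (HH_concave q hq hq2).2 (Set.mem_univ (u * y1)) (Set.mem_univ (u * y2))
    (by linarith : (0 : ℝ) ≤ 1 - t) h0 (by ring)
  simp only [smul_eq_mul] at this
  have e : (1 - t) * (u * y1) + t * (u * y2) = u * ((1 - t) * y1 + t * y2) := by ring
  rw [e] at this
  nlinarith [this]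

theorem HH_small (q θ : ℝ) (hq : 159 / 1000 ≤ q) (hθ : |θ| ≤ 1) :
    θ ^ 2 * (1 / 2 - θ ^ 2 / 40) ≤ HH q θ := by
  have hb := Real.cos_bound hθ
  have h4 : |θ| ^ 4 = θ ^ 4 := by
    rw [show (4 : ℕ) = 2 * 2 from rfl, pow_mul, sq_abs, ← pow_mul]
  rw [h4] at hb
  have hc := (abs_le.mp hb).2
  set x := θ ^ 2 with hx
  have hx0 : 0 ≤ x := sq_nonneg θ
  have hx1 : x ≤ 1 := by
    have := (abs_le.mp hθ)
    rw [hx]; nlinarith
  have hx4 : θ ^ 4 = x ^ 2 := by rw [hx]; ring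
  rw [hx4] at hc
  have hc' : x / 2 - 5 / 96 * x ^ 2 ≤ 1 - Real.cos θ := by linarith
  set c := 1 - Real.cos θ
  have hcl : 0 ≤ x / 2 - 5 / 96 * x ^ 2 := by nlinarith
  have hc0 : 0 ≤ c := hcl.trans hc'
  have hH : c + q * c ^ 2 ≤ HH q θ := by
    show c + q * c ^ 2 ≤ c * (1 + q * c + 4 / 3 * (q * c) ^ 2)
    have : 0 ≤ c * (4 / 3 * (q * c) ^ 2) := by positivity
    nlinarith
  refine le_trans ?_ hH
  have h2 : (x / 2 - 5 / 96 * x ^ 2) ^ 2 ≤ c ^ 2 := pow_le_pow_left₀ hcl hc' 2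
  have h3 : 159 / 1000 * (x / 2 - 5 / 96 * x ^ 2) ^ 2 ≤ q * c ^ 2 := by
    have : 159 / 1000 * (x / 2 - 5 / 96 * x ^ 2) ^ 2 ≤ 159 / 1000 * c ^ 2 := by linarith
    have : 159 / 1000 * c ^ 2 ≤ q * c ^ 2 := mul_le_mul_of_nonneg_right hq (sq_nonneg c)
    linarith
  have h4 : (43 / 96 * x) ^ 2 ≤ (x / 2 - 5 / 96 * x ^ 2) ^ 2 := by
    apply pow_le_pow_left₀ (by positivity)
    nlinarith
  nlinarith [sq_nonneg x]

/-- chord inequality for quartics with nonpositive leading coefficient -/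
theorem quartic_chord (c0 c1 c2 c3 c4 z1 z2 t : ℝ) (h4 : c4 ≤ 0) (h0 : 0 ≤ t) (h1 : t ≤ 1) :
    let z := (1 - t) * z1 + t * z2
    let q := fun z : ℝ => c0 + c1 * z + c2 * z ^ 2 + c3 * z ^ 3 + c4 * z ^ 4
    let m := fun z : ℝ => c2 + 3 * c3 * z + 6 * c4 * z ^ 2
    q z ≤ (1 - t) * q z1 + t * q z2 -
      t * (1 - t) * (z2 - z1) ^ 2 * ((2 - t) / 3 * m z1 + (1 + t) / 3 * m z2) := by
  intro z q m
  have key : (1 - t) * q z1 + t * q z2 -
      t * (1 - t) * (z2 - z1) ^ 2 * ((2 - t) / 3 * m z1 + (1 + t) / 3 * m z2) - q z =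
      -c4 * (t * (1 - t) * (z2 - z1) ^ 2) * (t * (1 - t) * (z2 - z1) ^ 2 + (z2 - z1) ^ 2) := by
    simp only [q, m, z]
    ring
  have : 0 ≤ -c4 * (t * (1 - t) * (z2 - z1) ^ 2) *
      (t * (1 - t) * (z2 - z1) ^ 2 + (z2 - z1) ^ 2) := by
    have ha : 0 ≤ t * (1 - t) := mul_nonneg h0 (by linarith)
    have hb : 0 ≤ -c4 := by linarith
    positivity
  linarith

/-- concavity in the density -/
theorem HH_kappa (k1 k2 t θ : ℝ) (hk1 : 1999 / 10000 ≤ k1) (hk2 : 1999 / 10000 ≤ k2)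
    (hk1' : k1 ≤ 1 / 4) (hk2' : k2 ≤ 1 / 4) (h0 : 0 ≤ t) (h1 : t ≤ 1) :
    (1 - t) * HH (k1 * (1 - k1)) θ + t * HH (k2 * (1 - k2)) θ ≤
      HH (((1 - t) * k1 + t * k2) * (1 - ((1 - t) * k1 + t * k2))) θ := by
  unfold HH
  have hc1 := Real.cos_le_one θ
  have hc2 := Real.neg_one_le_cos θ
  set c := 1 - Real.cos θ with hc
  have hc0 : 0 ≤ c := by rw [hc]; linarith
  have hcc : c ≤ 2 := by rw [hc]; linarith
  set q1 := k1 * (1 - k1) with hq1
  set q2 := k2 * (1 - k2) with hq2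
  set κ := (1 - t) * k1 + t * k2 with hκ
  set Δ := (k2 - k1) ^ 2 with hΔ
  have hΔ0 : 0 ≤ Δ := sq_nonneg _
  have ht : 0 ≤ t * (1 - t) := mul_nonneg h0 (by linarith)
  have hq : κ * (1 - κ) = (1 - t) * q1 + t * q2 + t * (1 - t) * Δ := by
    rw [hκ, hq1, hq2, hΔ]; ring
  have hq1b : 1599 / 10000 ≤ q1 := by rw [hq1]; nlinarith
  have hq2b : 1599 / 10000 ≤ q2 := by rw [hq2]; nlinarith
  set qb := (1 - t) * q1 + t * q2 with hqb
  have hqbb : 1599 / 10000 ≤ qb := by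
    rw [hqb]; nlinarith
  have hsq : (1 - t) * q1 ^ 2 + t * q2 ^ 2 - 5 / 100 * (t * (1 - t) * Δ) ≤ (κ * (1 - κ)) ^ 2 := by
    rw [hq]
    have e1 : (1 - t) * q1 ^ 2 + t * q2 ^ 2 = qb ^ 2 + t * (1 - t) * (q2 - q1) ^ 2 := by
      rw [hqb]; ring
    have e2 : (q2 - q1) ^ 2 = Δ * (1 - k1 - k2) ^ 2 := by
      rw [hq1, hq2, hΔ]; ring
    have e3 : (1 - k1 - k2) ^ 2 ≤ 3603 / 10000 := by
      have : 0 ≤ 1 - k1 - k2 := by linarith
      have : 1 - k1 - k2 ≤ 6002 / 10000 := by linarith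
      nlinarith
    have e4 : (q2 - q1) ^ 2 ≤ Δ * (3603 / 10000) := by
      rw [e2]; exact mul_le_mul_of_nonneg_left e3 hΔ0
    have e5 : t * (1 - t) * (q2 - q1) ^ 2 ≤ t * (1 - t) * (Δ * (3603 / 10000)) :=
      mul_le_mul_of_nonneg_left e4 ht
    have e6 : 0 ≤ t * (1 - t) * Δ := mul_nonneg ht hΔ0
    rw [e1]
    nlinarith [mul_nonneg e6 (by linarith : (0 : ℝ) ≤ qb - 1599 / 10000), sq_nonneg (t * (1 - t) * Δ)]
  set Q := κ * (1 - κ) with hQ
  have e6 : 0 ≤ t * (1 - t) * Δ := mul_nonneg ht hΔ0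
  have lhs : (1 - t) * (c * (1 + q1 * c + 4 / 3 * (q1 * c) ^ 2)) +
      t * (c * (1 + q2 * c + 4 / 3 * (q2 * c) ^ 2)) =
      c + qb * c ^ 2 + 4 / 3 * c ^ 3 * ((1 - t) * q1 ^ 2 + t * q2 ^ 2) := by
    rw [hqb]; ring
  have rhs : c * (1 + Q * c + 4 / 3 * (Q * c) ^ 2) = c + Q * c ^ 2 + 4 / 3 * c ^ 3 * Q ^ 2 := by
    ring
  rw [lhs, rhs, hq]
  have a1 : 4 / 3 * c ^ 3 * ((1 - t) * q1 ^ 2 + t * q2 ^ 2 - 5 / 100 * (t * (1 - t) * Δ)) ≤
      4 / 3 * c ^ 3 * Q ^ 2 := mul_le_mul_of_nonneg_left hsq (by positivity)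
  have a2 : 4 / 3 * c ^ 3 * (5 / 100 * (t * (1 - t) * Δ)) ≤ c ^ 2 * (t * (1 - t) * Δ) := by
    have : 4 / 3 * c ^ 3 * (5 / 100 * (t * (1 - t) * Δ)) =
        (c ^ 2 * (t * (1 - t) * Δ)) * (c * (4 / 3 * (5 / 100))) := by ring
    rw [this]
    have h5 : 0 ≤ c ^ 2 * (t * (1 - t) * Δ) := by positivity
    have h6 : c * (4 / 3 * (5 / 100)) ≤ 1 := by linarith
    calc _ ≤ (c ^ 2 * (t * (1 - t) * Δ)) * 1 := mul_le_mul_of_nonneg_left h6 h5
      _ = _ := by ring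
  rw [← hq] at *
  nlinarith

end Pool.Agent.H10.MK
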