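import Mathlib
import Pool.Agent.H10.MK.Chk
import Pool.Agent.H10.MK.Cvx

/-!
Soundness of the pointwise part of the checker.
-/

open Finset

namespace Pool.Agent.H10.MK

/-- value of a frequency term (coefficients not scaled) -/
noncomputable def Fr.val (f : Fr) (ζ : ℝ) : ℝ :=
  f.D * Real.cos (f.U / 10 * ζ) + f.E * Real.sin (f.U / 10 * ζ)

/-- the quartic -/
noncomputable def qn (d : Dat) (ζ : ℝ) : ℝ :=
  d.A0 + d.A1 * ζ + d.A2 * ζ ^ 2 + d.A3 * ζ ^ 3 + d.A4 * ζ ^ 4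

/-- half of the second derivative of the quartic -/
noncomputable def mq (d : Dat) (ζ : ℝ) : ℝ := d.A2 + 3 * d.A3 * ζ + 6 * d.A4 * ζ ^ 2

/-- sum of the trigonometric terms -/
noncomputable def tn : List Fr → ℝ → ℝ
  | [], _ => 0
  | f :: l, ζ => f.val ζ + tn l ζ

/-- value of the certificate (scaled by `10^8`) -/
noncomputable def pn (d : Dat) (ζ : ℝ) : ℝ := qn d ζ + tn d.fr ζ

/-- real jumps -/
noncomputable def jn : List (ℤ × ℤ) → ℝ → ℝ
  | [], _ => 0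
  | p :: l, ζ => (if (p.1 : ℝ) / 50 < ζ then (p.2 : ℝ) else 0) + jn l ζ

/-- admissible frequency -/
def Fr.Ok (f : Fr) : Prop :=
  0 < f.U ∧ f.U ≤ 50 ∧ 0 ≤ f.T ∧ f.D * f.D + f.E * f.E ≤ f.T * f.T

theorem chkF_sound (i0 : ℤ) : ∀ (l : List Fr), chkF i0 l = true → ∀ f ∈ l, f.Ok ∧ f.U * i0 ≤ 640
  | [], _ => by simp
  | f :: l, h => by
    simp only [chkF, Bool.and_eq_true, decide_eq_true_eq] at h
    obtain ⟨⟨⟨⟨⟨h1, h2⟩, h3⟩, h4⟩, h5⟩, h6⟩ := h
    intro g hg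
    rcases List.mem_cons.mp hg with rfl | hg
    · exact ⟨⟨h1, h2, h4, h5⟩, h3⟩
    · exact chkF_sound i0 l h6 g hg

theorem sumT_nonneg : ∀ (l : List Fr), (∀ f ∈ l, f.Ok) → 0 ≤ sumT l
  | [], _ => le_rfl
  | f :: l, h => by
    have h1 := (h f (by simp)).2.2.1
    have h2 := sumT_nonneg l (fun g hg => h g (by simp [hg]))
    show 0 ≤ f.T + sumT l
    omega

theorem Fr.Ok.sq {f : Fr} (h : f.Ok) : (f.D : ℝ) ^ 2 + (f.E : ℝ) ^ 2 ≤ (f.T : ℝ) ^ 2 := by
  have := h.2.2.2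
  have h2 : ((f.D * f.D + f.E * f.E : ℤ) : ℝ) ≤ ((f.T * f.T : ℤ) : ℝ) := by exact_mod_cast this
  push_cast at h2
  nlinarith

theorem Fr.Ok.T0 {f : Fr} (h : f.Ok) : (0 : ℝ) ≤ f.T := by exact_mod_cast h.2.2.1

theorem tn_le : ∀ (l : List Fr) (_ : ∀ f ∈ l, f.Ok) (ζ : ℝ), tn l ζ ≤ sumT l
  | [], _, ζ => by simp [tn, sumT]
  | f :: l, h, ζ => by
    have hf := h f (by simp)
    have h1 := trig_le f.D f.E f.T (f.U / 10 * ζ) hf.T0 hf.sq
    have h2 := tn_le l (fun g hg => h g (by simp [hg])) ζ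
    show f.val ζ + tn l ζ ≤ ((f.T + sumT l : ℤ) : ℝ)
    push_cast
    unfold Fr.val
    linarith

/-- chord bound for the trigonometric part -/
theorem tn_chord : ∀ (l : List Fr) (_ : ∀ f ∈ l, f.Ok) (z1 z2 t : ℝ) (_ : 0 ≤ t) (_ : t ≤ 1),
    tn l ((1 - t) * z1 + t * z2) ≤ (1 - t) * tn l z1 + t * tn l z2 +
      (sumTU l : ℝ) / 200 * (t * (1 - t) * (z2 - z1) ^ 2)
  | [], _, z1, z2, t, _, _ => by simp [tn, sumTU]
  | f :: l, h, z1, z2, t, h0, h1 => by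
    have hf := h f (by simp)
    have a1 := trig_chord f.D f.E f.T (f.U / 10) z1 z2 t hf.T0 hf.sq h0 h1
    have a2 := tn_chord l (fun g hg => h g (by simp [hg])) z1 z2 t h0 h1
    show f.val _ + tn l _ ≤ (1 - t) * (f.val z1 + tn l z1) + t * (f.val z2 + tn l z2) +
      ((f.T * (f.U * f.U) + sumTU l : ℤ) : ℝ) / 200 * (t * (1 - t) * (z2 - z1) ^ 2)
    push_cast
    unfold Fr.val
    have e : ((f.T : ℝ) * (f.U * f.U) + sumTU l) / 200 * (t * (1 - t) * (z2 - z1) ^ 2) =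
        f.T * ((f.U : ℝ) / 10) ^ 2 / 2 * (t * (1 - t) * (z2 - z1) ^ 2) +
        (sumTU l : ℝ) / 200 * (t * (1 - t) * (z2 - z1) ^ 2) := by ring
    rw [e]
    linarith

/-- the excess term -/
noncomputable def ex (d : Dat) (ζ : ℝ) : ℝ := (sumTU d.fr : ℝ) / 200 - mq d ζ

/-- main chord estimate -/
theorem pn_chord (d : Dat) (hF : ∀ f ∈ d.fr, f.Ok) (h4 : d.A4 ≤ 0) (z1 z2 t : ℝ)
    (h0 : 0 ≤ t) (h1 : t ≤ 1) :
    pn d ((1 - t) * z1 + t * z2) ≤
      (1 - t) * (pn d z1 + (z2 - z1) ^ 2 / 3 * max 0 (ex d z1)) +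
      t * (pn d z2 + (z2 - z1) ^ 2 / 3 * max 0 (ex d z2)) := by
  have h4' : (d.A4 : ℝ) ≤ 0 := by exact_mod_cast h4
  have a1 := quartic_chord d.A0 d.A1 d.A2 d.A3 d.A4 z1 z2 t h4' h0 h1
  simp only at a1
  have a2 := tn_chord d.fr hF z1 z2 t h0 h1
  set H := (z2 - z1) ^ 2 with hH
  have hH0 : 0 ≤ H := sq_nonneg _
  have ht : 0 ≤ t * (1 - t) := mul_nonneg h0 (by linarith)
  have b1 : (2 - t) / 3 * ex d z1 + (1 + t) / 3 * ex d z2 ≤
      (2 - t) / 3 * max 0 (ex d z1) + (1 + t) / 3 * max 0 (ex d z2) := by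
    have := le_max_right 0 (ex d z1)
    have := le_max_right 0 (ex d z2)
    nlinarith
  have b2 : t * (1 - t) * H * ((2 - t) / 3 * ex d z1 + (1 + t) / 3 * ex d z2) ≤
      t * (1 - t) * H * ((2 - t) / 3 * max 0 (ex d z1) + (1 + t) / 3 * max 0 (ex d z2)) :=
    mul_le_mul_of_nonneg_left b1 (mul_nonneg ht hH0)
  have hm1 : 0 ≤ max 0 (ex d z1) := le_max_left _ _
  have hm2 : 0 ≤ max 0 (ex d z2) := le_max_left _ _
  have b3 : t * (1 - t) * H * ((2 - t) / 3 * max 0 (ex d z1)) ≤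
      (1 - t) * (H / 3 * max 0 (ex d z1)) := by
    have e : t * (1 - t) * H * ((2 - t) / 3 * max 0 (ex d z1)) =
        (t * (2 - t)) * ((1 - t) * (H / 3 * max 0 (ex d z1))) := by ring
    rw [e]
    have : t * (2 - t) ≤ 1 := by nlinarith [sq_nonneg (t - 1)]
    have h5 : 0 ≤ (1 - t) * (H / 3 * max 0 (ex d z1)) :=
      mul_nonneg (by linarith) (by positivity)
    nlinarith
  have b4 : t * (1 - t) * H * ((1 + t) / 3 * max 0 (ex d z2)) ≤
      t * (H / 3 * max 0 (ex d z2)) := by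
    have e : t * (1 - t) * H * ((1 + t) / 3 * max 0 (ex d z2)) =
        ((1 - t) * (1 + t)) * (t * (H / 3 * max 0 (ex d z2))) := by ring
    rw [e]
    have : (1 - t) * (1 + t) ≤ 1 := by nlinarith [sq_nonneg t]
    have h5 : 0 ≤ t * (H / 3 * max 0 (ex d z2)) := mul_nonneg h0 (by positivity)
    nlinarith
  have e1 : t * (1 - t) * H * ((2 - t) / 3 * ex d z1 + (1 + t) / 3 * ex d z2) =
      (sumTU d.fr : ℝ) / 200 * (t * (1 - t) * H) -
        t * (1 - t) * H * ((2 - t) / 3 * mq d z1 + (1 + t) / 3 * mq d z2) := by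
    unfold ex; ring
  unfold pn qn
  unfold mq at e1
  nlinarith [a1, a2, b2, b3, b4, e1]

/-- grid inequality at `ζ = σ j / 50` -/
def GP (d : Dat) (j : ℤ) : Prop :=
  3 * (pn d ((j : ℝ) / 50) + 1 / 7500 * max 0 (ex d ((j : ℝ) / 50))) ≤
    10 ^ 8 * ((d.base : ℝ) + levS d.jp j)

theorem form_pos : ∀ (l : List Tm) (j : ℕ) (_ : ∀ t ∈ l, t.f.Ok ∧ t.s.Ok ((t.f.U : ℝ) / 500) j),
    SC * tn (l.map Tm.f) ((j : ℝ) / 50) ≤ evS l + odS l + 6 * j * sumT (l.map Tm.f)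
  | [], j, _ => by simp [tn, evS, odS, sumT]
  | t :: l, j, h => by
    obtain ⟨hf, hs⟩ := h t (by simp)
    have a := t.s.form _ j hs t.f.D t.f.E t.f.T hf.T0 hf.sq
    have b := form_pos l j (fun g hg => h g (by simp [hg]))
    have hS := SC_posR
    have e1 : (j : ℝ) * ((t.f.U : ℝ) / 500) = t.f.U / 10 * ((j : ℝ) / 50) := by ring
    rw [e1] at a
    have a2 := mul_le_mul_of_nonneg_left a hS.le
    have e2 : (SC : ℝ) * ((t.f.D * t.s.X + t.f.E * t.s.Y) / SC + t.f.T * (6 * j / SC)) =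
        t.f.D * t.s.X + t.f.E * t.s.Y + 6 * j * t.f.T := by
      field_simp
    rw [e2] at a2
    show SC * (t.f.val ((j : ℝ) / 50) + tn (l.map Tm.f) ((j : ℝ) / 50)) ≤
      ((t.f.D * t.s.X + evS l : ℤ) : ℝ) + ((t.f.E * t.s.Y + odS l : ℤ) : ℝ) +
        6 * j * ((t.f.T + sumT (l.map Tm.f) : ℤ) : ℝ)
    push_cast
    unfold Fr.val
    nlinarith [a2, b]

theorem form_neg : ∀ (l : List Tm) (j : ℕ) (_ : ∀ t ∈ l, t.f.Ok ∧ t.s.Ok ((t.f.U : ℝ) / 500) j),
    SC * tn (l.map Tm.f) (-(j : ℝ) / 50) ≤ evS l - odS l + 6 * j * sumT (l.map Tm.f)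
  | [], j, _ => by simp [tn, evS, odS, sumT]
  | t :: l, j, h => by
    obtain ⟨hf, hs⟩ := h t (by simp)
    have hsq : (t.f.D : ℝ) ^ 2 + (-(t.f.E : ℝ)) ^ 2 ≤ (t.f.T : ℝ) ^ 2 := by
      have := hf.sq; nlinarith
    have a := t.s.form _ j hs t.f.D (-t.f.E) t.f.T hf.T0 hsq
    have b := form_neg l j (fun g hg => h g (by simp [hg]))
    have hS := SC_posR
    have e1 : (j : ℝ) * ((t.f.U : ℝ) / 500) = t.f.U / 10 * ((j : ℝ) / 50) := by ring
    rw [e1] at a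
    have a2 := mul_le_mul_of_nonneg_left a hS.le
    have e2 : (SC : ℝ) * ((t.f.D * t.s.X + -t.f.E * t.s.Y) / SC + t.f.T * (6 * j / SC)) =
        t.f.D * t.s.X - t.f.E * t.s.Y + 6 * j * t.f.T := by
      field_simp
      ring
    rw [e2] at a2
    show SC * (t.f.val (-(j : ℝ) / 50) + tn (l.map Tm.f) (-(j : ℝ) / 50)) ≤
      ((t.f.D * t.s.X + evS l : ℤ) : ℝ) - ((t.f.E * t.s.Y + odS l : ℤ) : ℝ) +
        6 * j * ((t.f.T + sumT (l.map Tm.f) : ℤ) : ℝ)
    push_cast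
    unfold Fr.val
    have e3 : (t.f.U : ℝ) / 10 * (-(j : ℝ) / 50) = -(t.f.U / 10 * ((j : ℝ) / 50)) := by ring
    rw [e3, Real.cos_neg, Real.sin_neg]
    nlinarith [a2, b]

theorem SCv : (SC : ℝ) = 187500000000 := by unfold SC; norm_num

theorem chkP_sound (d : Dat) (l : List Tm) (hl : l.map Tm.f = d.fr) (j : ℕ) (ERR : ℤ)
    (hE : 6 * (j : ℤ) * sumT d.fr ≤ ERR)
    (h : ∀ t ∈ l, t.f.Ok ∧ t.s.Ok ((t.f.U : ℝ) / 500) j)
    (hc : chkP d ERR (125000 * sumTU d.fr) j (evS l) (odS l) = true) :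
    GP d j ∧ GP d (-j) := by
  unfold chkP at hc
  simp only [Bool.and_eq_true, decide_eq_true_eq] at hc
  obtain ⟨⟨⟨h1, h2⟩, h3⟩, h4⟩ := hc
  have hE' : (6 * (j : ℝ) * sumT d.fr) ≤ ERR := by exact_mod_cast hE
  have f1 := form_pos l j h
  have f2 := form_neg l j h
  rw [hl] at f1 f2
  have h1' := (Int.cast_le (R := ℝ)).mpr h1
  have h2' := (Int.cast_le (R := ℝ)).mpr h2
  have h3' := (Int.cast_le (R := ℝ)).mpr h3
  have h4' := (Int.cast_le (R := ℝ)).mpr h4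
  push_cast at h1' h2' h3' h4'
  rw [SCv] at f1 f2
  have ep : qn d ((j : ℝ) / 50) * 187500000000 =
      30000 * (d.A0 * 6250000 + d.A2 * 2500 * ((j : ℝ) * j) + d.A4 * ((j : ℝ) * j * (j * j))) +
      30000 * (d.A1 * 125000 * j + d.A3 * 50 * (j * j * j)) := by
    unfold qn; ring
  have em : qn d (-(j : ℝ) / 50) * 187500000000 =
      30000 * (d.A0 * 6250000 + d.A2 * 2500 * ((j : ℝ) * j) + d.A4 * ((j : ℝ) * j * (j * j))) -
      30000 * (d.A1 * 125000 * j + d.A3 * 50 * (j * j * j)) := by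
    unfold qn; ring
  have xp : ex d ((j : ℝ) / 50) * 25000000 =
      125000 * sumTU d.fr - 10000 * (2500 * d.A2 + 6 * d.A4 * ((j : ℝ) * j)) -
        1500000 * d.A3 * j := by
    unfold ex mq; ring
  have xm : ex d (-(j : ℝ) / 50) * 25000000 =
      125000 * sumTU d.fr - 10000 * (2500 * d.A2 + 6 * d.A4 * ((j : ℝ) * j)) +
        1500000 * d.A3 * j := by
    unfold ex mq; ring
  constructor
  · unfold GP
    push_cast
    unfold pn
    rcases le_total (ex d ((j : ℝ) / 50)) 0 with hx | hx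
    · rw [max_eq_left hx]
      linarith
    · rw [max_eq_right hx]
      linarith
  · unfold GP
    push_cast
    unfold pn
    rcases le_total (ex d (-(j : ℝ) / 50)) 0 with hx | hx
    · rw [max_eq_left hx]
      linarith
    · rw [max_eq_right hx]
      linarith

theorem nextL_map : ∀ (l : List Tm), (nextL l).map Tm.f = l.map Tm.f
  | [] => rfl
  | t :: l => by
    show t.next.f :: (nextL l).map Tm.f = t.f :: l.map Tm.f
    rw [nextL_map l]; rfl

theorem nextL_ok (j : ℕ) (hj : j ≤ 10 ^ 6) : ∀ (l : List Tm)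
    (_ : ∀ t ∈ l, t.f.Ok ∧ t.s.Ok ((t.f.U : ℝ) / 500) j),
    ∀ t ∈ nextL l, t.f.Ok ∧ t.s.Ok ((t.f.U : ℝ) / 500) (j + 1)
  | [], _ => by simp [nextL]
  | t :: l, h => by
    intro g hg
    rcases List.mem_cons.mp hg with rfl | hg
    · exact ⟨(h t (by simp)).1, t.s.next_ok _ j hj (h t (by simp)).2⟩
    · exact nextL_ok j hj l (fun a ha => h a (by simp [ha])) g hg

theorem initL_map : ∀ (l : List Fr), (initL l).map Tm.f = l
  | [] => rfl
  | f :: l => by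
    show f :: (initL l).map Tm.f = f :: l
    rw [initL_map l]

theorem initL_ok : ∀ (l : List Fr) (_ : ∀ f ∈ l, f.Ok),
    ∀ t ∈ initL l, t.f.Ok ∧ t.s.Ok ((t.f.U : ℝ) / 500) 0
  | [], _ => by simp [initL]
  | f :: l, h => by
    intro g hg
    rcases List.mem_cons.mp hg with rfl | hg
    · refine ⟨h f (by simp), ?_⟩
      have hf := h f (by simp)
      have := St.init_ok f.U 500 hf.1.le (by norm_num) (by have := hf.2.1; omega)
      simpa using this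
    · exact initL_ok l (fun a ha => h a (by simp [ha])) g hg

theorem loopP_sound (d : Dat) (ERR : ℤ) (J : ℕ) (hJ : J ≤ 1000)
    (hE : ERR = 6 * (J : ℤ) * sumT d.fr) (hT : 0 ≤ sumT d.fr) :
    ∀ (n j : ℕ) (l : List Tm), l.map Tm.f = d.fr → j + n ≤ J + 1 →
    (∀ t ∈ l, t.f.Ok ∧ t.s.Ok ((t.f.U : ℝ) / 500) j) →
    loopP d ERR (125000 * sumTU d.fr) n (j : ℤ) l = true →
    ∀ i : ℕ, j ≤ i → i < j + n → GP d i ∧ GP d (-i)
  | 0, j, l, _, _, _, _ => fun i h1 h2 => by omega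
  | n + 1, j, l, hl, hjn, hok, h => by
    intro i h1 h2
    simp only [loopP, Bool.and_eq_true] at h
    obtain ⟨hc, hr⟩ := h
    rcases Nat.eq_or_lt_of_le h1 with rfl | h3
    · refine chkP_sound d l hl j ERR ?_ hok hc
      rw [hE]
      have : (j : ℤ) ≤ J := by omega
      nlinarith
    · have := loopP_sound d ERR J hJ hE hT n (j + 1) (nextL l) (by rw [nextL_map, hl]) (by omega)
        (nextL_ok j (by omega) l hok) (by push_cast; exact hr) i (by omega) (by omega)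
      exact this

/-- jumps as a step function of the grid -/
theorem jn_lev (ζ : ℝ) (j : ℤ) (h1 : (j : ℝ) < 50 * ζ) (h2 : 50 * ζ ≤ j + 1) :
    ∀ l : List (ℤ × ℤ), jn l ζ = levS l (j + 1)
  | [] => by simp [jn, levS]
  | p :: l => by
    show (if (p.1 : ℝ) / 50 < ζ then (p.2 : ℝ) else 0) + jn l ζ =
      (((bif decide (p.1 < j + 1) then p.2 else 0) + levS l (j + 1) : ℤ) : ℝ)
    rw [jn_lev ζ j h1 h2 l]
    push_cast
    congr 1
    by_cases hp : p.1 < j + 1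
    · have : (p.1 : ℝ) / 50 < ζ := by
        have hp' : p.1 ≤ j := by omega
        have : (p.1 : ℝ) ≤ j := by exact_mod_cast hp'
        linarith
      rw [if_pos this]
      simp [hp]
    · have : ¬ (p.1 : ℝ) / 50 < ζ := by
        have hp' : j + 1 ≤ p.1 := by omega
        have : (j : ℝ) + 1 ≤ p.1 := by exact_mod_cast hp'
        linarith
      rw [if_neg this]
      simp [hp]

theorem chkJ_sound : ∀ (l : List (ℤ × ℤ)), chkJ l = true → ∀ p ∈ l, 0 ≤ p.2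
  | [], _ => by simp
  | p :: l, h => by
    simp only [chkJ, Bool.and_eq_true, decide_eq_true_eq] at h
    intro g hg
    rcases List.mem_cons.mp hg with rfl | hg
    · exact h.1
    · exact chkJ_sound l h.2 g hg

theorem levS_mono : ∀ (l : List (ℤ × ℤ)) (_ : ∀ p ∈ l, 0 ≤ p.2) (i j : ℤ) (_ : i ≤ j),
    levS l i ≤ levS l j
  | [], _, i, j, _ => le_rfl
  | p :: l, h, i, j, hij => by
    have h1 := h p (by simp)
    have h2 := levS_mono l (fun q hq => h q (by simp [hq])) i j hij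
    show (bif decide (p.1 < i) then p.2 else 0) + levS l i ≤
      (bif decide (p.1 < j) then p.2 else 0) + levS l j
    by_cases hi : p.1 < i
    · have hj : p.1 < j := by omega
      simp [hi, hj, h2]
    · by_cases hj : p.1 < j
      · simp [hi, hj]; omega
      · simp [hi, hj, h2]

theorem jn_nonneg : ∀ (l : List (ℤ × ℤ)) (_ : ∀ p ∈ l, 0 ≤ p.2) (ζ : ℝ), 0 ≤ jn l ζ
  | [], _, ζ => by simp [jn]
  | p :: l, h, ζ => by
    have h1 : (0 : ℝ) ≤ p.2 := by exact_mod_cast h p (by simp)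
    have h2 := jn_nonneg l (fun q hq => h q (by simp [hq])) ζ
    show 0 ≤ (if (p.1 : ℝ) / 50 < ζ then (p.2 : ℝ) else 0) + jn l ζ
    split_ifs <;> linarith

theorem jn_mono : ∀ (l : List (ℤ × ℤ)) (_ : ∀ p ∈ l, 0 ≤ p.2) (ζ ξ : ℝ) (_ : ζ ≤ ξ),
    jn l ζ ≤ jn l ξ
  | [], _, ζ, ξ, _ => by simp [jn]
  | p :: l, h, ζ, ξ, hz => by
    have h1 : (0 : ℝ) ≤ p.2 := by exact_mod_cast h p (by simp)
    have h2 := jn_mono l (fun q hq => h q (by simp [hq])) ζ ξ hz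
    show (if (p.1 : ℝ) / 50 < ζ then (p.2 : ℝ) else 0) + jn l ζ ≤
      (if (p.1 : ℝ) / 50 < ξ then (p.2 : ℝ) else 0) + jn l ξ
    by_cases hi : (p.1 : ℝ) / 50 < ζ
    · rw [if_pos hi, if_pos (lt_of_lt_of_le hi hz)]; linarith
    · rw [if_neg hi]
      split_ifs <;> linarith

/-- tail estimate for quartics -/
theorem quartic_tail (c0 c1 c2 c3 c4 Z x : ℝ) (hx : 0 ≤ x)
    (h1 : c1 + 2 * c2 * Z + 3 * c3 * Z ^ 2 + 4 * c4 * Z ^ 3 ≤ 0)
    (h2 : 2 * c2 + 6 * c3 * Z + 12 * c4 * Z ^ 2 ≤ 0) (h3 : c3 + 4 * c4 * Z ≤ 0) (h4 : c4 ≤ 0) :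
    c0 + c1 * (Z + x) + c2 * (Z + x) ^ 2 + c3 * (Z + x) ^ 3 + c4 * (Z + x) ^ 4 ≤
      c0 + c1 * Z + c2 * Z ^ 2 + c3 * Z ^ 3 + c4 * Z ^ 4 := by
  have e : c0 + c1 * (Z + x) + c2 * (Z + x) ^ 2 + c3 * (Z + x) ^ 3 + c4 * (Z + x) ^ 4 =
      c0 + c1 * Z + c2 * Z ^ 2 + c3 * Z ^ 3 + c4 * Z ^ 4 +
      (c1 + 2 * c2 * Z + 3 * c3 * Z ^ 2 + 4 * c4 * Z ^ 3) * x +
      (2 * c2 + 6 * c3 * Z + 12 * c4 * Z ^ 2) * (x ^ 2 / 2) + (c3 + 4 * c4 * Z) * x ^ 3 +
      c4 * x ^ 4 := by ring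
  rw [e]
  have a1 := mul_nonneg_of_nonpos_of_nonpos h1 (neg_nonpos.mpr hx)
  have a2 : (2 * c2 + 6 * c3 * Z + 12 * c4 * Z ^ 2) * (x ^ 2 / 2) ≤ 0 :=
    mul_nonpos_of_nonpos_of_nonneg h2 (by positivity)
  have a3 : (c3 + 4 * c4 * Z) * x ^ 3 ≤ 0 := mul_nonpos_of_nonpos_of_nonneg h3 (by positivity)
  have a4 : c4 * x ^ 4 ≤ 0 := mul_nonpos_of_nonpos_of_nonneg h4 (by positivity)
  linarith

/-- soundness of the pointwise check -/
theorem pn_le (d : Dat) (hF : ∀ f ∈ d.fr, f.Ok) (hJ : ∀ p ∈ d.jp, 0 ≤ p.2) (h4 : d.A4 ≤ 0)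
    (hJb : d.J ≤ 1000) (hJ0 : 0 < d.J)
    (hL : loopP d (6 * d.J * sumT d.fr) (125000 * sumTU d.fr) (d.J + 1) 0 (initL d.fr) = true)
    (hT : chkT d = true) (ζ : ℝ) :
    3 * pn d ζ ≤ 10 ^ 8 * ((d.base : ℝ) + jn d.jp ζ) := by
  have hgrid := loopP_sound d _ d.J hJb rfl (sumT_nonneg _ hF) (d.J + 1) 0 (initL d.fr)
    (initL_map _) (by omega) (initL_ok _ hF) (by simpa using hL)
  have hg : ∀ j : ℤ, -(d.J : ℤ) ≤ j → j ≤ d.J → GP d j := by
    intro j h1 h2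
    rcases le_total 0 j with h | h
    · have := (hgrid j.toNat (by omega) (by omega)).1
      rwa [Int.toNat_of_nonneg h] at this
    · have := (hgrid (-j).toNat (by omega) (by omega)).2
      rwa [Int.toNat_of_nonneg (by omega), neg_neg] at this
  unfold chkT at hT
  simp only [Bool.and_eq_true, decide_eq_true_eq] at hT
  obtain ⟨⟨⟨⟨⟨⟨⟨⟨t1, t2⟩, t3⟩, t4⟩, t5⟩, t6⟩, t7⟩, t8⟩, t9⟩ := hT
  have h4' : (d.A4 : ℝ) ≤ 0 := by exact_mod_cast h4
  have t1' := (Int.cast_le (R := ℝ)).mpr t1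
  have t3' := (Int.cast_le (R := ℝ)).mpr t3
  have t4' := (Int.cast_le (R := ℝ)).mpr t4
  have t5' := (Int.cast_le (R := ℝ)).mpr t5
  have t6' := (Int.cast_le (R := ℝ)).mpr t6
  have t7' := (Int.cast_le (R := ℝ)).mpr t7
  have t8' := (Int.cast_le (R := ℝ)).mpr t8
  have t9' := (Int.cast_le (R := ℝ)).mpr t9
  push_cast at t1' t3' t4' t5' t6' t7' t8' t9'
  rw [SCv] at t1' t3'
  have hJr : (0 : ℝ) < d.J := by exact_mod_cast hJ0
  set Z : ℝ := (d.J : ℝ) / 50 with hZ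
  rcases lt_or_ge Z ζ with hz | hz
  · -- right tail
    have h5 := quartic_tail d.A0 d.A1 d.A2 d.A3 d.A4 Z (ζ - Z) (by linarith)
      (by rw [hZ]; nlinarith [t4']) (by rw [hZ]; nlinarith [t6']) (by rw [hZ]; nlinarith [t8']) h4'
    rw [show Z + (ζ - Z) = ζ by ring] at h5
    have h6 := tn_le d.fr hF ζ
    have hj : (totS d.jp : ℝ) ≤ jn d.jp ζ := by
      rw [← t2]
      have hZ' := jn_lev Z (d.J - 1) (by rw [hZ]; push_cast; linarith)
        (by rw [hZ]; push_cast; linarith) d.jp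
      rw [show (d.J : ℤ) - 1 + 1 = d.J by ring] at hZ'
      rw [← hZ']
      exact jn_mono d.jp hJ Z ζ hz.le
    rw [t2] at t1'
    have h7 : 3 * (qn d Z + sumT d.fr) ≤ 10 ^ 8 * ((d.base : ℝ) + totS d.jp) := by
      unfold qn
      rw [hZ]
      nlinarith [t1']
    unfold pn
    have h8 : qn d ζ ≤ qn d Z := h5
    linarith
  · rcases lt_or_ge (-Z) ζ with hz2 | hz2
    · -- main range
      set j : ℤ := ⌈50 * ζ⌉ - 1 with hj
      have c1 : (j : ℝ) < 50 * ζ := by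
        rw [hj]; push_cast
        have := Int.ceil_lt_add_one (50 * ζ)
        linarith
      have c2 : 50 * ζ ≤ j + 1 := by
        rw [hj]; push_cast
        have := Int.le_ceil (50 * ζ)
        linarith
      have j1 : j + 1 ≤ d.J := by
        rw [hj]
        have : ⌈50 * ζ⌉ ≤ (d.J : ℤ) := by
          rw [Int.ceil_le]
          push_cast
          rw [hZ] at hz
          linarith
        linarith
      have j2 : -(d.J : ℤ) ≤ j := by
        have : -(d.J : ℤ) < ⌈50 * ζ⌉ := by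
          rw [Int.lt_ceil]
          push_cast
          rw [hZ] at hz2
          linarith
        rw [hj]; omega
      have g1 := hg j j2 (by omega)
      have g2 := hg (j + 1) (by omega) j1
      unfold GP at g1 g2
      set t : ℝ := 50 * ζ - j with ht
      have t0 : 0 ≤ t := by rw [ht]; linarith
      have t1 : t ≤ 1 := by rw [ht]; linarith
      have hzt : ζ = (1 - t) * ((j : ℝ) / 50) + t * (((j + 1 : ℤ) : ℝ) / 50) := by
        rw [ht]; push_cast; ring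
      have hch := pn_chord d hF h4 ((j : ℝ) / 50) (((j + 1 : ℤ) : ℝ) / 50) t t0 t1
      rw [← hzt] at hch
      have e7 : ((((j + 1 : ℤ) : ℝ) / 50) - (j : ℝ) / 50) ^ 2 / 3 = 1 / 7500 := by
        push_cast; ring
      rw [e7] at hch
      rw [jn_lev ζ j c1 c2 d.jp]
      have hm : (levS d.jp j : ℝ) ≤ levS d.jp (j + 1) := by
        exact_mod_cast levS_mono d.jp hJ j (j + 1) (by omega)
      have k1 : (1 - t) * (3 * (pn d ((j : ℝ) / 50) + 1 / 7500 * max 0 (ex d ((j : ℝ) / 50)))) ≤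
          (1 - t) * (10 ^ 8 * ((d.base : ℝ) + levS d.jp (j + 1))) := by
        refine mul_le_mul_of_nonneg_left (g1.trans ?_) (by linarith)
        linarith
      have k2 := mul_le_mul_of_nonneg_left g2 t0
      linarith
    · -- left tail
      have h5 := quartic_tail d.A0 (-d.A1) d.A2 (-d.A3) d.A4 Z (-ζ - Z) (by linarith)
        (by rw [hZ]; nlinarith [t5']) (by rw [hZ]; nlinarith [t7']) (by rw [hZ]; nlinarith [t9'])
        h4'
      rw [show Z + (-ζ - Z) = -ζ by ring] at h5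
      have h6 := tn_le d.fr hF ζ
      have h8 : qn d ζ ≤ qn d (-Z) := by
        unfold qn
        nlinarith [h5]
      have h7 : 3 * (qn d (-Z) + sumT d.fr) ≤ 10 ^ 8 * (d.base : ℝ) := by
        unfold qn
        rw [hZ]
        nlinarith [t3']
      have h9 := jn_nonneg d.jp hJ ζ
      unfold pn
      linarith

end Pool.Agent.H10.MK
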