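import Mathlib
import Pool.Agent.H10.MK.SndP

/-!
Soundness of the weight part of the checker: exponentials and interpolation.
-/

open Finset

namespace Pool.Agent.H10.MK

open Pool.Agent.H49.MK

theorem sqU_sound (P : ℤ) (e : ℝ) (he : 0 ≤ e) (h : SC * e ≤ P) : SC * (e * e) ≤ sqU P := by
  have hS := SC_posR
  have h1 := (fdiv_bd (P * P + 187499999999) SC SC_pos)
  have h1' := h1.2
  have h2 : ((P * P + 187499999999 : ℤ) : ℝ) = (P : ℝ) * P + SC - 1 := by
    rw [SCv]; push_cast; ring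
  -- integer argument
  have h3 : P * P ≤ sqU P * SC := by
    have := Int.lt_ediv_add_one_mul_self (P * P + 187499999999) SC_pos
    unfold sqU
    unfold SC at *
    omega
  have h4 : (P : ℝ) * P ≤ sqU P * SC := by exact_mod_cast h3
  have h5 : (SC * e) * (SC * e) ≤ (P : ℝ) * P :=
    mul_le_mul h h (by positivity) (le_trans (by positivity) h)
  have h6 : SC * (SC * (e * e)) ≤ SC * (sqU P : ℝ) := by linarith
  exact le_of_mul_le_mul_left h6 hS

theorem exp_neg_le (x : ℝ) (hx : 0 ≤ x) : Real.exp (-x) ≤ 1 - x + x ^ 2 / 2 := by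
  have h1 := Real.quadratic_le_exp_of_nonneg hx
  have h2 : 0 < 1 + x + x ^ 2 / 2 := by positivity
  rw [Real.exp_neg]
  have h3 : (Real.exp x)⁻¹ ≤ (1 + x + x ^ 2 / 2)⁻¹ := inv_anti₀ h2 h1
  refine h3.trans ?_
  rw [inv_le_iff_one_le_mul₀ h2]
  nlinarith [sq_nonneg (x ^ 2)]

theorem exS_sound (t : ℤ) (ht : 0 ≤ t) : SC * Real.exp (-((t : ℝ) / SC)) ≤ exS t := by
  have hS := SC_posR
  have ht' : (0 : ℝ) ≤ t := by exact_mod_cast ht
  have h1 := exp_neg_le ((t : ℝ) / SC) (by positivity)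
  have h2 : t * t ≤ (t * t + 374999999999) / 375000000000 * 375000000000 := by
    have := Int.lt_ediv_add_one_mul_self (t * t + 374999999999)
      (show (0 : ℤ) < 375000000000 by norm_num)
    omega
  have h3 : (t : ℝ) * t ≤ (((t * t + 374999999999) / 375000000000 : ℤ) : ℝ) * 375000000000 := by
    exact_mod_cast h2
  have h4 : SC * (1 - (t : ℝ) / SC + ((t : ℝ) / SC) ^ 2 / 2) = SC - t + (t * t) / (2 * SC) := by
    field_simp
  have h5 : ((t : ℝ) * t) / (2 * SC) ≤ (((t * t + 374999999999) / 375000000000 : ℤ) : ℝ) := by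
    rw [SCv, div_le_iff₀ (by norm_num)]
    linarith
  have h6 : ((exS t : ℤ) : ℝ) =
      SC - t + (((t * t + 374999999999) / 375000000000 : ℤ) : ℝ) := by
    unfold exS; push_cast; ring
  rw [h6]
  calc SC * Real.exp (-((t : ℝ) / SC)) ≤ SC * (1 - (t : ℝ) / SC + ((t : ℝ) / SC) ^ 2 / 2) :=
        mul_le_mul_of_nonneg_left h1 hS.le
    _ = SC - t + (t * t) / (2 * SC) := h4
    _ ≤ _ := by linarith

theorem expUp_sound (x : ℤ) (hx : -90000000000 ≤ x) :
    SC * Real.exp (-((x : ℝ) / SC)) ≤ expUp x := by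
  have hS := SC_posR
  unfold expUp
  by_cases h : 0 ≤ x
  · rw [show decide (0 ≤ x) = true by simp [h], cond_true]
    set t := x / 1024 with ht
    have ht0 : 0 ≤ t := by rw [ht]; positivity
    have htx : t * 1024 ≤ x := by rw [ht]; exact Int.ediv_mul_le x (by norm_num)
    have htx' : (t : ℝ) * 1024 ≤ x := by exact_mod_cast htx
    set e := Real.exp (-((t : ℝ) / SC)) with he
    have e0 : 0 ≤ e := (Real.exp_pos _).le
    have b0 := exS_sound t ht0
    have b1 := sqU_sound _ e e0 b0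
    have b2 := sqU_sound _ _ (by positivity) b1
    have b3 := sqU_sound _ _ (by positivity) b2
    have b4 := sqU_sound _ _ (by positivity) b3
    have b5 := sqU_sound _ _ (by positivity) b4
    have b6 := sqU_sound _ _ (by positivity) b5
    have b7 := sqU_sound _ _ (by positivity) b6
    have b8 := sqU_sound _ _ (by positivity) b7
    have b9 := sqU_sound _ _ (by positivity) b8
    have b10 := sqU_sound _ _ (by positivity) b9
    refine le_trans ?_ b10
    refine mul_le_mul_of_nonneg_left ?_ hS.le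
    have e10 : e ^ 1024 = Real.exp (-((t : ℝ) / SC) * 1024) := by
      rw [he, ← Real.exp_nat_mul]
      congr 1
      push_cast
      ring
    have : Real.exp (-((x : ℝ) / SC)) ≤ e ^ 1024 := by
      rw [e10, Real.exp_le_exp]
      have : (t : ℝ) / SC * 1024 ≤ x / SC := by
        rw [div_mul_eq_mul_div]
        exact div_le_div_of_nonneg_right htx' hS.le
      linarith
    refine this.trans (le_of_eq ?_)
    ring
  · rw [show decide (0 ≤ x) = false by simpa using h, cond_false]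
    push Not at h
    have hx' : (-90000000000 : ℝ) ≤ x := by exact_mod_cast hx
    have hx0 : (x : ℝ) < 0 := by exact_mod_cast h
    set y : ℝ := -((x : ℝ) / SC) with hy
    have hy0 : 0 ≤ y := by
      rw [hy]
      have : (x : ℝ) / SC ≤ 0 := div_nonpos_of_nonpos_of_nonneg hx0.le hS.le
      linarith
    have hy1 : y ≤ 1 / 2 := by
      rw [hy, SCv]
      have : -(1 / 2 : ℝ) ≤ (x : ℝ) / 187500000000 := by
        rw [le_div_iff₀ (by norm_num)]
        linarith
      linarith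
    have h1 : 1 - y ≤ Real.exp (-y) := by
      have := Real.add_one_le_exp (-y); linarith
    have h2 : Real.exp y ≤ 1 + 2 * y := by
      have h3 : Real.exp y * Real.exp (-y) = 1 := by rw [← Real.exp_add]; simp
      have h4 := Real.exp_pos y
      have h5 : Real.exp y * (1 - y) ≤ 1 := by
        have h8 := mul_le_mul_of_nonneg_left h1 h4.le
        linarith
      have h6 : Real.exp y ≤ 1 / (1 - y) := by
        rw [le_div_iff₀ (by linarith)]; exact h5
      refine h6.trans ?_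
      rw [div_le_iff₀ (by linarith)]
      nlinarith
    have h7 := mul_le_mul_of_nonneg_left h2 hS.le
    refine h7.trans (le_of_eq ?_)
    rw [hy]
    push_cast
    field_simp
    ring

/-- the quantity `lval` gives a lower bound -/
def Lok (q : ℝ) (i : ℕ) (t : Wm) : Prop :=
  (t.L : ℝ) / SC * ((i : ℝ) / 64) ^ 2 + 205994 * (t.f.U : ℝ) ^ 2 / SC ≤
    HH q ((t.f.U : ℝ) / 10 * ((i : ℝ) / 64))

theorem mx_eq (a b : ℤ) : mx a b = max a b := by
  unfold mx
  by_cases h : a ≤ b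
  · simp [h]
  · rw [max_eq_left (by omega)]; simp [h]

theorem mn_eq (a b : ℤ) : mn a b = min a b := by
  unfold mn
  by_cases h : a ≤ b
  · simp [h]
  · rw [min_eq_right (by omega)]; simp [h]

theorem lval_sound (qN U X : ℤ) (i : ℕ) (hi : 0 < i) (hq : 0 ≤ qN) (θ : ℝ)
    (hX : SC * Real.cos θ ≤ X + 6 * i) :
    (lval qN U X i : ℝ) / SC * ((i : ℝ) / 64) ^ 2 + 205994 * (U : ℝ) ^ 2 / SC ≤
      HH ((qN : ℝ) / 10 ^ 8) θ := by
  have hS := SC_posR
  have hi' : (0 : ℝ) < i := by exact_mod_cast hi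
  set c := mx 0 (SC - X - 6 * (i : ℤ)) with hc
  have hc0 : 0 ≤ c := by rw [hc, mx_eq]; exact le_max_left _ _
  have hc0' : (0 : ℝ) ≤ c := by exact_mod_cast hc0
  have hcr : (c : ℝ) ≤ SC * (1 - Real.cos θ) := by
    rw [hc, mx_eq]
    push_cast
    rw [max_le_iff]
    constructor
    · have := Real.cos_le_one θ
      nlinarith
    · linarith
  set a := qN * c / 100000000 with ha
  have ha0 : 0 ≤ a := by rw [ha]; positivity
  have ha0' : (0 : ℝ) ≤ a := by exact_mod_cast ha0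
  have har : (a : ℝ) ≤ (qN : ℝ) / 10 ^ 8 * c := by
    have := (fdiv_bd (qN * c) 100000000 (by norm_num)).1
    push_cast at this
    calc (a : ℝ) ≤ qN * c / 100000000 := this
      _ = _ := by ring
  set b := 4 * (a * a) / (3 * SC) with hb
  have hb0 : 0 ≤ b := by rw [hb]; have := SC_pos; positivity
  have hb0' : (0 : ℝ) ≤ b := by exact_mod_cast hb0
  have hbr : (b : ℝ) ≤ 4 / 3 * (a * a) / SC := by
    have := (fdiv_bd (4 * (a * a)) (3 * SC) (by have := SC_pos; positivity)).1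
    push_cast at this
    calc (b : ℝ) ≤ 4 * (a * a) / (3 * SC) := this
      _ = _ := by field_simp
  set H := c * (SC + a + b) / SC with hH
  have hHr : (H : ℝ) ≤ c * (SC + a + b) / SC := by
    have := (fdiv_bd (c * (SC + a + b)) SC SC_pos).1
    push_cast at this
    exact this
  have hL : lval qN U X i = (H - U * U * 205994) * 4096 / ((i : ℤ) * i) := rfl
  have hii : (0 : ℤ) < (i : ℤ) * i := by positivity
  have hLr := (fdiv_bd ((H - U * U * 205994) * 4096) ((i : ℤ) * i) hii).1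
  rw [← hL] at hLr
  push_cast at hLr
  set q : ℝ := (qN : ℝ) / 10 ^ 8 with hqd
  have hq0 : 0 ≤ q := by rw [hqd]; have : (0 : ℝ) ≤ qN := by exact_mod_cast hq
                         positivity
  set x : ℝ := (c : ℝ) / SC with hx
  have hx0 : 0 ≤ x := by positivity
  have hx1 : x ≤ 1 - Real.cos θ := by
    rw [hx, div_le_iff₀ hS]; linarith
  have hHx : (H : ℝ) ≤ SC * (x * (1 + q * x + 4 / 3 * (q * x) ^ 2)) := by
    refine hHr.trans ?_
    have e1 : SC * (x * (1 + q * x + 4 / 3 * (q * x) ^ 2)) =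
        c * (SC + q * c + 4 / 3 * ((q * c) * (q * c)) / SC) / SC := by
      rw [hx]; field_simp
    rw [e1]
    refine div_le_div_of_nonneg_right (mul_le_mul_of_nonneg_left ?_ hc0') hS.le
    have h1 : (a : ℝ) * a ≤ (q * c) * (q * c) := mul_le_mul har har ha0' (ha0'.trans har)
    have h2 : 4 / 3 * ((a : ℝ) * a) / SC ≤ 4 / 3 * ((q * c) * (q * c)) / SC :=
      div_le_div_of_nonneg_right (by linarith) hS.le
    linarith
  have hmono : x * (1 + q * x + 4 / 3 * (q * x) ^ 2) ≤ HH q θ := by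
    unfold HH
    have h1 : q * x ≤ q * (1 - Real.cos θ) := mul_le_mul_of_nonneg_left hx1 hq0
    have h2 : (q * x) ^ 2 ≤ (q * (1 - Real.cos θ)) ^ 2 := pow_le_pow_left₀ (by positivity) h1 2
    exact mul_le_mul hx1 (by linarith) (by positivity) (hx0.trans hx1)
  have hHH : (H : ℝ) ≤ SC * HH q θ :=
    hHx.trans (mul_le_mul_of_nonneg_left hmono hS.le)
  have h1 : (lval qN U X i : ℝ) * ((i : ℝ) / 64) ^ 2 ≤ H - U * U * 205994 := by
    have h2 : (lval qN U X i : ℝ) * (i * i) ≤ (H - U * U * 205994) * 4096 := by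
      rwa [le_div_iff₀ (by positivity)] at hLr
    have e : (lval qN U X i : ℝ) * ((i : ℝ) / 64) ^ 2 =
        (lval qN U X i : ℝ) * (i * i) / 4096 := by ring
    rw [e, div_le_iff₀ (by norm_num)]
    exact h2
  have h3 : ((lval qN U X i : ℝ) * ((i : ℝ) / 64) ^ 2 + 205994 * (U : ℝ) ^ 2) / SC ≤ HH q θ := by
    rw [div_le_iff₀ hS]
    nlinarith
  calc _ = ((lval qN U X i : ℝ) * ((i : ℝ) / 64) ^ 2 + 205994 * (U : ℝ) ^ 2) / SC := by ring
    _ ≤ _ := h3

/-- interpolation between two grid points -/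
theorem interp (q u l1 l2 t : ℝ) (i : ℕ) (hq : 159 / 1000 ≤ q) (hq2 : q ≤ 3 / 16)
    (h0 : 0 ≤ t) (h1 : t ≤ 1)
    (g1 : l1 * ((i : ℝ) / 64) ^ 2 + 9 / 20 * u ^ 2 / 4096 ≤ HH q (u * ((i : ℝ) / 64)))
    (g2 : l2 * (((i + 1 : ℕ) : ℝ) / 64) ^ 2 + 9 / 20 * u ^ 2 / 4096 ≤
      HH q (u * (((i + 1 : ℕ) : ℝ) / 64)))
    (hB : 0 ≤ min l1 l2 + 2 * ((i : ℝ) + 1) * min 0 (l2 - l1) + 32 / 25 * u ^ 2) :
    ((1 - t) * l1 + t * l2) * ((1 - t) * ((i : ℝ) / 64) + t * (((i + 1 : ℕ) : ℝ) / 64)) ^ 2 ≤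
      HH q (u * ((1 - t) * ((i : ℝ) / 64) + t * (((i + 1 : ℕ) : ℝ) / 64))) := by
  have hc := HH_chord q u ((i : ℝ) / 64) (((i + 1 : ℕ) : ℝ) / 64) t hq hq2 h0 h1
  refine le_trans ?_ hc
  have hi : (0 : ℝ) ≤ i := Nat.cast_nonneg i
  have e1 : (((i + 1 : ℕ) : ℝ) / 64 - (i : ℝ) / 64) ^ 2 = 1 / 4096 := by push_cast; ring
  rw [e1]
  have k1 := mul_le_mul_of_nonneg_left g1 (by linarith : (0 : ℝ) ≤ 1 - t)
  have k2 := mul_le_mul_of_nonneg_left g2 h0
  set lam := (1 - t) * l1 + t * l2 with hlam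
  have key : (1 - t) * (l1 * ((i : ℝ) / 64) ^ 2) + t * (l2 * (((i + 1 : ℕ) : ℝ) / 64) ^ 2) -
      lam * ((1 - t) * ((i : ℝ) / 64) + t * (((i + 1 : ℕ) : ℝ) / 64)) ^ 2 =
      t * (1 - t) / 4096 * (lam + (l2 - l1) * (2 * i + 1)) := by
    rw [hlam]; push_cast; ring
  have ht : 0 ≤ t * (1 - t) := mul_nonneg h0 (by linarith)
  have ht4 : t * (1 - t) ≤ 1 / 4 := by nlinarith [sq_nonneg (t - 1 / 2)]
  have hl : min l1 l2 ≤ lam := by
    rw [hlam]
    have := min_le_left l1 l2
    have := min_le_right l1 l2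
    nlinarith
  have hb : 2 * ((i : ℝ) + 1) * min 0 (l2 - l1) ≤ (l2 - l1) * (2 * i + 1) := by
    rcases le_total 0 (l2 - l1) with h | h
    · rw [min_eq_left h]
      have : 0 ≤ (l2 - l1) * (2 * i + 1) := mul_nonneg h (by linarith)
      linarith
    · rw [min_eq_right h]
      nlinarith
  have hsum : 0 ≤ lam + (l2 - l1) * (2 * i + 1) + 32 / 25 * u ^ 2 := by linarith
  have h5 : 0 ≤ t * (1 - t) / 4096 * (lam + (l2 - l1) * (2 * i + 1) + 32 / 25 * u ^ 2) :=
    mul_nonneg (by positivity) hsum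
  have h6 : t * (1 - t) / 4096 * (9 / 5 * u ^ 2) ≤ 9 / 20 * u ^ 2 / 4096 := by
    have : 0 ≤ u ^ 2 := sq_nonneg u
    nlinarith
  nlinarith [k1, k2, key, h5, h6]

end Pool.Agent.H10.MK
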