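import Mathlib
import Pool.Agent.H10.MK.SndW

/-!
Soundness of the weight part of the checker: the lists of frequencies and the main theorem.
-/

open Finset

namespace Pool.Agent.H10.MK

open Pool.Agent.H49.MK

/-- polynomial part of the weight -/
noncomputable def pw (d : Dat) (κ v y : ℝ) : ℝ :=
  d.A0 + d.A2 * v + d.A3 * ((1 - 2 * κ) * v * y) +
    d.A4 * (3 * v ^ 2 + (1 - 6 * (κ * (1 - κ))) * v * y ^ 2)

/-- exponential part of the weight -/
noncomputable def en (q v y : ℝ) : List Fr → ℝ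
  | [] => 0
  | f :: l => f.T * Real.exp (-(v * ef q (f.U / 10) y)) + en q v y l

/-- exponential part with grid values -/
noncomputable def eW (v : ℝ) : List Wm → ℝ
  | [] => 0
  | t :: l => t.f.T * Real.exp (-(v * ((t.L : ℝ) / SC))) + eW v l

/-- exponential part near the origin -/
noncomputable def e0 (i0 : ℤ) (v : ℝ) : List Fr → ℝ
  | [] => 0
  | f :: l => f.T * Real.exp (-(v * ((lval0 f.U i0 : ℝ) / SC))) + e0 i0 v l

/-- the weight (scaled by `10^8`) -/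
noncomputable def Wn (d : Dat) (κ v y : ℝ) : ℝ := pw d κ v y - en (κ * (1 - κ)) v y d.fr

theorem exp_chord_v (L a b s : ℝ) (h0 : 0 ≤ s) (h1 : s ≤ 1) :
    Real.exp (-(((1 - s) * a + s * b) * L)) ≤
      (1 - s) * Real.exp (-(a * L)) + s * Real.exp (-(b * L)) := by
  have := exp_chord (-(a * L)) (-(b * L)) s h0 h1
  have e : (1 - s) * -(a * L) + s * -(b * L) = -(((1 - s) * a + s * b) * L) := by ring
  rwa [e] at this

theorem eW_chord (a b s : ℝ) (h0 : 0 ≤ s) (h1 : s ≤ 1) :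
    ∀ (l : List Wm), (∀ t ∈ l, t.f.Ok) →
      eW ((1 - s) * a + s * b) l ≤ (1 - s) * eW a l + s * eW b l
  | [], _ => by simp [eW]
  | t :: l, h => by
    have hf := (h t (by simp)).T0
    have a1 := mul_le_mul_of_nonneg_left (exp_chord_v ((t.L : ℝ) / SC) a b s h0 h1) hf
    have a2 := eW_chord a b s h0 h1 l (fun g hg => h g (by simp [hg]))
    simp only [eW]
    linarith

theorem e0_chord (i0 : ℤ) (a b s : ℝ) (h0 : 0 ≤ s) (h1 : s ≤ 1) :
    ∀ (l : List Fr), (∀ f ∈ l, f.Ok) →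
      e0 i0 ((1 - s) * a + s * b) l ≤ (1 - s) * e0 i0 a l + s * e0 i0 b l
  | [], _ => by simp [e0]
  | f :: l, h => by
    have hf := (h f (by simp)).T0
    have a1 := mul_le_mul_of_nonneg_left (exp_chord_v ((lval0 f.U i0 : ℝ) / SC) a b s h0 h1) hf
    have a2 := e0_chord i0 a b s h0 h1 l (fun g hg => h g (by simp [hg]))
    simp only [e0]
    linarith

/-- invariant of the weight states -/
def InvW (q : ℝ) (i : ℕ) (t : Wm) : Prop :=
  t.f.Ok ∧ t.s.Ok ((t.f.U : ℝ) / 640) i ∧ (0 < i → Lok q i t)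

theorem nextW_map (qN i : ℤ) : ∀ (l : List Wm), (nextW qN i l).map Wm.f = l.map Wm.f
  | [] => rfl
  | t :: l => by
    show (t.next qN i).f :: (nextW qN i l).map Wm.f = t.f :: l.map Wm.f
    rw [nextW_map qN i l]; rfl

theorem next_inv (qN : ℤ) (hq : 0 ≤ qN) (i : ℕ) (hi : i ≤ 10 ^ 6) (t : Wm)
    (h : InvW ((qN : ℝ) / 10 ^ 8) i t) :
    InvW ((qN : ℝ) / 10 ^ 8) (i + 1) (t.next qN ((i + 1 : ℕ) : ℤ)) := by
  obtain ⟨h1, h2, -⟩ := h
  have h3 := t.s.next_ok _ i hi h2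
  refine ⟨h1, h3, fun _ => ?_⟩
  have h4 := t.s.next.cos_bd _ _ h3
  have e : ((i + 1 : ℕ) : ℝ) * ((t.f.U : ℝ) / 640) = (t.f.U : ℝ) / 10 * (((i + 1 : ℕ) : ℝ) / 64) := by
    ring
  rw [e] at h4
  exact lval_sound qN t.f.U t.s.next.X (i + 1) (Nat.succ_pos i) hq _ h4

theorem nextW_inv (qN : ℤ) (hq : 0 ≤ qN) (i : ℕ) (hi : i ≤ 10 ^ 6) : ∀ (l : List Wm)
    (_ : ∀ t ∈ l, InvW ((qN : ℝ) / 10 ^ 8) i t),
    ∀ t ∈ nextW qN ((i + 1 : ℕ) : ℤ) l, InvW ((qN : ℝ) / 10 ^ 8) (i + 1) t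
  | [], _ => by simp [nextW]
  | t :: l, h => by
    intro g hg
    rcases List.mem_cons.mp hg with rfl | hg
    · exact next_inv qN hq i hi t (h t (by simp))
    · exact nextW_inv qN hq i hi l (fun a ha => h a (by simp [ha])) g hg

theorem initW_map : ∀ (l : List Fr), (initW l).map Wm.f = l
  | [] => rfl
  | f :: l => by
    show f :: (initW l).map Wm.f = f :: l
    rw [initW_map l]

theorem initW_inv (q : ℝ) : ∀ (l : List Fr) (_ : ∀ f ∈ l, f.Ok),
    ∀ t ∈ initW l, InvW q 0 t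
  | [], _ => by simp [initW]
  | f :: l, h => by
    intro g hg
    rcases List.mem_cons.mp hg with rfl | hg
    · refine ⟨h f (by simp), ?_, fun h0 => absurd h0 (lt_irrefl 0)⟩
      have hf := h f (by simp)
      have := St.init_ok f.U 640 hf.1.le (by norm_num) (by have := hf.2.1; omega)
      simpa using this
    · exact initW_inv q l (fun a ha => h a (by simp [ha])) g hg

/-- the list of states at grid point `i` -/
def lst (qN : ℤ) (fr : List Fr) : ℕ → List Wm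
  | 0 => initW fr
  | i + 1 => nextW qN ((i + 1 : ℕ) : ℤ) (lst qN fr i)

theorem lst_map (qN : ℤ) (fr : List Fr) : ∀ i, (lst qN fr i).map Wm.f = fr
  | 0 => initW_map fr
  | i + 1 => by
    show (nextW qN ((i + 1 : ℕ) : ℤ) (lst qN fr i)).map Wm.f = fr
    rw [nextW_map, lst_map qN fr i]

theorem lst_inv (qN : ℤ) (hq : 0 ≤ qN) (fr : List Fr) (hF : ∀ f ∈ fr, f.Ok) :
    ∀ i, i ≤ 10 ^ 6 → ∀ t ∈ lst qN fr i, InvW ((qN : ℝ) / 10 ^ 8) i t
  | 0, _ => initW_inv _ fr hF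
  | i + 1, hi => nextW_inv qN hq i (by omega) _ (lst_inv qN hq fr hF i (by omega))

theorem runW_lst (qN : ℤ) (fr : List Fr) : ∀ (n i : ℕ),
    runW qN n (i : ℤ) (lst qN fr i) = lst qN fr (i + n)
  | 0, i => rfl
  | n + 1, i => by
    have := runW_lst qN fr n (i + 1)
    rw [show i + (n + 1) = i + 1 + n by ring, ← this]
    rfl

/-- what the main loop says at the grid point `i` -/
def GX (d : Dat) (K qN q1 : ℤ) (i : ℕ) : Prop :=
  chkL (lst qN d.fr i) = true ∧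
    chkG d K qN (mx d.V1 (q1 * (((i : ℤ) - 1) * ((i : ℤ) - 1)) / 40960000)) i (lst qN d.fr i) = true ∧
    chkG d K qN d.V2 i (lst qN d.fr i) = true ∧ chkB qN i (lst qN d.fr i) = true

theorem loopW_sound (d : Dat) (K qN q1 : ℤ) : ∀ (n i : ℕ),
    loopW d K qN q1 n (i : ℤ) (lst qN d.fr i) = true →
    ∀ j, i ≤ j → j < i + n → GX d K qN q1 j
  | 0, i, _ => fun j h1 h2 => by omega
  | n + 1, i, h => by
    intro j h1 h2
    simp only [loopW, Bool.and_eq_true] at h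
    obtain ⟨⟨⟨⟨a1, a2⟩, a3⟩, a4⟩, a5⟩ := h
    rcases Nat.eq_or_lt_of_le h1 with rfl | h3
    · exact ⟨a1, a2, a3, a4⟩
    · exact loopW_sound d K qN q1 n (i + 1) a5 j (by omega) (by omega)

theorem chkL_sound : ∀ (l : List Wm), chkL l = true → ∀ t ∈ l, -45000000000 ≤ t.L
  | [], _ => by simp
  | t :: l, h => by
    simp only [chkL, Bool.and_eq_true, decide_eq_true_eq] at h
    intro g hg
    rcases List.mem_cons.mp hg with rfl | hg
    · exact h.1
    · exact chkL_sound l h.2 g hg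

/-- bound for one exponential -/
theorem exp_term (V L : ℤ) (hV0 : 0 ≤ V) (hV : V ≤ 20000) (hL : -45000000000 ≤ L) :
    Real.exp (-((V : ℝ) / 10000 * ((L : ℝ) / SC))) ≤ (expUp (V * L / 10000) : ℝ) / SC := by
  have hS := SC_posR
  set x := V * L / 10000 with hx
  have hx1 : -90000000000 ≤ x := by
    rw [hx]
    have : -900000000000000 ≤ V * L := by nlinarith
    omega
  have h1 := expUp_sound x hx1
  have h2 := (fdiv_bd (V * L) 10000 (by norm_num)).1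
  push_cast at h2
  rw [le_div_iff₀ hS]
  have h3 : Real.exp (-((V : ℝ) / 10000 * ((L : ℝ) / SC))) ≤ Real.exp (-((x : ℝ) / SC)) := by
    rw [Real.exp_le_exp]
    have : (x : ℝ) / SC ≤ (V : ℝ) * L / 10000 / SC := div_le_div_of_nonneg_right h2 hS.le
    have e : (V : ℝ) * L / 10000 / SC = (V : ℝ) / 10000 * ((L : ℝ) / SC) := by ring
    linarith
  calc _ ≤ Real.exp (-((x : ℝ) / SC)) * SC := mul_le_mul_of_nonneg_right h3 hS.le
    _ = SC * Real.exp (-((x : ℝ) / SC)) := by ring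
    _ ≤ _ := h1

theorem wS_sound (V : ℤ) (hV0 : 0 ≤ V) (hV : V ≤ 20000) : ∀ (l : List Wm),
    (∀ t ∈ l, t.f.Ok) → (∀ t ∈ l, -45000000000 ≤ t.L) →
    SC * eW ((V : ℝ) / 10000) l ≤ wS l V
  | [], _, _ => by simp [eW, wS]
  | t :: l, h, h2 => by
    have hS := SC_posR
    have hf := (h t (by simp)).T0
    have a1 := exp_term V t.L hV0 hV (h2 t (by simp))
    rw [le_div_iff₀ hS] at a1
    have a2 := wS_sound V hV0 hV l (fun g hg => h g (by simp [hg])) (fun g hg => h2 g (by simp [hg]))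
    show SC * (t.f.T * Real.exp (-((V : ℝ) / 10000 * ((t.L : ℝ) / SC))) + eW ((V : ℝ) / 10000) l) ≤
      ((t.f.T * expUp (V * t.L / 10000) + wS l V : ℤ) : ℝ)
    push_cast
    have a3 := mul_le_mul_of_nonneg_left a1 hf
    linarith

theorem lval0_bd (U i0 : ℤ) (hU : 0 < U) (hi : 0 < i0) (h : U * i0 ≤ 640) : 0 ≤ lval0 U i0 := by
  unfold lval0
  have h1 : U * U * (U * U) * (i0 * i0) = (U * U) * ((U * i0) * (U * i0)) := by ring
  have h2 : (U * i0) * (U * i0) ≤ 640 * 640 :=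
    mul_le_mul h h (by positivity) (by norm_num)
  have h3 : 0 ≤ U * U * 8192000 - U * U * (U * U) * (i0 * i0) := by
    rw [h1]
    have : 0 ≤ U * U := by positivity
    nlinarith
  have := SC_pos
  exact Int.ediv_nonneg (by positivity) (by norm_num)

theorem wS0_sound (i0 V : ℤ) (hi0 : 0 < i0) (hV0 : 0 ≤ V) (hV : V ≤ 20000) : ∀ (l : List Fr),
    (∀ f ∈ l, f.Ok ∧ f.U * i0 ≤ 640) → SC * e0 i0 ((V : ℝ) / 10000) l ≤ wS0 i0 V l
  | [], _ => by simp [e0, wS0]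
  | f :: l, h => by
    have hS := SC_posR
    obtain ⟨h1, h2⟩ := h f (by simp)
    have hf := h1.T0
    have h3 := lval0_bd f.U i0 h1.1 hi0 h2
    have a1 := exp_term V (lval0 f.U i0) hV0 hV (by omega)
    rw [le_div_iff₀ hS] at a1
    have a2 := wS0_sound i0 V hi0 hV0 hV l (fun g hg => h g (by simp [hg]))
    show SC * (f.T * Real.exp (-((V : ℝ) / 10000 * ((lval0 f.U i0 : ℝ) / SC))) +
      e0 i0 ((V : ℝ) / 10000) l) ≤ ((f.T * expUp (V * lval0 f.U i0 / 10000) + wS0 i0 V l : ℤ) : ℝ)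
    push_cast
    have a3 := mul_le_mul_of_nonneg_left a1 hf
    linarith

/-- the target -/
noncomputable def tg (d : Dat) (κ : ℝ) : ℝ := 1000 + d.kf * (κ * 100000000)

theorem wP_real (d : Dat) (K V i : ℤ) :
    (wP d K (K * (10000 - K)) V i : ℝ) =
      12288000000000000 * pw d ((K : ℝ) / 10000) ((V : ℝ) / 10000) ((i : ℝ) / 64) := by
  unfold wP pw
  push_cast
  ring

theorem chkG_sound (d : Dat) (K V : ℤ) (hV0 : 0 ≤ V) (hV : V ≤ 20000) (i : ℕ) (l : List Wm)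
    (hok : ∀ t ∈ l, t.f.Ok) (hL : ∀ t ∈ l, -45000000000 ≤ t.L)
    (h : chkG d K (K * (10000 - K)) V i l = true) :
    ((i : ℤ) ≤ d.NP → tg d ((K : ℝ) / 10000) - d.A4 * ((d.V2 : ℝ) / 10000) / 131072 ≤
      pw d ((K : ℝ) / 10000) ((V : ℝ) / 10000) ((i : ℝ) / 64) - eW ((V : ℝ) / 10000) l) ∧
    ((i : ℤ) ≤ d.NN → tg d ((K : ℝ) / 10000) - d.A4 * ((d.V2 : ℝ) / 10000) / 131072 ≤
      pw d ((K : ℝ) / 10000) ((V : ℝ) / 10000) (-((i : ℝ) / 64)) - eW ((V : ℝ) / 10000) l) := by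
  have hw := wS_sound V hV0 hV l hok hL
  rw [SCv] at hw
  unfold chkG tgt at h
  simp only [Bool.and_eq_true, Bool.or_eq_true, decide_eq_true_eq] at h
  obtain ⟨h1, h2⟩ := h
  constructor
  · intro hi
    rcases h1 with h1 | h1
    · omega
    have h1' := (Int.cast_le (R := ℝ)).mpr h1
    rw [wP_real] at h1'
    push_cast at h1'
    unfold tg
    linarith
  · intro hi
    rcases h2 with h2 | h2
    · omega
    have h2' := (Int.cast_le (R := ℝ)).mpr h2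
    rw [wP_real] at h2'
    push_cast at h2'
    unfold tg
    have e : -(i : ℝ) / 64 = -((i : ℝ) / 64) := by ring
    rw [e] at h2'
    linarith

theorem chk0_sound (d : Dat) (K V : ℤ) (hi0 : 0 < d.i0) (hV0 : 0 ≤ V) (hV : V ≤ 20000)
    (hok : ∀ f ∈ d.fr, f.Ok ∧ f.U * d.i0 ≤ 640)
    (h : chk0 d K (K * (10000 - K)) V = true) :
    ∀ σ : ℝ, σ = 0 ∨ σ = 1 ∨ σ = -1 →
      tg d ((K : ℝ) / 10000) - d.A4 * ((d.V2 : ℝ) / 10000) / 131072 * (d.i0 : ℝ) ^ 2 ≤
      pw d ((K : ℝ) / 10000) ((V : ℝ) / 10000) (σ * ((d.i0 : ℝ) / 64)) -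
        e0 d.i0 ((V : ℝ) / 10000) d.fr := by
  have hw := wS0_sound d.i0 V (by exact_mod_cast hi0) hV0 hV d.fr hok
  rw [SCv] at hw
  unfold chk0 tgt at h
  simp only [Bool.and_eq_true, decide_eq_true_eq] at h
  obtain ⟨⟨h1, h2⟩, h3⟩ := h
  have h1' := (Int.cast_le (R := ℝ)).mpr h1
  have h2' := (Int.cast_le (R := ℝ)).mpr h2
  have h3' := (Int.cast_le (R := ℝ)).mpr h3
  rw [wP_real] at h1' h2' h3'
  push_cast at h1' h2' h3'
  unfold tg
  intro σ hσ
  rcases hσ with rfl | rfl | rfl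
  · rw [zero_div] at h1'
    rw [zero_mul]
    nlinarith [h1', hw]
  · rw [one_mul]
    nlinarith [h2', hw]
  · have e : -(d.i0 : ℝ) / 64 = -1 * ((d.i0 : ℝ) / 64) := by ring
    rw [e] at h3'
    nlinarith [h3', hw]

/-- concavity of the polynomial part in `v` -/
theorem pw_v (d : Dat) (h4 : (d.A4 : ℝ) ≤ 0) (κ a b y s : ℝ) (h0 : 0 ≤ s) (h1 : s ≤ 1) :
    (1 - s) * pw d κ a y + s * pw d κ b y ≤ pw d κ ((1 - s) * a + s * b) y := by
  have key : pw d κ ((1 - s) * a + s * b) y - ((1 - s) * pw d κ a y + s * pw d κ b y) =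
      -(d.A4 : ℝ) * (3 * (s * (1 - s) * (a - b) ^ 2)) := by
    unfold pw; ring
  have : 0 ≤ -(d.A4 : ℝ) * (3 * (s * (1 - s) * (a - b) ^ 2)) :=
    mul_nonneg (by linarith) (mul_nonneg (by norm_num)
      (mul_nonneg (mul_nonneg h0 (by linarith)) (sq_nonneg _)))
  linarith

/-- near concavity of the polynomial part in `y` -/
theorem pw_y (d : Dat) (h4 : (d.A4 : ℝ) ≤ 0) (κ v y1 y2 t V : ℝ) (hκ : κ * (1 - κ) ≤ 3 / 16)
    (h0 : 0 ≤ t) (h1 : t ≤ 1) (hv : 0 ≤ v) (hvV : v ≤ V) :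
    (1 - t) * pw d κ v y1 + t * pw d κ v y2 + d.A4 * V * (y2 - y1) ^ 2 / 32 ≤
      pw d κ v ((1 - t) * y1 + t * y2) := by
  have key : pw d κ v ((1 - t) * y1 + t * y2) - ((1 - t) * pw d κ v y1 + t * pw d κ v y2) =
      -(d.A4 : ℝ) * (1 - 6 * (κ * (1 - κ))) * (v * (t * (1 - t)) * (y2 - y1) ^ 2) := by
    unfold pw; ring
  have ht : 0 ≤ t * (1 - t) := mul_nonneg h0 (by linarith)
  have ht4 : t * (1 - t) ≤ 1 / 4 := by nlinarith [sq_nonneg (t - 1 / 2)]
  have hy : 0 ≤ (y2 - y1) ^ 2 := sq_nonneg _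
  set Y := (y2 - y1) ^ 2
  have ha : 0 ≤ -(d.A4 : ℝ) := by linarith
  have h5 : 0 ≤ v * (t * (1 - t)) * Y := by positivity
  have h6 : v * (t * (1 - t)) * Y ≤ V * (1 / 4) * Y := by
    refine mul_le_mul_of_nonneg_right ?_ hy
    exact mul_le_mul hvV ht4 ht (hv.trans hvV)
  have h7 : -(1 / 8) * (v * (t * (1 - t)) * Y) ≤
      (1 - 6 * (κ * (1 - κ))) * (v * (t * (1 - t)) * Y) :=
    mul_le_mul_of_nonneg_right (by linarith) h5
  have h8 : -(1 / 8) * (V * (1 / 4) * Y) ≤ (1 - 6 * (κ * (1 - κ))) * (v * (t * (1 - t)) * Y) := by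
    linarith
  have h9 := mul_le_mul_of_nonneg_left h8 ha
  nlinarith

/-- concavity in the density of the polynomial part -/
theorem pw_k (d : Dat) (h4 : (d.A4 : ℝ) ≤ 0) (k1 k2 r v y : ℝ) (h0 : 0 ≤ r) (h1 : r ≤ 1)
    (hv : 0 ≤ v) :
    (1 - r) * pw d k1 v y + r * pw d k2 v y ≤ pw d ((1 - r) * k1 + r * k2) v y := by
  have key : pw d ((1 - r) * k1 + r * k2) v y - ((1 - r) * pw d k1 v y + r * pw d k2 v y) =
      -(d.A4 : ℝ) * (6 * (r * (1 - r) * (k1 - k2) ^ 2) * (v * y ^ 2)) := by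
    unfold pw; ring
  have : 0 ≤ -(d.A4 : ℝ) * (6 * (r * (1 - r) * (k1 - k2) ^ 2) * (v * y ^ 2)) :=
    mul_nonneg (by linarith) (mul_nonneg (mul_nonneg (by norm_num)
      (mul_nonneg (mul_nonneg h0 (by linarith)) (sq_nonneg _))) (mul_nonneg hv (sq_nonneg _)))
  linarith

/-- concavity in the density of the exponential part -/
theorem en_k (k1 k2 r v y : ℝ) (hk1 : 1999 / 10000 ≤ k1) (hk2 : 1999 / 10000 ≤ k2)
    (hk1' : k1 ≤ 1 / 4) (hk2' : k2 ≤ 1 / 4) (h0 : 0 ≤ r) (h1 : r ≤ 1) (hv : 0 ≤ v) :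
    ∀ l : List Fr, (∀ f ∈ l, f.Ok) →
    en (((1 - r) * k1 + r * k2) * (1 - ((1 - r) * k1 + r * k2))) v y l ≤
      (1 - r) * en (k1 * (1 - k1)) v y l + r * en (k2 * (1 - k2)) v y l
  | [], _ => by simp [en]
  | f :: l, h => by
    have hf := (h f (by simp)).T0
    have a2 := en_k k1 k2 r v y hk1 hk2 hk1' hk2' h0 h1 hv l (fun g hg => h g (by simp [hg]))
    have hH := HH_kappa k1 k2 r ((f.U : ℝ) / 10 * y) hk1 hk2 hk1' hk2' h0 h1
    have hef : (1 - r) * ef (k1 * (1 - k1)) (f.U / 10) y + r * ef (k2 * (1 - k2)) (f.U / 10) y ≤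
        ef (((1 - r) * k1 + r * k2) * (1 - ((1 - r) * k1 + r * k2))) (f.U / 10) y := by
      rw [ef_eq, ef_eq, ef_eq, mul_div_assoc', mul_div_assoc', ← add_div]
      exact div_le_div_of_nonneg_right hH (sq_nonneg y)
    have a3 : Real.exp (-(v * ef (((1 - r) * k1 + r * k2) * (1 - ((1 - r) * k1 + r * k2)))
        (f.U / 10) y)) ≤ (1 - r) * Real.exp (-(v * ef (k1 * (1 - k1)) (f.U / 10) y)) +
          r * Real.exp (-(v * ef (k2 * (1 - k2)) (f.U / 10) y)) := by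
      refine le_trans ?_ (exp_chord _ _ r h0 h1)
      rw [Real.exp_le_exp]
      have := mul_le_mul_of_nonneg_left hef hv
      linarith
    have a4 := mul_le_mul_of_nonneg_left a3 hf
    simp only [en]
    linarith

/-- near the origin -/
theorem en_0 (q v y : ℝ) (i0 : ℕ) (hi0 : 0 < i0) (hq : 159 / 1000 ≤ q) (hv : 0 ≤ v) (hy : y ≠ 0)
    (hy2 : |y| ≤ (i0 : ℝ) / 64) :
    ∀ l : List Fr, (∀ f ∈ l, f.Ok ∧ f.U * (i0 : ℤ) ≤ 640) → en q v y l ≤ e0 i0 v l
  | [], _ => by simp [en, e0]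
  | f :: l, h => by
    obtain ⟨h1, h2⟩ := h f (by simp)
    have hf := h1.T0
    have hS := SC_posR
    have a2 := en_0 q v y i0 hi0 hq hv hy hy2 l (fun g hg => h g (by simp [hg]))
    have hU : (0 : ℝ) < f.U := by exact_mod_cast h1.1
    have h2' : (f.U : ℝ) * i0 ≤ 640 := by exact_mod_cast h2
    have habs : |(f.U : ℝ) / 10 * y| ≤ (f.U : ℝ) * i0 / 640 := by
      rw [abs_mul, abs_of_pos (by positivity : (0 : ℝ) < (f.U : ℝ) / 10)]
      have := mul_le_mul_of_nonneg_left hy2 (by positivity : (0 : ℝ) ≤ (f.U : ℝ) / 10)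
      linarith
    have hθ : |(f.U : ℝ) / 10 * y| ≤ 1 := habs.trans (by linarith)
    have hH := HH_small q ((f.U : ℝ) / 10 * y) hq hθ
    have hsq : ((f.U : ℝ) / 10 * y) ^ 2 ≤ ((f.U : ℝ) * i0 / 640) ^ 2 := by
      rw [← sq_abs ((f.U : ℝ) / 10 * y)]
      exact pow_le_pow_left₀ (abs_nonneg _) habs 2
    have hy2' : 0 < y ^ 2 := by positivity
    have hl0 := (fdiv_bd (SC * (f.U * f.U * 8192000 - f.U * f.U * (f.U * f.U) *
      ((i0 : ℤ) * (i0 : ℤ)))) 1638400000 (by norm_num)).1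
    change (lval0 f.U i0 : ℝ) ≤ _ at hl0
    push_cast at hl0
    have hl1 : (lval0 f.U i0 : ℝ) / SC ≤ ((f.U : ℝ) / 10) ^ 2 *
        (1 / 2 - ((f.U : ℝ) * i0 / 640) ^ 2 / 40) := by
      rw [div_le_iff₀ hS]
      refine hl0.trans (le_of_eq ?_)
      ring
    have hef : (lval0 f.U i0 : ℝ) / SC ≤ ef q (f.U / 10) y := by
      rw [ef_eq, le_div_iff₀ hy2']
      refine le_trans ?_ hH
      have e : ((f.U : ℝ) / 10 * y) ^ 2 * (1 / 2 - ((f.U : ℝ) / 10 * y) ^ 2 / 40) =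
          ((f.U : ℝ) / 10) ^ 2 * (1 / 2 - ((f.U : ℝ) / 10 * y) ^ 2 / 40) * y ^ 2 := by ring
      rw [e]
      refine mul_le_mul_of_nonneg_right ?_ hy2'.le
      refine hl1.trans ?_
      exact mul_le_mul_of_nonneg_left (by linarith) (sq_nonneg _)
    have a3 : Real.exp (-(v * ef q (f.U / 10) y)) ≤
        Real.exp (-(v * ((lval0 f.U i0 : ℝ) / SC))) := by
      rw [Real.exp_le_exp]
      have := mul_le_mul_of_nonneg_left hef hv
      linarith
    have a4 := mul_le_mul_of_nonneg_left a3 hf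
    simp only [en, e0]
    linarith

/-- between two grid points -/
theorem en_piece (qN : ℤ) (hq : 159 / 1000 ≤ (qN : ℝ) / 10 ^ 8) (hq2 : (qN : ℝ) / 10 ^ 8 ≤ 3 / 16)
    (i : ℕ) (hi : 0 < i) (hi6 : i ≤ 10 ^ 6) (v t σ : ℝ) (hv : 0 ≤ v) (h0 : 0 ≤ t) (h1 : t ≤ 1)
    (hσ : σ = 1 ∨ σ = -1) :
    ∀ l : List Wm, (∀ w ∈ l, InvW ((qN : ℝ) / 10 ^ 8) i w) → chkB qN (i : ℤ) l = true →
    en ((qN : ℝ) / 10 ^ 8) v
      (σ * ((1 - t) * ((i : ℝ) / 64) + t * (((i + 1 : ℕ) : ℝ) / 64))) (l.map Wm.f) ≤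
      (1 - t) * eW v l + t * eW v (nextW qN ((i + 1 : ℕ) : ℤ) l)
  | [], _, _ => by simp [en, eW, nextW]
  | w :: l, h, hB => by
    have hS := SC_posR
    have hinv := h w (by simp)
    have hqN : 0 ≤ qN := by
      have : (0 : ℝ) ≤ qN := by linarith
      exact_mod_cast this
    have hinv' := next_inv qN hqN i hi6 w hinv
    obtain ⟨hok, -, hL⟩ := hinv
    obtain ⟨-, -, hL'⟩ := hinv'
    have hL := hL hi
    have hL' := hL' (Nat.succ_pos i)
    unfold Lok at hL hL'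
    simp only [chkB, Bool.and_eq_true, decide_eq_true_eq] at hB
    obtain ⟨hB1, hB2⟩ := hB
    have a2 := en_piece qN hq hq2 i hi hi6 v t σ hv h0 h1 hσ l (fun g hg => h g (by simp [hg])) hB2
    have hf := hok.T0
    set w' := w.next qN ((i + 1 : ℕ) : ℤ) with hw'
    have hw'f : w'.f = w.f := rfl
    rw [hw'f] at hL'
    set q := (qN : ℝ) / 10 ^ 8
    set Y := (1 - t) * ((i : ℝ) / 64) + t * (((i + 1 : ℕ) : ℝ) / 64) with hY
    have hY0 : 0 < Y := by
      have hi' : (1 : ℝ) ≤ i := by exact_mod_cast hi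
      have : Y = (i + t) / 64 := by rw [hY]; push_cast; ring
      rw [this]; positivity
    have hdel : 9 / 20 * ((w.f.U : ℝ) / 10) ^ 2 / 4096 ≤ 205994 * (w.f.U : ℝ) ^ 2 / SC := by
      rw [SCv, div_le_div_iff₀ (by norm_num) (by norm_num)]
      nlinarith [sq_nonneg (w.f.U : ℝ)]
    have hB3 : 0 ≤ min ((w.L : ℝ) / SC) ((w'.L : ℝ) / SC) +
        2 * ((i : ℝ) + 1) * min 0 ((w'.L : ℝ) / SC - (w.L : ℝ) / SC) +
        32 / 25 * ((w.f.U : ℝ) / 10) ^ 2 := by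
      rw [mn_eq, mn_eq] at hB1
      have hc : ((i : ℤ) + 1) = ((i + 1 : ℕ) : ℤ) := by push_cast; ring
      rw [hc, ← hw'] at hB1
      have hB1' := (Int.cast_le (R := ℝ)).mpr hB1
      push_cast at hB1'
      have m1 : min ((w.L : ℝ) / SC) ((w'.L : ℝ) / SC) = min (w.L : ℝ) w'.L / SC := by
        rw [min_div_div_right hS.le]
      have m2 : min 0 ((w'.L : ℝ) / SC - (w.L : ℝ) / SC) = min 0 ((w'.L : ℝ) - w.L) / SC := by
        rw [← sub_div, ← min_div_div_right hS.le, zero_div]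
      rw [m1, m2]
      have e : min (w.L : ℝ) w'.L / SC + 2 * ((i : ℝ) + 1) * (min 0 ((w'.L : ℝ) - w.L) / SC) +
          32 / 25 * ((w.f.U : ℝ) / 10) ^ 2 =
          (min (w.L : ℝ) w'.L + 2 * ((i : ℝ) + 1) * min 0 ((w'.L : ℝ) - w.L) +
            w.f.U * w.f.U * 2400000000) / SC := by
        rw [SCv]; ring
      rw [e]
      exact div_nonneg hB1' hS.le
    have hint := interp q ((w.f.U : ℝ) / 10) ((w.L : ℝ) / SC) ((w'.L : ℝ) / SC) t i hq hq2 h0 h1
      (by linarith) (by linarith) hB3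
    rw [← hY] at hint
    have hcos : HH q ((w.f.U : ℝ) / 10 * (σ * Y)) = HH q ((w.f.U : ℝ) / 10 * Y) := by
      rcases hσ with rfl | rfl
      · rw [one_mul]
      · unfold HH
        rw [show (w.f.U : ℝ) / 10 * (-1 * Y) = -((w.f.U : ℝ) / 10 * Y) by ring, Real.cos_neg]
    have hsq : (σ * Y) ^ 2 = Y ^ 2 := by
      rcases hσ with rfl | rfl <;> ring
    have hef : (1 - t) * ((w.L : ℝ) / SC) + t * ((w'.L : ℝ) / SC) ≤ ef q (w.f.U / 10) (σ * Y) := by
      rw [ef_eq, hcos, hsq, le_div_iff₀ (by positivity)]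
      exact hint
    have a3 : Real.exp (-(v * ef q (w.f.U / 10) (σ * Y))) ≤
        (1 - t) * Real.exp (-(v * ((w.L : ℝ) / SC))) +
          t * Real.exp (-(v * ((w'.L : ℝ) / SC))) := by
      refine le_trans ?_ (exp_chord _ _ t h0 h1)
      rw [Real.exp_le_exp]
      have := mul_le_mul_of_nonneg_left hef hv
      linarith
    have a4 := mul_le_mul_of_nonneg_left a3 hf
    show (w.f.T : ℝ) * Real.exp (-(v * ef q (w.f.U / 10) (σ * Y))) +
        en q v (σ * Y) (l.map Wm.f) ≤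
      (1 - t) * (w.f.T * Real.exp (-(v * ((w.L : ℝ) / SC))) + eW v l) +
      t * (w'.f.T * Real.exp (-(v * ((w'.L : ℝ) / SC))) + eW v (nextW qN ((i + 1 : ℕ) : ℤ) l))
    rw [hw'f]
    linarith

end Pool.Agent.H10.MK
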