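import Mathlib
import Pool.Agent.H10.MK.SndX

/-!
Soundness of the complete checker, in normalised units.
-/

open Finset

namespace Pool.Agent.H10.MK

open Pool.Agent.H49.MK

/-- chord representation of a point of an interval -/
theorem chord_rep (a b x : ℝ) (h1 : a ≤ x) (h2 : x ≤ b) :
    ∃ s : ℝ, 0 ≤ s ∧ s ≤ 1 ∧ x = (1 - s) * a + s * b := by
  rcases eq_or_lt_of_le (h1.trans h2) with hab | hab
  · exact ⟨0, le_rfl, zero_le_one, by linarith⟩
  · have hb : 0 < b - a := by linarith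
    refine ⟨(x - a) / (b - a), div_nonneg (by linarith) hb.le, ?_, ?_⟩
    · rw [div_le_one hb]; linarith
    · field_simp; ring

theorem qK_bounds (K : ℤ) (h1 : 1999 ≤ K) (h2 : K ≤ 2500) :
    159 / 1000 ≤ ((K * (10000 - K) : ℤ) : ℝ) / 10 ^ 8 ∧
      ((K * (10000 - K) : ℤ) : ℝ) / 10 ^ 8 ≤ 3 / 16 := by
  have h1' : (1999 : ℝ) ≤ K := by exact_mod_cast h1
  have h2' : (K : ℝ) ≤ 2500 := by exact_mod_cast h2
  push_cast
  constructor
  · rw [le_div_iff₀ (by norm_num)]; nlinarith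
  · rw [div_le_iff₀ (by norm_num)]; nlinarith

theorem qK_eq (K : ℤ) : ((K * (10000 - K) : ℤ) : ℝ) / 10 ^ 8 = (K : ℝ) / 10000 * (1 - (K : ℝ) / 10000) := by
  push_cast; ring

/-- weight bound for one of the two densities -/
theorem Wn_corner (d : Dat) (hF : ∀ f ∈ d.fr, f.Ok ∧ f.U * (d.i0 : ℤ) ≤ 640) (h4 : d.A4 ≤ 0)
    (hK1 : 1999 ≤ d.K1) (hK2 : d.K1 ≤ 2500) (hV1 : 0 < d.V1) (hV12 : d.V1 ≤ d.V2)
    (hV2 : d.V2 ≤ 20000) (hi0 : 0 < d.i0) (hNP : d.NP ≤ 1000) (hNN : d.NN ≤ 1000)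
    (K : ℤ) (hKa : d.K1 ≤ K) (hKb : K ≤ 2500) (hc : chkK d K = true) (v y : ℝ)
    (hv1 : (d.V1 : ℝ) / 10000 ≤ v) (hv2 : v ≤ (d.V2 : ℝ) / 10000) (hy : y ≠ 0)
    (hqy : (d.K1 : ℝ) / 10000 * (1 - (d.K1 : ℝ) / 10000) * y ^ 2 ≤ v)
    (hyp : 0 < y → 64 * y ≤ d.NP) (hyn : y < 0 → -(64 * y) ≤ d.NN) :
    tg d ((K : ℝ) / 10000) ≤ Wn d ((K : ℝ) / 10000) v y := by
  have h4' : (d.A4 : ℝ) ≤ 0 := by exact_mod_cast h4
  have hFo : ∀ f ∈ d.fr, f.Ok := fun f hf => (hF f hf).1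
  obtain ⟨hqa, hqb⟩ := qK_bounds K (by omega) hKb
  have hqe := qK_eq K
  have hV1r : (0 : ℝ) < d.V1 := by exact_mod_cast hV1
  have hv0 : 0 ≤ v := le_trans (by positivity) hv1
  have hqN : 0 ≤ K * (10000 - K) := by nlinarith
  unfold chkK at hc
  simp only [Bool.and_eq_true] at hc
  obtain ⟨⟨c1, c2⟩, c3⟩ := hc
  set qN := K * (10000 - K) with hqNd
  -- sign and absolute value
  obtain ⟨σ, hσ, hys⟩ : ∃ σ : ℝ, (σ = 1 ∨ σ = -1) ∧ y = σ * |y| := by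
    rcases lt_or_gt_of_ne hy with h | h
    · exact ⟨-1, Or.inr rfl, by rw [abs_of_neg h]; ring⟩
    · exact ⟨1, Or.inl rfl, by rw [abs_of_pos h]; ring⟩
  have hya : 0 < |y| := abs_pos.mpr hy
  have hi0r : (0 : ℝ) < d.i0 := by exact_mod_cast hi0
  rcases le_or_gt |y| ((d.i0 : ℝ) / 64) with hsmall | hbig
  · -- near the origin
    obtain ⟨s, hs0, hs1, hvs⟩ := chord_rep _ _ v hv1 hv2
    obtain ⟨t, ht0, ht1, hyt⟩ := chord_rep 0 ((d.i0 : ℝ) / 64) |y| hya.le hsmall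
    have hyt2 : y = (1 - t) * (0 * ((d.i0 : ℝ) / 64)) + t * (σ * ((d.i0 : ℝ) / 64)) := by
      calc y = σ * |y| := hys
        _ = σ * ((1 - t) * 0 + t * ((d.i0 : ℝ) / 64)) := by rw [← hyt]
        _ = _ := by ring
    have a1 := chk0_sound d K d.V1 hi0 hV1.le (hV12.trans hV2) hF c1
    have a2 := chk0_sound d K d.V2 hi0 (hV1.le.trans hV12) hV2 hF c2
    have hσ' : σ = 0 ∨ σ = 1 ∨ σ = -1 := Or.inr hσ
    have b1 := a1 0 (Or.inl rfl)
    have b2 := a1 σ hσ'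
    have b3 := a2 0 (Or.inl rfl)
    have b4 := a2 σ hσ'
    have hen := en_0 ((qN : ℝ) / 10 ^ 8) v y d.i0 hi0 hqa hv0 hy hsmall d.fr hF
    have he0 := e0_chord d.i0 ((d.V1 : ℝ) / 10000) ((d.V2 : ℝ) / 10000) s hs0 hs1 d.fr hFo
    rw [← hvs] at he0
    have p1 := pw_v d h4' ((K : ℝ) / 10000) ((d.V1 : ℝ) / 10000) ((d.V2 : ℝ) / 10000)
      (0 * ((d.i0 : ℝ) / 64)) s hs0 hs1
    have p2 := pw_v d h4' ((K : ℝ) / 10000) ((d.V1 : ℝ) / 10000) ((d.V2 : ℝ) / 10000)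
      (σ * ((d.i0 : ℝ) / 64)) s hs0 hs1
    rw [← hvs] at p1 p2
    have p3 := pw_y d h4' ((K : ℝ) / 10000) v (0 * ((d.i0 : ℝ) / 64)) (σ * ((d.i0 : ℝ) / 64)) t
      ((d.V2 : ℝ) / 10000) (by rw [← hqe]; exact hqb) ht0 ht1 hv0 hv2
    rw [← hyt2] at p3
    have e1 : (σ * ((d.i0 : ℝ) / 64) - 0 * ((d.i0 : ℝ) / 64)) ^ 2 = (d.i0 : ℝ) ^ 2 / 4096 := by
      rcases hσ with rfl | rfl <;> ring
    rw [e1] at p3
    unfold Wn
    rw [← hqe]
    -- combine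
    set X := tg d ((K : ℝ) / 10000) - d.A4 * ((d.V2 : ℝ) / 10000) / 131072 * (d.i0 : ℝ) ^ 2 with hX
    set E1 := e0 d.i0 ((d.V1 : ℝ) / 10000) d.fr
    set E2 := e0 d.i0 ((d.V2 : ℝ) / 10000) d.fr
    have q1 : X + ((1 - s) * E1 + s * E2) ≤ pw d ((K : ℝ) / 10000) v (0 * ((d.i0 : ℝ) / 64)) := by
      have k1 := mul_le_mul_of_nonneg_left b1 (by linarith : (0 : ℝ) ≤ 1 - s)
      have k2 := mul_le_mul_of_nonneg_left b3 hs0
      linarith
    have q2 : X + ((1 - s) * E1 + s * E2) ≤ pw d ((K : ℝ) / 10000) v (σ * ((d.i0 : ℝ) / 64)) := by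
      have k1 := mul_le_mul_of_nonneg_left b2 (by linarith : (0 : ℝ) ≤ 1 - s)
      have k2 := mul_le_mul_of_nonneg_left b4 hs0
      linarith
    have k1 := mul_le_mul_of_nonneg_left q1 (by linarith : (0 : ℝ) ≤ 1 - t)
    have k2 := mul_le_mul_of_nonneg_left q2 ht0
    have e2 : d.A4 * ((d.V2 : ℝ) / 10000) * ((d.i0 : ℝ) ^ 2 / 4096) / 32 =
        d.A4 * ((d.V2 : ℝ) / 10000) / 131072 * (d.i0 : ℝ) ^ 2 := by ring
    rw [e2] at p3
    linarith
  · -- between grid points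
    set i : ℕ := ⌈64 * |y|⌉₊ - 1 with hi
    have hceil : (d.i0 : ℝ) < 64 * |y| := by linarith
    have hpos : 0 < 64 * |y| := by linarith
    have hc1 : 1 ≤ ⌈64 * |y|⌉₊ := Nat.one_le_iff_ne_zero.mpr (by
      have := Nat.ceil_pos.mpr hpos; omega)
    have hi1 : (i : ℝ) < 64 * |y| := by
      have h5 := Nat.ceil_lt_add_one hpos.le
      have : (i : ℝ) = (⌈64 * |y|⌉₊ : ℝ) - 1 := by rw [hi]; push_cast [Nat.cast_sub hc1]; ring
      linarith
    have hi2 : 64 * |y| ≤ i + 1 := by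
      have h5 := Nat.le_ceil (64 * |y|)
      have : (i : ℝ) = (⌈64 * |y|⌉₊ : ℝ) - 1 := by rw [hi]; push_cast [Nat.cast_sub hc1]; ring
      linarith
    have hii0 : d.i0 ≤ i := by
      have : d.i0 < ⌈64 * |y|⌉₊ := Nat.lt_ceil.mpr hceil
      omega
    have hipos : 0 < i := by omega
    -- the range of the grid
    have hN : ((i : ℤ) + 1 ≤ d.NP ∧ σ = 1) ∨ ((i : ℤ) + 1 ≤ d.NN ∧ σ = -1) := by
      rcases hσ with h | h
      · left
        refine ⟨?_, h⟩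
        have hy' : 0 < y := by rw [hys, h, one_mul]; exact hya
        have h6 := hyp hy'
        rw [← abs_of_pos hy'] at h6
        have : (i : ℝ) < d.NP := lt_of_lt_of_le hi1 h6
        have : (i : ℤ) < d.NP := by exact_mod_cast this
        omega
      · right
        refine ⟨?_, h⟩
        have hy' : y < 0 := by rw [hys, h]; linarith
        have h6 := hyn hy'
        have e : -(64 * y) = 64 * |y| := by rw [abs_of_neg hy']; ring
        rw [e] at h6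
        have : (i : ℝ) < d.NN := lt_of_lt_of_le hi1 h6
        have : (i : ℤ) < d.NN := by exact_mod_cast this
        omega
    have hNi : (i : ℤ) + 1 ≤ max d.NP d.NN := by
      rcases hN with h | h
      · exact h.1.trans (le_max_left _ _)
      · exact h.1.trans (le_max_right _ _)
    have hi1000 : i ≤ 1000 := by
      have : max d.NP d.NN ≤ 1000 := max_le hNP hNN
      omega
    have hrun : runW qN d.i0 0 (initW d.fr) = lst qN d.fr d.i0 := by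
      have := runW_lst qN d.fr d.i0 0
      rw [zero_add] at this
      exact this
    rw [hrun, mx_eq] at c3
    have hL := loopW_sound d K qN (d.K1 * (10000 - d.K1)) _ d.i0 c3
    have g1 := hL i hii0 (by omega)
    have g2 := hL (i + 1) (by omega) (by omega)
    obtain ⟨g1a, g1b, g1c, g1d⟩ := g1
    obtain ⟨g2a, g2b, g2c, g2d⟩ := g2
    have inv1 := lst_inv qN hqN d.fr hFo i (by omega)
    have inv2 := lst_inv qN hqN d.fr hFo (i + 1) (by omega)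
    -- lower ends of the variance
    have hq1 : 0 ≤ d.K1 * (10000 - d.K1) := by nlinarith
    have hVL : ∀ j : ℕ, 1 ≤ j → j ≤ i + 1 →
        (mx d.V1 (d.K1 * (10000 - d.K1) * (((j : ℤ) - 1) * ((j : ℤ) - 1)) / 40960000) : ℝ) / 10000
          ≤ v := by
      intro j hj1 hj2
      rw [mx_eq]
      push_cast
      rw [div_le_iff₀ (by norm_num), max_le_iff]
      constructor
      · rw [div_le_iff₀ (by norm_num)] at hv1; linarith
      · have h7 := (fdiv_bd (d.K1 * (10000 - d.K1) * (((j : ℤ) - 1) * ((j : ℤ) - 1))) 40960000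
          (by norm_num)).1
        push_cast at h7
        refine h7.trans ?_
        have h8 : ((j : ℝ) - 1) * ((j : ℝ) - 1) ≤ (64 * |y|) * (64 * |y|) := by
          have h9 : (j : ℝ) - 1 ≤ 64 * |y| := by
            have : (j : ℝ) ≤ i + 1 := by exact_mod_cast hj2
            linarith
          have h10 : (0 : ℝ) ≤ (j : ℝ) - 1 := by
            have : (1 : ℝ) ≤ j := by exact_mod_cast hj1
            linarith
          exact mul_le_mul h9 h9 h10 (by positivity)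
        have h11 : (64 * |y|) * (64 * |y|) = 4096 * y ^ 2 := by
          rw [← sq_abs y]; ring
        rw [h11] at h8
        have hq1r : (0 : ℝ) ≤ (d.K1 : ℝ) * (10000 - d.K1) := by exact_mod_cast hq1
        have h12 := mul_le_mul_of_nonneg_left h8 hq1r
        rw [div_le_iff₀ (by norm_num)]
        have h13 : (d.K1 : ℝ) * (10000 - d.K1) * (4096 * y ^ 2) =
            ((d.K1 : ℝ) / 10000 * (1 - (d.K1 : ℝ) / 10000) * y ^ 2) * 409600000000 := by ring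
        rw [h13] at h12
        linarith
    have hmx0 : ∀ z : ℤ, 0 ≤ mx d.V1 z := fun z => by
      rw [mx_eq]; exact hV1.le.trans (le_max_left _ _)
    -- both ends give the bound for all admissible `v`
    have hend : ∀ j : ℕ, 1 ≤ j → j ≤ i + 1 → (j : ℤ) ≤ (i : ℤ) + 1 →
        GX d K qN (d.K1 * (10000 - d.K1)) j → (∀ t ∈ lst qN d.fr j, t.f.Ok) →
        tg d ((K : ℝ) / 10000) - d.A4 * ((d.V2 : ℝ) / 10000) / 131072 ≤
          pw d ((K : ℝ) / 10000) v (σ * ((j : ℝ) / 64)) - eW v (lst qN d.fr j) := by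
      intro j hj1 hj2 hj3 hG hok
      obtain ⟨ga, gb, gc, -⟩ := hG
      have hLs := chkL_sound _ ga
      set VL := mx d.V1 (d.K1 * (10000 - d.K1) * (((j : ℤ) - 1) * ((j : ℤ) - 1)) / 40960000)
        with hVLd
      have hvl := hVL j hj1 hj2
      rw [← hVLd] at hvl
      have hVL20 : VL ≤ 20000 := by
        have h14 : (VL : ℝ) / 10000 ≤ (d.V2 : ℝ) / 10000 := hvl.trans hv2
        have h15 : (VL : ℝ) ≤ d.V2 := by
          rw [div_le_div_iff_of_pos_right (by norm_num)] at h14; exact h14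
        have : VL ≤ d.V2 := by exact_mod_cast h15
        omega
      have r1 := chkG_sound d K VL (hmx0 _) hVL20 j _ hok hLs gb
      have r2 := chkG_sound d K d.V2 (hV1.le.trans hV12) hV2 j _ hok hLs gc
      obtain ⟨s, hs0, hs1, hvs⟩ := chord_rep _ _ v hvl hv2
      have he := eW_chord ((VL : ℝ) / 10000) ((d.V2 : ℝ) / 10000) s hs0 hs1 (lst qN d.fr j) hok
      rw [← hvs] at he
      have p1 := pw_v d h4' ((K : ℝ) / 10000) ((VL : ℝ) / 10000) ((d.V2 : ℝ) / 10000)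
        (σ * ((j : ℝ) / 64)) s hs0 hs1
      rw [← hvs] at p1
      have r1' : tg d ((K : ℝ) / 10000) - d.A4 * ((d.V2 : ℝ) / 10000) / 131072 ≤
          pw d ((K : ℝ) / 10000) ((VL : ℝ) / 10000) (σ * ((j : ℝ) / 64)) -
            eW ((VL : ℝ) / 10000) (lst qN d.fr j) := by
        rcases hN with ⟨h, hs⟩ | ⟨h, hs⟩
        · rw [hs, one_mul]; exact r1.1 (by omega)
        · rw [hs, neg_one_mul]; exact r1.2 (by omega)
      have r2' : tg d ((K : ℝ) / 10000) - d.A4 * ((d.V2 : ℝ) / 10000) / 131072 ≤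
          pw d ((K : ℝ) / 10000) ((d.V2 : ℝ) / 10000) (σ * ((j : ℝ) / 64)) -
            eW ((d.V2 : ℝ) / 10000) (lst qN d.fr j) := by
        rcases hN with ⟨h, hs⟩ | ⟨h, hs⟩
        · rw [hs, one_mul]; exact r2.1 (by omega)
        · rw [hs, neg_one_mul]; exact r2.2 (by omega)
      have k1 := mul_le_mul_of_nonneg_left r1' (by linarith : (0 : ℝ) ≤ 1 - s)
      have k2 := mul_le_mul_of_nonneg_left r2' hs0
      linarith
    have w1 := hend i hipos (by omega) (by omega) ⟨g1a, g1b, g1c, g1d⟩ (fun t ht => (inv1 t ht).1)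
    have w2 := hend (i + 1) (by omega) le_rfl (by push_cast; omega) ⟨g2a, g2b, g2c, g2d⟩
      (fun t ht => (inv2 t ht).1)
    -- interpolation in `y`
    set t : ℝ := 64 * |y| - i with ht
    have ht0 : 0 ≤ t := by rw [ht]; linarith
    have ht1 : t ≤ 1 := by rw [ht]; linarith
    have hyt : |y| = (1 - t) * ((i : ℝ) / 64) + t * (((i + 1 : ℕ) : ℝ) / 64) := by
      rw [ht]; push_cast; ring
    have hen := en_piece qN hqa hqb i hipos (by omega) v t σ hv0 ht0 ht1 hσ (lst qN d.fr i) inv1 g1d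
    rw [lst_map, ← hyt, ← hys] at hen
    have p3 := pw_y d h4' ((K : ℝ) / 10000) v (σ * ((i : ℝ) / 64)) (σ * (((i + 1 : ℕ) : ℝ) / 64)) t
      ((d.V2 : ℝ) / 10000) (by rw [← hqe]; exact hqb) ht0 ht1 hv0 hv2
    have hyt2 : (1 - t) * (σ * ((i : ℝ) / 64)) + t * (σ * (((i + 1 : ℕ) : ℝ) / 64)) = y := by
      calc _ = σ * ((1 - t) * ((i : ℝ) / 64) + t * (((i + 1 : ℕ) : ℝ) / 64)) := by ring
        _ = σ * |y| := by rw [← hyt]
        _ = y := hys.symm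
    rw [hyt2] at p3
    have e1 : (σ * (((i + 1 : ℕ) : ℝ) / 64) - σ * ((i : ℝ) / 64)) ^ 2 = 1 / 4096 := by
      rcases hσ with rfl | rfl <;> (push_cast; ring)
    rw [e1] at p3
    have e2 : d.A4 * ((d.V2 : ℝ) / 10000) * (1 / 4096) / 32 =
        d.A4 * ((d.V2 : ℝ) / 10000) / 131072 := by ring
    rw [e2] at p3
    unfold Wn
    rw [← hqe]
    have k1 := mul_le_mul_of_nonneg_left w1 (by linarith : (0 : ℝ) ≤ 1 - t)
    have k2 := mul_le_mul_of_nonneg_left w2 ht0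
    have hl : lst qN d.fr (i + 1) = nextW qN ((i + 1 : ℕ) : ℤ) (lst qN d.fr i) := rfl
    rw [hl] at k2
    linarith

/-- soundness of the complete check -/
theorem chkA_sound (d : Dat) (h : chkA d = true) :
    (∀ ζ : ℝ, 3 * pn d ζ ≤ 10 ^ 8 * ((d.base : ℝ) + jn d.jp ζ)) ∧
    (∀ κ v y : ℝ, (d.K1 : ℝ) / 10000 ≤ κ → κ ≤ (d.K2 : ℝ) / 10000 →
      (d.V1 : ℝ) / 10000 ≤ v → v ≤ (d.V2 : ℝ) / 10000 → y ≠ 0 →
      κ * (1 - κ) * y ^ 2 ≤ v → (0 < y → 64 * y ≤ d.NP) → (y < 0 → -(64 * y) ≤ d.NN) →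
      1000 + d.kf * (κ * 100000000) ≤ Wn d κ v y) ∧
    (∀ f ∈ d.fr, f.Ok) ∧ d.A4 ≤ 0 ∧ 1999 ≤ d.K1 ∧ d.K2 ≤ 2500 := by
  unfold chkA at h
  simp only [Bool.and_eq_true] at h
  obtain ⟨⟨⟨⟨hs, hl⟩, ht⟩, hk1⟩, hk2⟩ := h
  unfold chkS at hs
  simp only [Bool.and_eq_true, decide_eq_true_eq] at hs
  obtain ⟨⟨⟨⟨⟨⟨⟨⟨⟨⟨⟨⟨⟨⟨⟨s1, s2⟩, s3⟩, s4⟩, s5⟩, s6⟩, s7⟩, s8⟩, s9⟩, s10⟩, s11⟩, s12⟩, s13⟩, s14⟩, s15⟩, s16⟩ := hs
  have hF := chkF_sound d.i0 d.fr s1
  have hFo : ∀ f ∈ d.fr, f.Ok := fun f hf => (hF f hf).1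
  have hJ := chkJ_sound d.jp s2
  refine ⟨fun ζ => pn_le d hFo hJ s3 s11 s16 hl ht ζ, ?_, hFo, s3, s4, s6⟩
  intro κ v y hκ1 hκ2 hv1 hv2 hy hqy hyp hyn
  have h4' : (d.A4 : ℝ) ≤ 0 := by exact_mod_cast s3
  have hK1r : (1999 : ℝ) ≤ d.K1 := by exact_mod_cast s4
  have hK2r : (d.K2 : ℝ) ≤ 2500 := by exact_mod_cast s6
  have hK12 : (d.K1 : ℝ) ≤ d.K2 := by exact_mod_cast s5
  have hV1r : (0 : ℝ) < d.V1 := by exact_mod_cast s7
  have hv0 : 0 ≤ v := le_trans (by positivity) hv1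
  have hq1 : (d.K1 : ℝ) / 10000 * (1 - (d.K1 : ℝ) / 10000) * y ^ 2 ≤ v := by
    refine le_trans (mul_le_mul_of_nonneg_right ?_ (sq_nonneg y)) hqy
    nlinarith
  have c1 := Wn_corner d hF s3 s4 (by omega) s7 s8 s9 s10 s12 s13 d.K1 le_rfl (by omega) hk1 v y
    hv1 hv2 hy hq1 hyp hyn
  have c2 := Wn_corner d hF s3 s4 (by omega) s7 s8 s9 s10 s12 s13 d.K2 s5 s6 hk2 v y
    hv1 hv2 hy hq1 hyp hyn
  obtain ⟨r, hr0, hr1, hκ⟩ := chord_rep _ _ κ hκ1 hκ2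
  have p1 := pw_k d h4' ((d.K1 : ℝ) / 10000) ((d.K2 : ℝ) / 10000) r v y hr0 hr1 hv0
  have p2 := en_k ((d.K1 : ℝ) / 10000) ((d.K2 : ℝ) / 10000) r v y (by linarith) (by linarith)
    (by linarith) (by linarith) hr0 hr1 hv0 d.fr hFo
  rw [← hκ] at p1 p2
  unfold Wn at c1 c2 ⊢
  unfold tg at c1 c2
  have k1 := mul_le_mul_of_nonneg_left c1 (by linarith : (0 : ℝ) ≤ 1 - r)
  have k2 := mul_le_mul_of_nonneg_left c2 hr0
  have e : 1000 + (d.kf : ℝ) * (κ * 100000000) =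
      (1 - r) * (1000 + (d.kf : ℝ) * ((d.K1 : ℝ) / 10000 * 100000000)) +
      r * (1000 + (d.kf : ℝ) * ((d.K2 : ℝ) / 10000 * 100000000)) := by
    rw [hκ]; ring
  rw [e]
  linarith

end Pool.Agent.H10.MK
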