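import Mathlib
import Pool.Agent.H10.MK.Snd
import Pool.Agent.H49.MK.Defs

/-!
From the normalised checker to the cells of `Pool.Agent.H49.MK.Defs`.
-/

open Finset

namespace Pool.Agent.H10.MK

open Pool.Agent.H49.MK

/-- the certificate at scale `s` -/
noncomputable def certOf (d : Dat) (s : ℝ) : Cert where
  c0 := d.A0 / 10 ^ 8
  c1 := d.A1 / 10 ^ 8 / s
  c2 := d.A2 / 10 ^ 8 / s ^ 2
  c3 := d.A3 / 10 ^ 8 / s ^ 3
  c4 := d.A4 / 10 ^ 8 / s ^ 4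
  tr := d.fr.map fun f => ((f.U : ℝ) / 10 / s, (f.D : ℝ) / 10 ^ 8, (f.E : ℝ) / 10 ^ 8,
    (f.T : ℝ) / 10 ^ 8)

theorem tr_eval (s z : ℝ) : ∀ l : List Fr,
    ((l.map fun f => ((f.U : ℝ) / 10 / s, (f.D : ℝ) / 10 ^ 8, (f.E : ℝ) / 10 ^ 8,
      (f.T : ℝ) / 10 ^ 8)).map fun r : ℝ × ℝ × ℝ × ℝ =>
        r.2.1 * Real.cos (r.1 * z) + r.2.2.1 * Real.sin (r.1 * z)).sum = tn l (z / s) / 10 ^ 8
  | [] => by simp [tn]
  | f :: l => by
    have h := tr_eval s z l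
    simp only [List.map_cons, List.sum_cons]
    rw [h]
    simp only [tn, Fr.val]
    rw [show (f.U : ℝ) / 10 / s * z = f.U / 10 * (z / s) by ring]
    ring

theorem certOf_eval (d : Dat) (s z : ℝ) : (certOf d s).eval z = pn d (z / s) / 10 ^ 8 := by
  unfold Cert.eval certOf
  simp only
  rw [tr_eval s z d.fr]
  unfold pn qn
  ring

theorem tr_W (s q v y : ℝ) (hs : s ≠ 0) : ∀ l : List Fr,
    ((l.map fun f => ((f.U : ℝ) / 10 / s, (f.D : ℝ) / 10 ^ 8, (f.E : ℝ) / 10 ^ 8,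
      (f.T : ℝ) / 10 ^ 8)).map fun r : ℝ × ℝ × ℝ × ℝ =>
        r.2.2.2 * Real.exp (-(v * ef q r.1 y))).sum = en q (v / s ^ 2) (y / s) l / 10 ^ 8
  | [] => by simp [en]
  | f :: l => by
    have h := tr_W s q v y hs l
    simp only [List.map_cons, List.sum_cons]
    rw [h]
    simp only [en]
    have e : v * ef q ((f.U : ℝ) / 10 / s) y = v / s ^ 2 * ef q ((f.U : ℝ) / 10) (y / s) := by
      rw [ef_eq, ef_eq, show (f.U : ℝ) / 10 / s * y = f.U / 10 * (y / s) by ring]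
      by_cases hy : y = 0
      · rw [hy]; simp
      · field_simp
    rw [e]
    ring

theorem certOf_W (d : Dat) (s κ v y : ℝ) (hs : s ≠ 0) :
    (certOf d s).W κ v y = Wn d κ (v / s ^ 2) (y / s) / 10 ^ 8 := by
  unfold Cert.W certOf
  simp only
  rw [tr_W s _ v y hs d.fr]
  unfold Wn pw
  have : (d.A0 : ℝ) / 10 ^ 8 + d.A2 / 10 ^ 8 / s ^ 2 * v +
      d.A3 / 10 ^ 8 / s ^ 3 * ((1 - 2 * κ) * v * y) +
      d.A4 / 10 ^ 8 / s ^ 4 * (3 * v ^ 2 + (1 - 6 * (κ * (1 - κ))) * v * y ^ 2) =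
      (d.A0 + d.A2 * (v / s ^ 2) + d.A3 * ((1 - 2 * κ) * (v / s ^ 2) * (y / s)) +
        d.A4 * (3 * (v / s ^ 2) ^ 2 + (1 - 6 * (κ * (1 - κ))) * (v / s ^ 2) * (y / s) ^ 2)) /
        10 ^ 8 := by
    field_simp
  rw [this]
  ring

/-- size conditions -/
def chkC (d : Dat) : Bool :=
  decide (d.A2 ≤ 10000000000) && decide (-10000000000 ≤ d.A2) && decide (d.A3 ≤ 10000000000) &&
    decide (-10000000000 ≤ d.A3) && decide (-10000000000 ≤ d.A4) && decide (d.fr.length ≤ 8) &&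
    decide (sumT d.fr ≤ 10000000000)

theorem T_le_sumT : ∀ (l : List Fr) (_ : ∀ f ∈ l, f.Ok), ∀ f ∈ l, f.T ≤ sumT l
  | [], _ => by simp
  | f :: l, h => by
    intro g hg
    have h1 := (h f (by simp)).2.2.1
    have h2 := sumT_nonneg l (fun a ha => h a (by simp [ha]))
    show g.T ≤ f.T + sumT l
    rcases List.mem_cons.mp hg with rfl | hg
    · omega
    · have := T_le_sumT l (fun a ha => h a (by simp [ha])) g hg
      omega

theorem certOf_ok (d : Dat) (s : ℝ) (hs : 1 / 5 ≤ s) (hF : ∀ f ∈ d.fr, f.Ok) (h4 : d.A4 ≤ 0)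
    (hc : chkC d = true) : (certOf d s).ok := by
  unfold chkC at hc
  simp only [Bool.and_eq_true, decide_eq_true_eq] at hc
  obtain ⟨⟨⟨⟨⟨⟨c1, c2⟩, c3⟩, c4⟩, c5⟩, c6⟩, c7⟩ := hc
  have c1' : (d.A2 : ℝ) ≤ 10000000000 := by exact_mod_cast c1
  have c2' : (-10000000000 : ℝ) ≤ d.A2 := by exact_mod_cast c2
  have c3' : (d.A3 : ℝ) ≤ 10000000000 := by exact_mod_cast c3
  have c4' : (-10000000000 : ℝ) ≤ d.A3 := by exact_mod_cast c4
  have c5' : (-10000000000 : ℝ) ≤ d.A4 := by exact_mod_cast c5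
  have h4' : (d.A4 : ℝ) ≤ 0 := by exact_mod_cast h4
  have hs0 : 0 < s := by linarith
  have p2 : (1 / 5 : ℝ) ^ 2 ≤ s ^ 2 := pow_le_pow_left₀ (by norm_num) hs 2
  have p3 : (1 / 5 : ℝ) ^ 3 ≤ s ^ 3 := pow_le_pow_left₀ (by norm_num) hs 3
  have p4 : (1 / 5 : ℝ) ^ 4 ≤ s ^ 4 := pow_le_pow_left₀ (by norm_num) hs 4
  refine ⟨?_, ?_, ?_, ?_, ?_⟩
  · show |(d.A2 : ℝ) / 10 ^ 8 / s ^ 2| ≤ 10 ^ 6
    rw [abs_div, abs_of_pos (by positivity : (0 : ℝ) < s ^ 2), div_le_iff₀ (by positivity)]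
    have : |(d.A2 : ℝ) / 10 ^ 8| ≤ 100 := by
      rw [abs_le]; constructor
      · rw [le_div_iff₀ (by norm_num)]; linarith
      · rw [div_le_iff₀ (by norm_num)]; linarith
    norm_num at p2
    nlinarith
  · show |(d.A3 : ℝ) / 10 ^ 8 / s ^ 3| ≤ 10 ^ 6
    rw [abs_div, abs_of_pos (by positivity : (0 : ℝ) < s ^ 3), div_le_iff₀ (by positivity)]
    have : |(d.A3 : ℝ) / 10 ^ 8| ≤ 100 := by
      rw [abs_le]; constructor
      · rw [le_div_iff₀ (by norm_num)]; linarith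
      · rw [div_le_iff₀ (by norm_num)]; linarith
    norm_num at p3
    nlinarith
  · show |(d.A4 : ℝ) / 10 ^ 8 / s ^ 4| ≤ 10 ^ 6
    rw [abs_div, abs_of_pos (by positivity : (0 : ℝ) < s ^ 4), div_le_iff₀ (by positivity)]
    have : |(d.A4 : ℝ) / 10 ^ 8| ≤ 100 := by
      rw [abs_le]; constructor
      · rw [le_div_iff₀ (by norm_num)]; linarith
      · rw [div_le_iff₀ (by norm_num)]; linarith
    norm_num at p4
    nlinarith
  · show (d.fr.map _).length ≤ 8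
    rw [List.length_map]
    exact c6
  · intro r hr
    change r ∈ d.fr.map _ at hr
    rw [List.mem_map] at hr
    obtain ⟨f, hf, rfl⟩ := hr
    have hfo := hF f hf
    have hT := T_le_sumT d.fr hF f hf
    have hT' : (f.T : ℝ) ≤ 10000000000 := by exact_mod_cast hT.trans c7
    have hU1 : (0 : ℝ) < f.U := by exact_mod_cast hfo.1
    have hU2 : (f.U : ℝ) ≤ 50 := by exact_mod_cast hfo.2.1
    refine ⟨?_, ?_, ?_, ?_⟩
    · show |(f.U : ℝ) / 10 / s| ≤ 100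
      rw [abs_of_nonneg (by positivity), div_le_iff₀ hs0]
      linarith
    · show 0 ≤ (f.T : ℝ) / 10 ^ 8
      have := hfo.T0
      positivity
    · show (f.T : ℝ) / 10 ^ 8 ≤ 10 ^ 6
      rw [div_le_iff₀ (by norm_num)]; linarith
    · show ((f.D : ℝ) / 10 ^ 8) ^ 2 + ((f.E : ℝ) / 10 ^ 8) ^ 2 ≤ ((f.T : ℝ) / 10 ^ 8) ^ 2
      have := hfo.sq
      have e : ((f.D : ℝ) / 10 ^ 8) ^ 2 + ((f.E : ℝ) / 10 ^ 8) ^ 2 =
          ((f.D : ℝ) ^ 2 + (f.E : ℝ) ^ 2) / (10 ^ 8) ^ 2 := by ring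
      rw [e, div_pow]
      exact div_le_div_of_nonneg_right this (by positivity)

/-- a cell of region A or B with its certificate -/
structure Cl where
  A0 : ℤ
  A1 : ℤ
  A2 : ℤ
  A3 : ℤ
  A4 : ℤ
  fr : List Fr
  T0 : ℤ
  T1 : ℤ
  D1 : ℤ
  D2 : ℤ
  J : ℕ
  V1 : ℤ
  V2 : ℤ
  K1 : ℤ
  K2 : ℤ
  i0 : ℕ
  NP : ℤ
  NN : ℤ
  S : ℤ
  P1 : ℤ
  P2 : ℤ
  v1 : ℤ
  v2 : ℤ

/-- data for the checker -/
def Cl.dat (c : Cl) : Dat :=
  ⟨c.A0, c.A1, c.A2, c.A3, c.A4, c.fr, -4, [(c.T0, 9), (c.T1, 3), (c.D1, 3), (c.D2, 1)], c.J,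
    c.V1, c.V2, c.K1, c.K2, c.i0, c.NP, c.NN, 0⟩

/-- conditions common to both regions -/
def chkM (c : Cl) : Bool :=
  chkC c.dat && decide (200 ≤ c.S) && decide (c.V1 * (c.S * c.S) ≤ c.v1 * 1000000) &&
    decide (c.v2 * 1000000 ≤ c.V2 * (c.S * c.S)) && decide (0 ≤ c.P1) && decide (c.P2 ≤ 10000) &&
    decide (0 ≤ c.NP) && decide (0 ≤ c.NN)

/-- range condition: `R / 10^4` is the bound of `|y|` -/
def chkR (c : Cl) (R N : ℤ) : Bool :=
  decide (64 * R ≤ 10 * N * c.S) ||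
    decide (40960000 * c.V2 ≤ N * N * (c.K1 * (10000 - c.K1)))

/-- complete check of a cell in region A -/
def okA (c : Cl) : Bool :=
  chkA c.dat && chkM c && chkR c 10000 c.NP && chkR c c.P2 c.NN &&
    decide (c.K2 * (10000 - c.P1) + 1000 ≤ c.T0 * c.S * 2000) &&
    decide (c.K2 * 10000 + c.P2 * (10000 - c.K2) ≤ c.T1 * c.S * 2000) &&
    decide (-100000000 + c.K2 * (10000 - c.P1) ≤ c.D1 * c.S * 2000) &&
    decide (1000 - (10000 - c.K2) * (10000 - c.P2) ≤ c.D2 * c.S * 2000)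

/-- complete check of a cell in region B -/
def okB (c : Cl) : Bool :=
  chkA c.dat && chkM c && chkR c c.P2 c.NP && chkR c 10000 c.NN &&
    decide (-(c.K1 * (10000 - c.P2)) + 1000 ≤ c.T0 * c.S * 2000) &&
    decide (100000000 - c.K1 * (10000 - c.P2) ≤ c.T1 * c.S * 2000) &&
    decide (-(c.P1 * 10000 + c.K1 * (10000 - c.P1)) ≤ c.D1 * c.S * 2000) &&
    decide ((10000 - c.K1) * (10000 - c.P1) + 1000 ≤ c.D2 * c.S * 2000)

/-- range of `y` -/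
theorem range_ok (c : Cl) (R N : ℤ) (h : chkR c R N = true) (hN : 0 ≤ N) (hS : 200 ≤ c.S)
    (hK : 1999 ≤ c.K1) (hK2 : c.K1 ≤ 2500) (κ v x : ℝ) (hx : 0 < x) (hxR : x ≤ (R : ℝ) / 10000)
    (hκ : (c.K1 : ℝ) / 10000 ≤ κ) (hκ2 : κ ≤ 1 / 4)
    (hv : v / ((c.S : ℝ) / 1000) ^ 2 ≤ (c.V2 : ℝ) / 10000) (hq : κ * (1 - κ) * x ^ 2 ≤ v) :
    64 * (x / ((c.S : ℝ) / 1000)) ≤ N := by
  unfold chkR at h
  simp only [Bool.or_eq_true, decide_eq_true_eq] at h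
  have hSr : (200 : ℝ) ≤ c.S := by exact_mod_cast hS
  have hS0 : (0 : ℝ) < (c.S : ℝ) / 1000 := by linarith
  have hNr : (0 : ℝ) ≤ N := by exact_mod_cast hN
  rcases h with h | h
  · have h' := (Int.cast_le (R := ℝ)).mpr h
    push_cast at h'
    rw [mul_div_assoc', div_le_iff₀ hS0]
    linarith
  · have h' := (Int.cast_le (R := ℝ)).mpr h
    push_cast at h'
    have hKr : (1999 : ℝ) ≤ c.K1 := by exact_mod_cast hK
    have hK2r : (c.K1 : ℝ) ≤ 2500 := by exact_mod_cast hK2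
    set X := x / ((c.S : ℝ) / 1000) with hX
    have hX0 : 0 < X := by positivity
    have q1 : (c.K1 : ℝ) / 10000 * (1 - (c.K1 : ℝ) / 10000) ≤ κ * (1 - κ) := by nlinarith
    have q2 : (c.K1 : ℝ) / 10000 * (1 - (c.K1 : ℝ) / 10000) * X ^ 2 ≤ (c.V2 : ℝ) / 10000 := by
      refine le_trans ?_ hv
      rw [hX, div_pow, mul_div_assoc']
      refine div_le_div_of_nonneg_right ?_ (by positivity)
      exact le_trans (mul_le_mul_of_nonneg_right q1 (sq_nonneg x)) hq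
    have q3 : 0 < (c.K1 : ℝ) / 10000 * (1 - (c.K1 : ℝ) / 10000) := by
      apply mul_pos <;> linarith
    have q4 : (c.K1 : ℝ) / 10000 * (1 - (c.K1 : ℝ) / 10000) * (64 * X) ^ 2 ≤
        (c.K1 : ℝ) / 10000 * (1 - (c.K1 : ℝ) / 10000) * (N : ℝ) ^ 2 := by
      have e1 : (c.K1 : ℝ) / 10000 * (1 - (c.K1 : ℝ) / 10000) * (64 * X) ^ 2 =
          4096 * ((c.K1 : ℝ) / 10000 * (1 - (c.K1 : ℝ) / 10000) * X ^ 2) := by ring
      have e2 : (c.K1 : ℝ) / 10000 * (1 - (c.K1 : ℝ) / 10000) * (N : ℝ) ^ 2 =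
          (N : ℝ) * N * (c.K1 * (10000 - c.K1)) / 100000000 := by ring
      rw [e1, e2, le_div_iff₀ (by norm_num)]
      linarith
    have q5 := le_of_mul_le_mul_left q4 q3
    exact abs_le_of_sq_le_sq' q5 hNr |>.2

/-- jumps of a cell -/
theorem jn_cell (c : Cl) (z t0 t1 d1 d2 s : ℝ) (hs : 0 < s) (h0 : t0 ≤ (c.T0 : ℝ) / 50 * s)
    (h1 : t1 ≤ (c.T1 : ℝ) / 50 * s) (h2 : d1 ≤ (c.D1 : ℝ) / 50 * s)
    (h3 : d2 ≤ (c.D2 : ℝ) / 50 * s) :
    ((c.dat.base : ℝ) + jn c.dat.jp (z / s)) / 3 ≤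
      (if t0 < z then 3 else 0) + (if t1 < z then 1 else 0) - (if z ≤ d1 then 1 else 0) -
        (if z ≤ d2 then 1 / 3 else 0) := by
  have key : ∀ T : ℤ, ∀ t w : ℝ, 0 ≤ w → t ≤ (T : ℝ) / 50 * s →
      (if (T : ℝ) / 50 < z / s then w else 0) ≤ if t < z then w else 0 := by
    intro T t w hw ht
    by_cases h : (T : ℝ) / 50 < z / s
    · have : t < z := by
        rw [lt_div_iff₀ hs] at h
        linarith
      rw [if_pos h, if_pos this]
    · rw [if_neg h]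
      split_ifs <;> linarith
  have k0 := key c.T0 t0 9 (by norm_num) h0
  have k1 := key c.T1 t1 3 (by norm_num) h1
  have k2 := key c.D1 d1 3 (by norm_num) h2
  have k3 := key c.D2 d2 1 (by norm_num) h3
  have e : jn c.dat.jp (z / s) = (if (c.T0 : ℝ) / 50 < z / s then (9 : ℝ) else 0) +
      ((if (c.T1 : ℝ) / 50 < z / s then (3 : ℝ) else 0) +
      ((if (c.D1 : ℝ) / 50 < z / s then (3 : ℝ) else 0) +
      ((if (c.D2 : ℝ) / 50 < z / s then (1 : ℝ) else 0) + 0))) := by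
    unfold Cl.dat
    simp only [jn]
    push_cast
    rfl
  have eb : (c.dat.base : ℝ) = -4 := by
    unfold Cl.dat
    push_cast
    rfl
  rw [e, eb]
  have a0 : (if t0 < z then (9 : ℝ) else 0) = 3 * (if t0 < z then 3 else 0) := by
    split_ifs <;> norm_num
  have a1 : (if t1 < z then (3 : ℝ) else 0) = 3 * (if t1 < z then 1 else 0) := by
    split_ifs <;> norm_num
  have a2 : (if d1 < z then (3 : ℝ) else 0) = 3 * (1 - if z ≤ d1 then 1 else 0) := by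
    by_cases h : z ≤ d1
    · rw [if_neg (not_lt.mpr h), if_pos h]; norm_num
    · rw [if_pos (not_le.mp h), if_neg h]; norm_num
  have a3 : (if d2 < z then (1 : ℝ) else 0) = 3 * (1 / 3 - if z ≤ d2 then 1 / 3 else 0) := by
    by_cases h : z ≤ d2
    · rw [if_neg (not_lt.mpr h), if_pos h]; norm_num
    · rw [if_pos (not_le.mp h), if_neg h]; norm_num
  rw [a0] at k0
  rw [a1] at k1
  rw [a2] at k2
  rw [a3] at k3
  linarith

/-- common part of the two cell theorems -/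
theorem cell_common (c : Cl) (hA : chkA c.dat = true) (hM : chkM c = true) (a b κ v : ℝ)
    (hκ1 : (c.K1 : ℝ) / 10000 ≤ κ) (hκ2 : κ ≤ (c.K2 : ℝ) / 10000)
    (hv1 : (c.v1 : ℝ) / 10000 ≤ v) (hv2 : v ≤ (c.v2 : ℝ) / 10000)
    (h0 : κ * (a - b) + 1 / 10 ^ 5 ≤ (c.T0 : ℝ) / 50 * ((c.S : ℝ) / 1000))
    (h1 : b + κ * (a - b) ≤ (c.T1 : ℝ) / 50 * ((c.S : ℝ) / 1000))
    (h2 : -a + κ * (a - b) ≤ (c.D1 : ℝ) / 50 * ((c.S : ℝ) / 1000))
    (h3 : b - a + 1 / 10 ^ 5 + κ * (a - b) ≤ (c.D2 : ℝ) / 50 * ((c.S : ℝ) / 1000))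
    (RP RN : ℤ) (hRP : chkR c RP c.NP = true) (hRN : chkR c RN c.NN = true)
    (ha : a ≤ (RP : ℝ) / 10000) (hb : b ≤ (RN : ℝ) / 10000) : CellOK a b κ v := by
  obtain ⟨s1, s2, s3, s4, s5, s6⟩ := chkA_sound c.dat hA
  unfold chkM at hM
  simp only [Bool.and_eq_true, decide_eq_true_eq] at hM
  obtain ⟨⟨⟨⟨⟨⟨⟨m1, m2⟩, m3⟩, m4⟩, m5⟩, m6⟩, m7⟩, m8⟩ := hM
  have hSr : (200 : ℝ) ≤ c.S := by exact_mod_cast m2
  set s : ℝ := (c.S : ℝ) / 1000 with hs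
  have hs5 : 1 / 5 ≤ s := by rw [hs]; linarith
  have hs0 : 0 < s := by linarith
  have k1 : c.K1 ≤ c.K2 := by
    have h : (c.K1 : ℝ) / 10000 ≤ (c.K2 : ℝ) / 10000 := hκ1.trans hκ2
    have h' : (c.K1 : ℝ) ≤ c.K2 := by
      rw [div_le_div_iff_of_pos_right (by norm_num)] at h; exact h
    exact_mod_cast h'
  have s5' : 1999 ≤ c.K1 := s5
  have s6' : c.K2 ≤ 2500 := s6
  have hκ4 : κ ≤ 1 / 4 := by
    have : (c.K2 : ℝ) ≤ 2500 := by exact_mod_cast s6'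
    linarith
  have m3' := (Int.cast_le (R := ℝ)).mpr m3
  have m4' := (Int.cast_le (R := ℝ)).mpr m4
  push_cast at m3' m4'
  have hs2 : s ^ 2 = (c.S : ℝ) * c.S / 1000000 := by rw [hs]; ring
  have hvl : (c.V1 : ℝ) / 10000 ≤ v / s ^ 2 := by
    rw [le_div_iff₀ (by positivity), hs2]
    linarith
  have hvu : v / s ^ 2 ≤ (c.V2 : ℝ) / 10000 := by
    rw [div_le_iff₀ (by positivity), hs2]
    linarith
  refine ⟨certOf c.dat s, certOf_ok c.dat s hs5 s3 s4 m1, ?_, ?_⟩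
  · intro z
    rw [certOf_eval]
    have hj := jn_cell c z (κ * (a - b) + 1 / 10 ^ 5) (b + κ * (a - b)) (-a + κ * (a - b))
      (b - a + 1 / 10 ^ 5 + κ * (a - b)) s hs0 h0 h1 h2 h3
    have hp := s1 (z / s)
    have e : payoff a b κ (1 / 10 ^ 5) z =
        (if κ * (a - b) + 1 / 10 ^ 5 < z then 3 else 0) + (if b + κ * (a - b) < z then 1 else 0) -
        (if z ≤ -a + κ * (a - b) then 1 else 0) -
        (if z ≤ b - a + 1 / 10 ^ 5 + κ * (a - b) then 1 / 3 else 0) := by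
      unfold payoff
      congr 1
      · congr 1
        · congr 1
          · exact if_congr (by constructor <;> intro h <;> linarith) rfl rfl
          · exact if_congr (by constructor <;> intro h <;> linarith) rfl rfl
        · exact if_congr (by constructor <;> intro h <;> linarith) rfl rfl
      · exact if_congr (by constructor <;> intro h <;> linarith) rfl rfl
    rw [e]
    refine le_trans ?_ hj
    rw [div_le_div_iff₀ (by norm_num) (by norm_num)]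
    linarith
  · intro y hy0 hyb hya hqy
    rw [certOf_W _ _ _ _ _ hs0.ne']
    have hv0 : 0 ≤ v := by
      refine le_trans ?_ hqy
      have : 0 ≤ κ := by
        have : (1999 : ℝ) ≤ c.K1 := by exact_mod_cast s5'
        linarith
      have : 0 ≤ 1 - κ := by linarith
      positivity
    have hy0' : y / s ≠ 0 := div_ne_zero hy0 hs0.ne'
    have hqy' : κ * (1 - κ) * (y / s) ^ 2 ≤ v / s ^ 2 := by
      rw [div_pow, mul_div_assoc']
      exact div_le_div_of_nonneg_right hqy (by positivity)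
    have hpos : 0 < y / s → 64 * (y / s) ≤ c.NP := by
      intro h
      have hy' : 0 < y := by
        by_contra hn
        push Not at hn
        have := div_nonpos_of_nonpos_of_nonneg hn hs0.le
        linarith
      exact range_ok c RP c.NP hRP m7 m2 s5' (by omega) κ v y hy' (hya.trans ha) hκ1 hκ4 hvu hqy
    have hneg : y / s < 0 → -(64 * (y / s)) ≤ c.NN := by
      intro h
      have hy' : y < 0 := by
        by_contra hn
        push Not at hn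
        have := div_nonneg hn hs0.le
        linarith
      have := range_ok c RN c.NN hRN m8 m2 s5' (by omega) κ v (-y) (by linarith)
        (by linarith) hκ1 hκ4 hvu (by rw [neg_sq]; exact hqy)
      have e : 64 * (-y / s) = -(64 * (y / s)) := by ring
      rw [← hs, e] at this
      exact this
    have hw := s2 κ (v / s ^ 2) (y / s) hκ1 hκ2 hvl hvu hy0' hqy' hpos hneg
    have e : (c.dat.kf : ℝ) = 0 := by
      unfold Cl.dat; simp
    rw [e] at hw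
    rw [le_div_iff₀ (by norm_num)]
    linarith

/-- a cell of region A -/
theorem cell_A (c : Cl) (h : okA c = true) (κ b v : ℝ)
    (hκ1 : (c.K1 : ℝ) / 10000 ≤ κ) (hκ2 : κ ≤ (c.K2 : ℝ) / 10000)
    (hb1 : (c.P1 : ℝ) / 10000 ≤ b) (hb2 : b ≤ (c.P2 : ℝ) / 10000)
    (hv1 : (c.v1 : ℝ) / 10000 ≤ v) (hv2 : v ≤ (c.v2 : ℝ) / 10000) : CellOK 1 b κ v := by
  unfold okA at h
  simp only [Bool.and_eq_true, decide_eq_true_eq] at h
  obtain ⟨⟨⟨⟨⟨⟨⟨a1, a2⟩, a3⟩, a4⟩, a5⟩, a6⟩, a7⟩, a8⟩ := h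
  obtain ⟨-, -, -, -, s5, s6⟩ := chkA_sound c.dat a1
  have hM := a2
  unfold chkM at hM
  simp only [Bool.and_eq_true, decide_eq_true_eq] at hM
  obtain ⟨⟨⟨⟨⟨⟨⟨m1, m2⟩, m3⟩, m4⟩, m5⟩, m6⟩, m7⟩, m8⟩ := hM
  have s5' : (1999 : ℝ) ≤ c.K1 := by exact_mod_cast s5
  have s6' : (c.K2 : ℝ) ≤ 2500 := by exact_mod_cast s6
  have m5' : (0 : ℝ) ≤ c.P1 := by exact_mod_cast m5
  have m6' : (c.P2 : ℝ) ≤ 10000 := by exact_mod_cast m6
  have a5' := (Int.cast_le (R := ℝ)).mpr a5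
  have a6' := (Int.cast_le (R := ℝ)).mpr a6
  have a7' := (Int.cast_le (R := ℝ)).mpr a7
  have a8' := (Int.cast_le (R := ℝ)).mpr a8
  push_cast at a5' a6' a7' a8'
  have hb1' : b ≤ 1 := by linarith
  have hκ0 : 0 ≤ κ := by linarith
  have e1 : κ * (1 - b) ≤ (c.K2 : ℝ) / 10000 * (1 - (c.P1 : ℝ) / 10000) :=
    mul_le_mul hκ2 (by linarith) (by linarith) (by linarith)
  have e2 : (1 - (c.K2 : ℝ) / 10000) * (1 - (c.P2 : ℝ) / 10000) ≤ (1 - κ) * (1 - b) :=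
    mul_le_mul (by linarith) (by linarith) (by linarith) (by linarith)
  refine cell_common c a1 a2 1 b κ v hκ1 hκ2 hv1 hv2 ?_ ?_ ?_ ?_ 10000 c.P2 a3 a4 ?_ hb2
  · linarith
  · -- b + κ (1 - b) = 1 - (1 - κ)(1 - b)
    linarith
  · linarith
  · linarith
  · norm_num

/-- a cell of region B -/
theorem cell_B (c : Cl) (h : okB c = true) (κ a v : ℝ)
    (hκ1 : (c.K1 : ℝ) / 10000 ≤ κ) (hκ2 : κ ≤ (c.K2 : ℝ) / 10000)
    (ha1 : (c.P1 : ℝ) / 10000 ≤ a) (ha2 : a ≤ (c.P2 : ℝ) / 10000)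
    (hv1 : (c.v1 : ℝ) / 10000 ≤ v) (hv2 : v ≤ (c.v2 : ℝ) / 10000) : CellOK a 1 κ v := by
  unfold okB at h
  simp only [Bool.and_eq_true, decide_eq_true_eq] at h
  obtain ⟨⟨⟨⟨⟨⟨⟨a1, a2⟩, a3⟩, a4⟩, a5⟩, a6⟩, a7⟩, a8⟩ := h
  obtain ⟨-, -, -, -, s5, s6⟩ := chkA_sound c.dat a1
  have hM := a2
  unfold chkM at hM
  simp only [Bool.and_eq_true, decide_eq_true_eq] at hM
  obtain ⟨⟨⟨⟨⟨⟨⟨m1, m2⟩, m3⟩, m4⟩, m5⟩, m6⟩, m7⟩, m8⟩ := hM
  have s5' : (1999 : ℝ) ≤ c.K1 := by exact_mod_cast s5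
  have s6' : (c.K2 : ℝ) ≤ 2500 := by exact_mod_cast s6
  have m5' : (0 : ℝ) ≤ c.P1 := by exact_mod_cast m5
  have m6' : (c.P2 : ℝ) ≤ 10000 := by exact_mod_cast m6
  have a5' := (Int.cast_le (R := ℝ)).mpr a5
  have a6' := (Int.cast_le (R := ℝ)).mpr a6
  have a7' := (Int.cast_le (R := ℝ)).mpr a7
  have a8' := (Int.cast_le (R := ℝ)).mpr a8
  push_cast at a5' a6' a7' a8'
  have hκ0 : 0 ≤ κ := by linarith
  have e1 : (c.K1 : ℝ) / 10000 * (1 - (c.P2 : ℝ) / 10000) ≤ κ * (1 - a) :=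
    mul_le_mul hκ1 (by linarith) (by linarith) hκ0
  have e2 : (1 - κ) * (1 - a) ≤ (1 - (c.K1 : ℝ) / 10000) * (1 - (c.P1 : ℝ) / 10000) :=
    mul_le_mul (by linarith) (by linarith) (by linarith) (by linarith)
  refine cell_common c a1 a2 a 1 κ v hκ1 hκ2 hv1 hv2 ?_ ?_ ?_ ?_ c.P2 10000 a3 a4 ha2 ?_
  · linarith
  · linarith
  · linarith
  · linarith
  · norm_num

end Pool.Agent.H10.MK
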