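import Mathlib
import Pool.Agent.H10.MK.Cell

/-!
Cells and their certificates, checked by the kernel.
-/

namespace Pool.Agent.H10.MK

open Pool.Agent.H49.MK

/-- cell data -/
def c00 : Cl :=
  ⟨-12489625, -9348757, 36118673, 17657332, -5100049,
    [⟨34, 13311610, -2232485, 13497517⟩,
      ⟨50, -1750970, 2950447, 3430894⟩],
    43, 63, -128, -109, 200, 6743, 13230, 1999, 2500, 8, 185, 33, 292, 0, 1500, 575, 1128⟩

theorem c00_ok : okA c00 = true := by decide +kernel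

theorem c00_cell (κ b v : ℝ) (h1 : 1999 / 10000 ≤ κ) (h2 : κ ≤ 2500 / 10000)
    (h3 : 0 / 10000 ≤ b) (h4 : b ≤ 1500 / 10000) (h5 : 575 / 10000 ≤ v) (h6 : v ≤ 1128 / 10000) :
    CellOK 1 b κ v :=
  cell_A c00 c00_ok κ b v
    (by rw [show ((c00.K1 : ℤ) : ℝ) = 1999 from by norm_num [c00]]; linarith)
    (by rw [show ((c00.K2 : ℤ) : ℝ) = 2500 from by norm_num [c00]]; linarith)
    (by rw [show ((c00.P1 : ℤ) : ℝ) = 0 from by norm_num [c00]]; linarith)
    (by rw [show ((c00.P2 : ℤ) : ℝ) = 1500 from by norm_num [c00]]; linarith)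
    (by rw [show ((c00.v1 : ℤ) : ℝ) = 575 from by norm_num [c00]]; linarith)
    (by rw [show ((c00.v2 : ℤ) : ℝ) = 1128 from by norm_num [c00]]; linarith)

/-- cell data -/
def c01 : Cl :=
  ⟨-20093502, 483162, 62842304, 21211617, -8903847,
    [⟨34, 16526554, -10724667, 19701408⟩,
      ⟨50, 457859, 4648723, 4671217⟩],
    37, 72, -134, -99, 200, 6743, 13230, 1999, 2500, 8, 185, 50, 292, 1500, 2250, 575, 1128⟩

theorem c01_ok : okA c01 = true := by decide +kernel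

theorem c01_cell (κ b v : ℝ) (h1 : 1999 / 10000 ≤ κ) (h2 : κ ≤ 2500 / 10000)
    (h3 : 1500 / 10000 ≤ b) (h4 : b ≤ 2250 / 10000) (h5 : 575 / 10000 ≤ v) (h6 : v ≤ 1128 / 10000) :
    CellOK 1 b κ v :=
  cell_A c01 c01_ok κ b v
    (by rw [show ((c01.K1 : ℤ) : ℝ) = 1999 from by norm_num [c01]]; linarith)
    (by rw [show ((c01.K2 : ℤ) : ℝ) = 2500 from by norm_num [c01]]; linarith)
    (by rw [show ((c01.P1 : ℤ) : ℝ) = 1500 from by norm_num [c01]]; linarith)
    (by rw [show ((c01.P2 : ℤ) : ℝ) = 2250 from by norm_num [c01]]; linarith)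
    (by rw [show ((c01.v1 : ℤ) : ℝ) = 575 from by norm_num [c01]]; linarith)
    (by rw [show ((c01.v2 : ℤ) : ℝ) = 1128 from by norm_num [c01]]; linarith)

/-- cell data -/
def c02 : Cl :=
  ⟨-22726624, 19644822, 76775613, 18339586, -10087368,
    [⟨30, 11294473, -21130474, 23959593⟩,
      ⟨45, 6456326, 3189597, 7201228⟩],
    34, 82, -138, -89, 200, 6743, 13230, 1999, 2500, 9, 185, 66, 292, 2250, 3000, 575, 1128⟩

theorem c02_ok : okA c02 = true := by decide +kernel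

theorem c02_cell (κ b v : ℝ) (h1 : 1999 / 10000 ≤ κ) (h2 : κ ≤ 2500 / 10000)
    (h3 : 2250 / 10000 ≤ b) (h4 : b ≤ 3000 / 10000) (h5 : 575 / 10000 ≤ v) (h6 : v ≤ 1128 / 10000) :
    CellOK 1 b κ v :=
  cell_A c02 c02_ok κ b v
    (by rw [show ((c02.K1 : ℤ) : ℝ) = 1999 from by norm_num [c02]]; linarith)
    (by rw [show ((c02.K2 : ℤ) : ℝ) = 2500 from by norm_num [c02]]; linarith)
    (by rw [show ((c02.P1 : ℤ) : ℝ) = 2250 from by norm_num [c02]]; linarith)
    (by rw [show ((c02.P2 : ℤ) : ℝ) = 3000 from by norm_num [c02]]; linarith)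
    (by rw [show ((c02.v1 : ℤ) : ℝ) = 575 from by norm_num [c02]]; linarith)
    (by rw [show ((c02.v2 : ℤ) : ℝ) = 1128 from by norm_num [c02]]; linarith)

/-- cell data -/
def c03 : Cl :=
  ⟨-15604893, 30315848, 60564640, 21513233, -9743952,
    [⟨28, 4328625, -23877277, 24266466⟩,
      ⟨48, 6665624, 2021995, 6965559⟩],
    31, 59, -91, -64, 200, 6743, 13218, 1999, 2500, 9, 157, 47, 409, 0, 3000, 1128, 2211⟩

theorem c03_ok : okA c03 = true := by decide +kernel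

theorem c03_cell (κ b v : ℝ) (h1 : 1999 / 10000 ≤ κ) (h2 : κ ≤ 2500 / 10000)
    (h3 : 0 / 10000 ≤ b) (h4 : b ≤ 3000 / 10000) (h5 : 1128 / 10000 ≤ v) (h6 : v ≤ 2211 / 10000) :
    CellOK 1 b κ v :=
  cell_A c03 c03_ok κ b v
    (by rw [show ((c03.K1 : ℤ) : ℝ) = 1999 from by norm_num [c03]]; linarith)
    (by rw [show ((c03.K2 : ℤ) : ℝ) = 2500 from by norm_num [c03]]; linarith)
    (by rw [show ((c03.P1 : ℤ) : ℝ) = 0 from by norm_num [c03]]; linarith)
    (by rw [show ((c03.P2 : ℤ) : ℝ) = 3000 from by norm_num [c03]]; linarith)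
    (by rw [show ((c03.v1 : ℤ) : ℝ) = 1128 from by norm_num [c03]]; linarith)
    (by rw [show ((c03.v2 : ℤ) : ℝ) = 2211 from by norm_num [c03]]; linarith)

/-- cell data -/
def c04 : Cl :=
  ⟨-16133836, 61997087, 111479507, 36553599, -25681515,
    [⟨34, -4129260, -41925079, 42127937⟩,
      ⟨50, 14938566, 10060492, 18010393⟩],
    25, 36, -72, -61, 200, 8336, 11674, 1999, 2500, 8, 125, 19, 515, 0, 1500, 2211, 3096⟩

theorem c04_ok : okA c04 = true := by decide +kernel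

theorem c04_cell (κ b v : ℝ) (h1 : 1999 / 10000 ≤ κ) (h2 : κ ≤ 2500 / 10000)
    (h3 : 0 / 10000 ≤ b) (h4 : b ≤ 1500 / 10000) (h5 : 2211 / 10000 ≤ v) (h6 : v ≤ 3096 / 10000) :
    CellOK 1 b κ v :=
  cell_A c04 c04_ok κ b v
    (by rw [show ((c04.K1 : ℤ) : ℝ) = 1999 from by norm_num [c04]]; linarith)
    (by rw [show ((c04.K2 : ℤ) : ℝ) = 2500 from by norm_num [c04]]; linarith)
    (by rw [show ((c04.P1 : ℤ) : ℝ) = 0 from by norm_num [c04]]; linarith)
    (by rw [show ((c04.P2 : ℤ) : ℝ) = 1500 from by norm_num [c04]]; linarith)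
    (by rw [show ((c04.v1 : ℤ) : ℝ) = 2211 from by norm_num [c04]]; linarith)
    (by rw [show ((c04.v2 : ℤ) : ℝ) = 3096 from by norm_num [c04]]; linarith)

/-- cell data -/
def c05 : Cl :=
  ⟨-21777381, 82578404, 105749008, 24441417, -21309568,
    [⟨35, -9301671, -35938736, 37122956⟩],
    21, 47, -76, -50, 200, 8336, 11674, 1999, 2500, 12, 125, 38, 515, 1500, 3000, 2211, 3096⟩

theorem c05_ok : okA c05 = true := by decide +kernel

theorem c05_cell (κ b v : ℝ) (h1 : 1999 / 10000 ≤ κ) (h2 : κ ≤ 2500 / 10000)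
    (h3 : 1500 / 10000 ≤ b) (h4 : b ≤ 3000 / 10000) (h5 : 2211 / 10000 ≤ v) (h6 : v ≤ 3096 / 10000) :
    CellOK 1 b κ v :=
  cell_A c05 c05_ok κ b v
    (by rw [show ((c05.K1 : ℤ) : ℝ) = 1999 from by norm_num [c05]]; linarith)
    (by rw [show ((c05.K2 : ℤ) : ℝ) = 2500 from by norm_num [c05]]; linarith)
    (by rw [show ((c05.P1 : ℤ) : ℝ) = 1500 from by norm_num [c05]]; linarith)
    (by rw [show ((c05.P2 : ℤ) : ℝ) = 3000 from by norm_num [c05]]; linarith)
    (by rw [show ((c05.v1 : ℤ) : ℝ) = 2211 from by norm_num [c05]]; linarith)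
    (by rw [show ((c05.v2 : ℤ) : ℝ) = 3096 from by norm_num [c05]]; linarith)

/-- cell data -/
def c06 : Cl :=
  ⟨-10258454, 96503983, 76464171, 24463078, -16994508,
    [⟨33, -3939718, -40000632, 40194178⟩],
    19, 38, -63, -44, 200, 8320, 11651, 1999, 2249, 13, 105, 32, 610, 0, 3000, 3096, 4335⟩

theorem c06_ok : okA c06 = true := by decide +kernel

theorem c06_cell (κ b v : ℝ) (h1 : 1999 / 10000 ≤ κ) (h2 : κ ≤ 2249 / 10000)
    (h3 : 0 / 10000 ≤ b) (h4 : b ≤ 3000 / 10000) (h5 : 3096 / 10000 ≤ v) (h6 : v ≤ 4335 / 10000) :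
    CellOK 1 b κ v :=
  cell_A c06 c06_ok κ b v
    (by rw [show ((c06.K1 : ℤ) : ℝ) = 1999 from by norm_num [c06]]; linarith)
    (by rw [show ((c06.K2 : ℤ) : ℝ) = 2249 from by norm_num [c06]]; linarith)
    (by rw [show ((c06.P1 : ℤ) : ℝ) = 0 from by norm_num [c06]]; linarith)
    (by rw [show ((c06.P2 : ℤ) : ℝ) = 3000 from by norm_num [c06]]; linarith)
    (by rw [show ((c06.v1 : ℤ) : ℝ) = 3096 from by norm_num [c06]]; linarith)
    (by rw [show ((c06.v2 : ℤ) : ℝ) = 4335 from by norm_num [c06]]; linarith)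

/-- cell data -/
def c07 : Cl :=
  ⟨-16780642, 88434738, 88289412, 27847455, -19740391,
    [⟨34, -3872323, -41335417, 41516402⟩],
    22, 41, -64, -45, 200, 9171, 10852, 2249, 2500, 13, 111, 34, 581, 0, 3000, 3096, 3663⟩

theorem c07_ok : okA c07 = true := by decide +kernel

theorem c07_cell (κ b v : ℝ) (h1 : 2249 / 10000 ≤ κ) (h2 : κ ≤ 2500 / 10000)
    (h3 : 0 / 10000 ≤ b) (h4 : b ≤ 3000 / 10000) (h5 : 3096 / 10000 ≤ v) (h6 : v ≤ 3663 / 10000) :
    CellOK 1 b κ v :=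
  cell_A c07 c07_ok κ b v
    (by rw [show ((c07.K1 : ℤ) : ℝ) = 2249 from by norm_num [c07]]; linarith)
    (by rw [show ((c07.K2 : ℤ) : ℝ) = 2500 from by norm_num [c07]]; linarith)
    (by rw [show ((c07.P1 : ℤ) : ℝ) = 0 from by norm_num [c07]]; linarith)
    (by rw [show ((c07.P2 : ℤ) : ℝ) = 3000 from by norm_num [c07]]; linarith)
    (by rw [show ((c07.v1 : ℤ) : ℝ) = 3096 from by norm_num [c07]]; linarith)
    (by rw [show ((c07.v2 : ℤ) : ℝ) = 3663 from by norm_num [c07]]; linarith)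

end Pool.Agent.H10.MK
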