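import Mathlib
import Pool.Agent.H10.MK.Cell

/-!
Cells and their certificates, checked by the kernel.
-/

namespace Pool.Agent.H10.MK

open Pool.Agent.H49.MK

/-- cell data -/
def c08 : Cl :=
  ⟨206121624, 74962343, -10508061, 31015903, -13780046,
    [⟨9, -220098238, 21677784, 221163200⟩,
      ⟨34, 3909420, -39693003, 39885061⟩],
    20, 25, -59, -54, 200, 9170, 10854, 2249, 2500, 8, 102, 8, 632, 0, 750, 3663, 4335⟩

theorem c08_ok : okA c08 = true := by decide +kernel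

theorem c08_cell (κ b v : ℝ) (h1 : 2249 / 10000 ≤ κ) (h2 : κ ≤ 2500 / 10000)
    (h3 : 0 / 10000 ≤ b) (h4 : b ≤ 750 / 10000) (h5 : 3663 / 10000 ≤ v) (h6 : v ≤ 4335 / 10000) :
    CellOK 1 b κ v :=
  cell_A c08 c08_ok κ b v
    (by rw [show ((c08.K1 : ℤ) : ℝ) = 2249 from by norm_num [c08]]; linarith)
    (by rw [show ((c08.K2 : ℤ) : ℝ) = 2500 from by norm_num [c08]]; linarith)
    (by rw [show ((c08.P1 : ℤ) : ℝ) = 0 from by norm_num [c08]]; linarith)
    (by rw [show ((c08.P2 : ℤ) : ℝ) = 750 from by norm_num [c08]]; linarith)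
    (by rw [show ((c08.v1 : ℤ) : ℝ) = 3663 from by norm_num [c08]]; linarith)
    (by rw [show ((c08.v2 : ℤ) : ℝ) = 4335 from by norm_num [c08]]; linarith)

/-- cell data -/
def c09 : Cl :=
  ⟨-10242183, 97483406, 71572668, 27533918, -17483545,
    [⟨33, -3994557, -40557423, 40753663⟩],
    19, 29, -60, -50, 200, 9170, 10854, 2249, 2500, 13, 102, 16, 632, 750, 1500, 3663, 4335⟩

theorem c09_ok : okA c09 = true := by decide +kernel

theorem c09_cell (κ b v : ℝ) (h1 : 2249 / 10000 ≤ κ) (h2 : κ ≤ 2500 / 10000)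
    (h3 : 750 / 10000 ≤ b) (h4 : b ≤ 1500 / 10000) (h5 : 3663 / 10000 ≤ v) (h6 : v ≤ 4335 / 10000) :
    CellOK 1 b κ v :=
  cell_A c09 c09_ok κ b v
    (by rw [show ((c09.K1 : ℤ) : ℝ) = 2249 from by norm_num [c09]]; linarith)
    (by rw [show ((c09.K2 : ℤ) : ℝ) = 2500 from by norm_num [c09]]; linarith)
    (by rw [show ((c09.P1 : ℤ) : ℝ) = 750 from by norm_num [c09]]; linarith)
    (by rw [show ((c09.P2 : ℤ) : ℝ) = 1500 from by norm_num [c09]]; linarith)
    (by rw [show ((c09.v1 : ℤ) : ℝ) = 3663 from by norm_num [c09]]; linarith)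
    (by rw [show ((c09.v2 : ℤ) : ℝ) = 4335 from by norm_num [c09]]; linarith)

/-- cell data -/
def c10 : Cl :=
  ⟨688019388, 49701882, -184861170, 31495063, -6033461,
    [⟨9, -700080190, 68951880, 703467579⟩,
      ⟨35, -8602147, -41422753, 42306518⟩],
    17, 38, -62, -41, 200, 9170, 10854, 2249, 2500, 12, 102, 31, 632, 1500, 3000, 3663, 4335⟩

theorem c10_ok : okA c10 = true := by decide +kernel

theorem c10_cell (κ b v : ℝ) (h1 : 2249 / 10000 ≤ κ) (h2 : κ ≤ 2500 / 10000)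
    (h3 : 1500 / 10000 ≤ b) (h4 : b ≤ 3000 / 10000) (h5 : 3663 / 10000 ≤ v) (h6 : v ≤ 4335 / 10000) :
    CellOK 1 b κ v :=
  cell_A c10 c10_ok κ b v
    (by rw [show ((c10.K1 : ℤ) : ℝ) = 2249 from by norm_num [c10]]; linarith)
    (by rw [show ((c10.K2 : ℤ) : ℝ) = 2500 from by norm_num [c10]]; linarith)
    (by rw [show ((c10.P1 : ℤ) : ℝ) = 1500 from by norm_num [c10]]; linarith)
    (by rw [show ((c10.P2 : ℤ) : ℝ) = 3000 from by norm_num [c10]]; linarith)
    (by rw [show ((c10.v1 : ℤ) : ℝ) = 3663 from by norm_num [c10]]; linarith)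
    (by rw [show ((c10.v2 : ℤ) : ℝ) = 4335 from by norm_num [c10]]; linarith)

/-- cell data -/
def c11 : Cl :=
  ⟨568001448, 82931415, -196071874, 28076786, -1754800,
    [⟨10, -575744449, 56705879, 578530231⟩,
      ⟨36, -4882880, -49576717, 49816598⟩],
    16, 32, -53, -37, 200, 8339, 11677, 1999, 2249, 12, 89, 27, 721, 0, 3000, 4335, 6070⟩

theorem c11_ok : okA c11 = true := by decide +kernel

theorem c11_cell (κ b v : ℝ) (h1 : 1999 / 10000 ≤ κ) (h2 : κ ≤ 2249 / 10000)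
    (h3 : 0 / 10000 ≤ b) (h4 : b ≤ 3000 / 10000) (h5 : 4335 / 10000 ≤ v) (h6 : v ≤ 6070 / 10000) :
    CellOK 1 b κ v :=
  cell_A c11 c11_ok κ b v
    (by rw [show ((c11.K1 : ℤ) : ℝ) = 1999 from by norm_num [c11]]; linarith)
    (by rw [show ((c11.K2 : ℤ) : ℝ) = 2249 from by norm_num [c11]]; linarith)
    (by rw [show ((c11.P1 : ℤ) : ℝ) = 0 from by norm_num [c11]]; linarith)
    (by rw [show ((c11.P2 : ℤ) : ℝ) = 3000 from by norm_num [c11]]; linarith)
    (by rw [show ((c11.v1 : ℤ) : ℝ) = 4335 from by norm_num [c11]]; linarith)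
    (by rw [show ((c11.v2 : ℤ) : ℝ) = 6070 from by norm_num [c11]]; linarith)

/-- cell data -/
def c12 : Cl :=
  ⟨828280285, 33607046, -251057287, 37329112, -2333071,
    [⟨9, -842814659, 83009999, 846892679⟩,
      ⟨35, 4251664, -43167864, 43376735⟩],
    19, 24, -56, -52, 200, 9802, 10224, 2249, 2500, 12, 97, 8, 665, 0, 750, 4335, 4521⟩

theorem c12_ok : okA c12 = true := by decide +kernel

theorem c12_cell (κ b v : ℝ) (h1 : 2249 / 10000 ≤ κ) (h2 : κ ≤ 2500 / 10000)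
    (h3 : 0 / 10000 ≤ b) (h4 : b ≤ 750 / 10000) (h5 : 4335 / 10000 ≤ v) (h6 : v ≤ 4521 / 10000) :
    CellOK 1 b κ v :=
  cell_A c12 c12_ok κ b v
    (by rw [show ((c12.K1 : ℤ) : ℝ) = 2249 from by norm_num [c12]]; linarith)
    (by rw [show ((c12.K2 : ℤ) : ℝ) = 2500 from by norm_num [c12]]; linarith)
    (by rw [show ((c12.P1 : ℤ) : ℝ) = 0 from by norm_num [c12]]; linarith)
    (by rw [show ((c12.P2 : ℤ) : ℝ) = 750 from by norm_num [c12]]; linarith)
    (by rw [show ((c12.v1 : ℤ) : ℝ) = 4335 from by norm_num [c12]]; linarith)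
    (by rw [show ((c12.v2 : ℤ) : ℝ) = 4521 from by norm_num [c12]]; linarith)

/-- cell data -/
def c13 : Cl :=
  ⟨746041177, 42898136, -226757856, 35364052, -2210254,
    [⟨9, -759564560, 74810579, 763239769⟩,
      ⟨34, 4349995, -44166243, 44379945⟩],
    19, 21, -55, -53, 200, 9777, 10199, 2249, 2500, 8, 95, 4, 680, 0, 375, 4521, 4716⟩

theorem c13_ok : okA c13 = true := by decide +kernel

theorem c13_cell (κ b v : ℝ) (h1 : 2249 / 10000 ≤ κ) (h2 : κ ≤ 2500 / 10000)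
    (h3 : 0 / 10000 ≤ b) (h4 : b ≤ 375 / 10000) (h5 : 4521 / 10000 ≤ v) (h6 : v ≤ 4716 / 10000) :
    CellOK 1 b κ v :=
  cell_A c13 c13_ok κ b v
    (by rw [show ((c13.K1 : ℤ) : ℝ) = 2249 from by norm_num [c13]]; linarith)
    (by rw [show ((c13.K2 : ℤ) : ℝ) = 2500 from by norm_num [c13]]; linarith)
    (by rw [show ((c13.P1 : ℤ) : ℝ) = 0 from by norm_num [c13]]; linarith)
    (by rw [show ((c13.P2 : ℤ) : ℝ) = 375 from by norm_num [c13]]; linarith)
    (by rw [show ((c13.v1 : ℤ) : ℝ) = 4521 from by norm_num [c13]]; linarith)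
    (by rw [show ((c13.v2 : ℤ) : ℝ) = 4716 from by norm_num [c13]]; linarith)

/-- cell data -/
def c14 : Cl :=
  ⟨805678594, 40438374, -244452689, 35881050, -2242567,
    [⟨9, -819194159, 80683582, 823157890⟩,
      ⟨35, 4269559, -43349556, 43559307⟩],
    18, 23, -55, -51, 200, 9777, 10199, 2249, 2500, 12, 95, 8, 680, 375, 750, 4521, 4716⟩

theorem c14_ok : okA c14 = true := by decide +kernel

theorem c14_cell (κ b v : ℝ) (h1 : 2249 / 10000 ≤ κ) (h2 : κ ≤ 2500 / 10000)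
    (h3 : 375 / 10000 ≤ b) (h4 : b ≤ 750 / 10000) (h5 : 4521 / 10000 ≤ v) (h6 : v ≤ 4716 / 10000) :
    CellOK 1 b κ v :=
  cell_A c14 c14_ok κ b v
    (by rw [show ((c14.K1 : ℤ) : ℝ) = 2249 from by norm_num [c14]]; linarith)
    (by rw [show ((c14.K2 : ℤ) : ℝ) = 2500 from by norm_num [c14]]; linarith)
    (by rw [show ((c14.P1 : ℤ) : ℝ) = 375 from by norm_num [c14]]; linarith)
    (by rw [show ((c14.P2 : ℤ) : ℝ) = 750 from by norm_num [c14]]; linarith)
    (by rw [show ((c14.v1 : ℤ) : ℝ) = 4521 from by norm_num [c14]]; linarith)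
    (by rw [show ((c14.v2 : ℤ) : ℝ) = 4716 from by norm_num [c14]]; linarith)

/-- cell data -/
def c15 : Cl :=
  ⟨749427057, 57975644, -229741929, 33459174, -2091199,
    [⟨9, -757661105, 74623106, 761327104⟩,
      ⟨34, -4680456, -47521471, 47751408⟩],
    17, 21, -54, -50, 200, 9569, 10410, 2249, 2374, 8, 92, 7, 702, 0, 750, 4716, 5130⟩

theorem c15_ok : okA c15 = true := by decide +kernel

theorem c15_cell (κ b v : ℝ) (h1 : 2249 / 10000 ≤ κ) (h2 : κ ≤ 2374 / 10000)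
    (h3 : 0 / 10000 ≤ b) (h4 : b ≤ 750 / 10000) (h5 : 4716 / 10000 ≤ v) (h6 : v ≤ 5130 / 10000) :
    CellOK 1 b κ v :=
  cell_A c15 c15_ok κ b v
    (by rw [show ((c15.K1 : ℤ) : ℝ) = 2249 from by norm_num [c15]]; linarith)
    (by rw [show ((c15.K2 : ℤ) : ℝ) = 2374 from by norm_num [c15]]; linarith)
    (by rw [show ((c15.P1 : ℤ) : ℝ) = 0 from by norm_num [c15]]; linarith)
    (by rw [show ((c15.P2 : ℤ) : ℝ) = 750 from by norm_num [c15]]; linarith)
    (by rw [show ((c15.v1 : ℤ) : ℝ) = 4716 from by norm_num [c15]]; linarith)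
    (by rw [show ((c15.v2 : ℤ) : ℝ) = 5130 from by norm_num [c15]]; linarith)

end Pool.Agent.H10.MK
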