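import Mathlib
import Pool.Agent.H10.MK.Cell

/-!
Cells and their certificates, checked by the kernel.
-/

namespace Pool.Agent.H10.MK

open Pool.Agent.H49.MK

/-- cell data -/
def c16 : Cl :=
  ⟨719220830, 50896506, -218500686, 33426422, -2089152,
    [⟨9, -731990321, 72094754, 735532110⟩,
      ⟨34, 4404141, -44715992, 44932354⟩],
    18, 20, -54, -52, 200, 9791, 10214, 2374, 2437, 8, 93, 4, 694, 0, 375, 4716, 4919⟩

theorem c16_ok : okA c16 = true := by decide +kernel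

theorem c16_cell (κ b v : ℝ) (h1 : 2374 / 10000 ≤ κ) (h2 : κ ≤ 2437 / 10000)
    (h3 : 0 / 10000 ≤ b) (h4 : b ≤ 375 / 10000) (h5 : 4716 / 10000 ≤ v) (h6 : v ≤ 4919 / 10000) :
    CellOK 1 b κ v :=
  cell_A c16 c16_ok κ b v
    (by rw [show ((c16.K1 : ℤ) : ℝ) = 2374 from by norm_num [c16]]; linarith)
    (by rw [show ((c16.K2 : ℤ) : ℝ) = 2437 from by norm_num [c16]]; linarith)
    (by rw [show ((c16.P1 : ℤ) : ℝ) = 0 from by norm_num [c16]]; linarith)
    (by rw [show ((c16.P2 : ℤ) : ℝ) = 375 from by norm_num [c16]]; linarith)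
    (by rw [show ((c16.v1 : ℤ) : ℝ) = 4716 from by norm_num [c16]]; linarith)
    (by rw [show ((c16.v2 : ℤ) : ℝ) = 4919 from by norm_num [c16]]; linarith)

/-- cell data -/
def c17 : Cl :=
  ⟨700079506, 56894890, -212654965, 32055681, -2003481,
    [⟨9, -712787153, 70203407, 716236026⟩,
      ⟨34, 4544204, -46138074, 46361317⟩],
    18, 20, -53, -51, 200, 9785, 10206, 2374, 2437, 8, 91, 4, 709, 0, 375, 4919, 5130⟩

theorem c17_ok : okA c17 = true := by decide +kernel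

theorem c17_cell (κ b v : ℝ) (h1 : 2374 / 10000 ≤ κ) (h2 : κ ≤ 2437 / 10000)
    (h3 : 0 / 10000 ≤ b) (h4 : b ≤ 375 / 10000) (h5 : 4919 / 10000 ≤ v) (h6 : v ≤ 5130 / 10000) :
    CellOK 1 b κ v :=
  cell_A c17 c17_ok κ b v
    (by rw [show ((c17.K1 : ℤ) : ℝ) = 2374 from by norm_num [c17]]; linarith)
    (by rw [show ((c17.K2 : ℤ) : ℝ) = 2437 from by norm_num [c17]]; linarith)
    (by rw [show ((c17.P1 : ℤ) : ℝ) = 0 from by norm_num [c17]]; linarith)
    (by rw [show ((c17.P2 : ℤ) : ℝ) = 375 from by norm_num [c17]]; linarith)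
    (by rw [show ((c17.v1 : ℤ) : ℝ) = 4919 from by norm_num [c17]]; linarith)
    (by rw [show ((c17.v2 : ℤ) : ℝ) = 5130 from by norm_num [c17]]; linarith)

/-- cell data -/
def c18 : Cl :=
  ⟨718961030, 50943270, -218410898, 33403946, -2087748,
    [⟨9, -731769995, 72073054, 735310718⟩,
      ⟨34, 4405030, -44725024, 44941430⟩],
    18, 20, -54, -52, 200, 9791, 10214, 2437, 2468, 8, 93, 4, 694, 0, 375, 4716, 4919⟩

theorem c18_ok : okA c18 = true := by decide +kernel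

theorem c18_cell (κ b v : ℝ) (h1 : 2437 / 10000 ≤ κ) (h2 : κ ≤ 2468 / 10000)
    (h3 : 0 / 10000 ≤ b) (h4 : b ≤ 375 / 10000) (h5 : 4716 / 10000 ≤ v) (h6 : v ≤ 4919 / 10000) :
    CellOK 1 b κ v :=
  cell_A c18 c18_ok κ b v
    (by rw [show ((c18.K1 : ℤ) : ℝ) = 2437 from by norm_num [c18]]; linarith)
    (by rw [show ((c18.K2 : ℤ) : ℝ) = 2468 from by norm_num [c18]]; linarith)
    (by rw [show ((c18.P1 : ℤ) : ℝ) = 0 from by norm_num [c18]]; linarith)
    (by rw [show ((c18.P2 : ℤ) : ℝ) = 375 from by norm_num [c18]]; linarith)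
    (by rw [show ((c18.v1 : ℤ) : ℝ) = 4716 from by norm_num [c18]]; linarith)
    (by rw [show ((c18.v2 : ℤ) : ℝ) = 4919 from by norm_num [c18]]; linarith)

/-- cell data -/
def c19 : Cl :=
  ⟨699744068, 56956722, -212535138, 32025454, -2001592,
    [⟨9, -712494390, 70174572, 715941846⟩,
      ⟨34, 4545375, -46149972, 46373272⟩],
    18, 20, -53, -51, 200, 9785, 10206, 2437, 2468, 8, 91, 4, 709, 0, 375, 4919, 5130⟩

theorem c19_ok : okA c19 = true := by decide +kernel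

theorem c19_cell (κ b v : ℝ) (h1 : 2437 / 10000 ≤ κ) (h2 : κ ≤ 2468 / 10000)
    (h3 : 0 / 10000 ≤ b) (h4 : b ≤ 375 / 10000) (h5 : 4919 / 10000 ≤ v) (h6 : v ≤ 5130 / 10000) :
    CellOK 1 b κ v :=
  cell_A c19 c19_ok κ b v
    (by rw [show ((c19.K1 : ℤ) : ℝ) = 2437 from by norm_num [c19]]; linarith)
    (by rw [show ((c19.K2 : ℤ) : ℝ) = 2468 from by norm_num [c19]]; linarith)
    (by rw [show ((c19.P1 : ℤ) : ℝ) = 0 from by norm_num [c19]]; linarith)
    (by rw [show ((c19.P2 : ℤ) : ℝ) = 375 from by norm_num [c19]]; linarith)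
    (by rw [show ((c19.v1 : ℤ) : ℝ) = 4919 from by norm_num [c19]]; linarith)
    (by rw [show ((c19.v2 : ℤ) : ℝ) = 5130 from by norm_num [c19]]; linarith)

/-- cell data -/
def c20 : Cl :=
  ⟨718879089, 50957055, -218384429, 33397320, -2087334,
    [⟨9, -731705045, 72066657, 735245453⟩,
      ⟨34, 4405293, -44727687, 44944106⟩],
    18, 20, -54, -52, 200, 9791, 10214, 2468, 2484, 8, 93, 4, 694, 0, 375, 4716, 4919⟩

theorem c20_ok : okA c20 = true := by decide +kernel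

theorem c20_cell (κ b v : ℝ) (h1 : 2468 / 10000 ≤ κ) (h2 : κ ≤ 2484 / 10000)
    (h3 : 0 / 10000 ≤ b) (h4 : b ≤ 375 / 10000) (h5 : 4716 / 10000 ≤ v) (h6 : v ≤ 4919 / 10000) :
    CellOK 1 b κ v :=
  cell_A c20 c20_ok κ b v
    (by rw [show ((c20.K1 : ℤ) : ℝ) = 2468 from by norm_num [c20]]; linarith)
    (by rw [show ((c20.K2 : ℤ) : ℝ) = 2484 from by norm_num [c20]]; linarith)
    (by rw [show ((c20.P1 : ℤ) : ℝ) = 0 from by norm_num [c20]]; linarith)
    (by rw [show ((c20.P2 : ℤ) : ℝ) = 375 from by norm_num [c20]]; linarith)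
    (by rw [show ((c20.v1 : ℤ) : ℝ) = 4716 from by norm_num [c20]]; linarith)
    (by rw [show ((c20.v2 : ℤ) : ℝ) = 4919 from by norm_num [c20]]; linarith)

/-- cell data -/
def c21 : Cl :=
  ⟨699623466, 56978265, -212493387, 32014922, -2000934,
    [⟨9, -712392384, 70164526, 715839347⟩,
      ⟨34, 4545784, -46154117, 46377438⟩],
    18, 20, -53, -51, 200, 9785, 10206, 2468, 2484, 8, 91, 4, 709, 0, 375, 4919, 5130⟩

theorem c21_ok : okA c21 = true := by decide +kernel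

theorem c21_cell (κ b v : ℝ) (h1 : 2468 / 10000 ≤ κ) (h2 : κ ≤ 2484 / 10000)
    (h3 : 0 / 10000 ≤ b) (h4 : b ≤ 375 / 10000) (h5 : 4919 / 10000 ≤ v) (h6 : v ≤ 5130 / 10000) :
    CellOK 1 b κ v :=
  cell_A c21 c21_ok κ b v
    (by rw [show ((c21.K1 : ℤ) : ℝ) = 2468 from by norm_num [c21]]; linarith)
    (by rw [show ((c21.K2 : ℤ) : ℝ) = 2484 from by norm_num [c21]]; linarith)
    (by rw [show ((c21.P1 : ℤ) : ℝ) = 0 from by norm_num [c21]]; linarith)
    (by rw [show ((c21.P2 : ℤ) : ℝ) = 375 from by norm_num [c21]]; linarith)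
    (by rw [show ((c21.v1 : ℤ) : ℝ) = 4919 from by norm_num [c21]]; linarith)
    (by rw [show ((c21.v2 : ℤ) : ℝ) = 5130 from by norm_num [c21]]; linarith)

/-- cell data -/
def c22 : Cl :=
  ⟨705058250, 55964356, -214458296, 32510585, -2031913,
    [⟨9, -717193085, 70637353, 720663276⟩,
      ⟨34, 4526568, -45959021, 46181398⟩],
    18, 20, -53, -51, 200, 9569, 10410, 2484, 2500, 8, 92, 4, 702, 0, 375, 4716, 5130⟩

theorem c22_ok : okA c22 = true := by decide +kernel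

theorem c22_cell (κ b v : ℝ) (h1 : 2484 / 10000 ≤ κ) (h2 : κ ≤ 2500 / 10000)
    (h3 : 0 / 10000 ≤ b) (h4 : b ≤ 375 / 10000) (h5 : 4716 / 10000 ≤ v) (h6 : v ≤ 5130 / 10000) :
    CellOK 1 b κ v :=
  cell_A c22 c22_ok κ b v
    (by rw [show ((c22.K1 : ℤ) : ℝ) = 2484 from by norm_num [c22]]; linarith)
    (by rw [show ((c22.K2 : ℤ) : ℝ) = 2500 from by norm_num [c22]]; linarith)
    (by rw [show ((c22.P1 : ℤ) : ℝ) = 0 from by norm_num [c22]]; linarith)
    (by rw [show ((c22.P2 : ℤ) : ℝ) = 375 from by norm_num [c22]]; linarith)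
    (by rw [show ((c22.v1 : ℤ) : ℝ) = 4716 from by norm_num [c22]]; linarith)
    (by rw [show ((c22.v2 : ℤ) : ℝ) = 5130 from by norm_num [c22]]; linarith)

/-- cell data -/
def c23 : Cl :=
  ⟨708060313, 53556474, -214030445, 32228338, -2014272,
    [⟨9, -721061820, 71018391, 724550730⟩,
      ⟨34, 4209587, -45325648, 45520710⟩],
    18, 22, -54, -49, 200, 9569, 10410, 2374, 2500, 8, 92, 7, 702, 375, 750, 4716, 5130⟩

theorem c23_ok : okA c23 = true := by decide +kernel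

theorem c23_cell (κ b v : ℝ) (h1 : 2374 / 10000 ≤ κ) (h2 : κ ≤ 2500 / 10000)
    (h3 : 375 / 10000 ≤ b) (h4 : b ≤ 750 / 10000) (h5 : 4716 / 10000 ≤ v) (h6 : v ≤ 5130 / 10000) :
    CellOK 1 b κ v :=
  cell_A c23 c23_ok κ b v
    (by rw [show ((c23.K1 : ℤ) : ℝ) = 2374 from by norm_num [c23]]; linarith)
    (by rw [show ((c23.K2 : ℤ) : ℝ) = 2500 from by norm_num [c23]]; linarith)
    (by rw [show ((c23.P1 : ℤ) : ℝ) = 375 from by norm_num [c23]]; linarith)
    (by rw [show ((c23.P2 : ℤ) : ℝ) = 750 from by norm_num [c23]]; linarith)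
    (by rw [show ((c23.v1 : ℤ) : ℝ) = 4716 from by norm_num [c23]]; linarith)
    (by rw [show ((c23.v2 : ℤ) : ℝ) = 5130 from by norm_num [c23]]; linarith)

end Pool.Agent.H10.MK
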