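import Mathlib
import Pool.Agent.H10.MK.Cell

/-!
Cells and their certificates, checked by the kernel.
-/

namespace Pool.Agent.H10.MK

open Pool.Agent.H49.MK

/-- cell data -/
def c24 : Cl :=
  ⟨543976999, 81092529, -191761211, 30098897, -1881182,
    [⟨10, -556759508, 54836025, 559453430⟩,
      ⟨36, 4819375, -48931939, 49168700⟩],
    17, 21, -50, -46, 200, 9168, 10849, 2249, 2500, 12, 86, 7, 748, 0, 750, 5130, 6070⟩

theorem c24_ok : okA c24 = true := by decide +kernel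

theorem c24_cell (κ b v : ℝ) (h1 : 2249 / 10000 ≤ κ) (h2 : κ ≤ 2500 / 10000)
    (h3 : 0 / 10000 ≤ b) (h4 : b ≤ 750 / 10000) (h5 : 5130 / 10000 ≤ v) (h6 : v ≤ 6070 / 10000) :
    CellOK 1 b κ v :=
  cell_A c24 c24_ok κ b v
    (by rw [show ((c24.K1 : ℤ) : ℝ) = 2249 from by norm_num [c24]]; linarith)
    (by rw [show ((c24.K2 : ℤ) : ℝ) = 2500 from by norm_num [c24]]; linarith)
    (by rw [show ((c24.P1 : ℤ) : ℝ) = 0 from by norm_num [c24]]; linarith)
    (by rw [show ((c24.P2 : ℤ) : ℝ) = 750 from by norm_num [c24]]; linarith)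
    (by rw [show ((c24.v1 : ℤ) : ℝ) = 5130 from by norm_num [c24]]; linarith)
    (by rw [show ((c24.v2 : ℤ) : ℝ) = 6070 from by norm_num [c24]]; linarith)

/-- cell data -/
def c25 : Cl :=
  ⟨534553724, 77445275, -180535555, 29901115, -2998688,
    [⟨10, -545930471, 53769458, 548571996⟩,
      ⟨36, 486253, -48028730, 48031192⟩],
    17, 26, -53, -44, 200, 8339, 11677, 2249, 2500, 12, 89, 14, 721, 750, 1500, 4335, 6070⟩

theorem c25_ok : okA c25 = true := by decide +kernel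

theorem c25_cell (κ b v : ℝ) (h1 : 2249 / 10000 ≤ κ) (h2 : κ ≤ 2500 / 10000)
    (h3 : 750 / 10000 ≤ b) (h4 : b ≤ 1500 / 10000) (h5 : 4335 / 10000 ≤ v) (h6 : v ≤ 6070 / 10000) :
    CellOK 1 b κ v :=
  cell_A c25 c25_ok κ b v
    (by rw [show ((c25.K1 : ℤ) : ℝ) = 2249 from by norm_num [c25]]; linarith)
    (by rw [show ((c25.K2 : ℤ) : ℝ) = 2500 from by norm_num [c25]]; linarith)
    (by rw [show ((c25.P1 : ℤ) : ℝ) = 750 from by norm_num [c25]]; linarith)
    (by rw [show ((c25.P2 : ℤ) : ℝ) = 1500 from by norm_num [c25]]; linarith)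
    (by rw [show ((c25.v1 : ℤ) : ℝ) = 4335 from by norm_num [c25]]; linarith)
    (by rw [show ((c25.v2 : ℤ) : ℝ) = 6070 from by norm_num [c25]]; linarith)

/-- cell data -/
def c26 : Cl :=
  ⟨640354804, 79660696, -181295736, 25106574, -3365622,
    [⟨9, -647621492, 63785150, 650755056⟩,
      ⟨35, -4721940, -47942662, 48174637⟩],
    15, 33, -54, -36, 200, 8339, 11677, 2249, 2500, 12, 89, 27, 721, 1500, 3000, 4335, 6070⟩

theorem c26_ok : okA c26 = true := by decide +kernel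

theorem c26_cell (κ b v : ℝ) (h1 : 2249 / 10000 ≤ κ) (h2 : κ ≤ 2500 / 10000)
    (h3 : 1500 / 10000 ≤ b) (h4 : b ≤ 3000 / 10000) (h5 : 4335 / 10000 ≤ v) (h6 : v ≤ 6070 / 10000) :
    CellOK 1 b κ v :=
  cell_A c26 c26_ok κ b v
    (by rw [show ((c26.K1 : ℤ) : ℝ) = 2249 from by norm_num [c26]]; linarith)
    (by rw [show ((c26.K2 : ℤ) : ℝ) = 2500 from by norm_num [c26]]; linarith)
    (by rw [show ((c26.P1 : ℤ) : ℝ) = 1500 from by norm_num [c26]]; linarith)
    (by rw [show ((c26.P2 : ℤ) : ℝ) = 3000 from by norm_num [c26]]; linarith)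
    (by rw [show ((c26.v1 : ℤ) : ℝ) = 4335 from by norm_num [c26]]; linarith)
    (by rw [show ((c26.v2 : ℤ) : ℝ) = 6070 from by norm_num [c26]]; linarith)

/-- cell data -/
def c27 : Cl :=
  ⟨177337621, 104878128, -61504882, 11131245, -750735,
    [⟨13, -198512632, 60218149, 207445151⟩,
      ⟨39, 16801273, -55386376, 57878610⟩],
    15, 28, -43, -30, 200, 8322, 11655, 1999, 2500, 11, 75, 23, 854, 0, 3000, 6070, 8500⟩

theorem c27_ok : okA c27 = true := by decide +kernel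

theorem c27_cell (κ b v : ℝ) (h1 : 1999 / 10000 ≤ κ) (h2 : κ ≤ 2500 / 10000)
    (h3 : 0 / 10000 ≤ b) (h4 : b ≤ 3000 / 10000) (h5 : 6070 / 10000 ≤ v) (h6 : v ≤ 8500 / 10000) :
    CellOK 1 b κ v :=
  cell_A c27 c27_ok κ b v
    (by rw [show ((c27.K1 : ℤ) : ℝ) = 1999 from by norm_num [c27]]; linarith)
    (by rw [show ((c27.K2 : ℤ) : ℝ) = 2500 from by norm_num [c27]]; linarith)
    (by rw [show ((c27.P1 : ℤ) : ℝ) = 0 from by norm_num [c27]]; linarith)
    (by rw [show ((c27.P2 : ℤ) : ℝ) = 3000 from by norm_num [c27]]; linarith)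
    (by rw [show ((c27.v1 : ℤ) : ℝ) = 6070 from by norm_num [c27]]; linarith)
    (by rw [show ((c27.v2 : ℤ) : ℝ) = 8500 from by norm_num [c27]]; linarith)

/-- cell data -/
def c28 : Cl :=
  ⟨-13239425, 38507139, 67285011, 18255834, -10031733,
    [⟨32, -267866, -17236285, 17238367⟩],
    21, 66, -111, -66, 200, 4225, 15811, 1999, 2249, 9, 169, 60, 379, 3000, 3500, 607, 2271⟩

theorem c28_ok : okA c28 = true := by decide +kernel

theorem c28_cell (κ b v : ℝ) (h1 : 1999 / 10000 ≤ κ) (h2 : κ ≤ 2249 / 10000)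
    (h3 : 3000 / 10000 ≤ b) (h4 : b ≤ 3500 / 10000) (h5 : 607 / 10000 ≤ v) (h6 : v ≤ 2271 / 10000) :
    CellOK 1 b κ v :=
  cell_A c28 c28_ok κ b v
    (by rw [show ((c28.K1 : ℤ) : ℝ) = 1999 from by norm_num [c28]]; linarith)
    (by rw [show ((c28.K2 : ℤ) : ℝ) = 2249 from by norm_num [c28]]; linarith)
    (by rw [show ((c28.P1 : ℤ) : ℝ) = 3000 from by norm_num [c28]]; linarith)
    (by rw [show ((c28.P2 : ℤ) : ℝ) = 3500 from by norm_num [c28]]; linarith)
    (by rw [show ((c28.v1 : ℤ) : ℝ) = 607 from by norm_num [c28]]; linarith)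
    (by rw [show ((c28.v2 : ℤ) : ℝ) = 2271 from by norm_num [c28]]; linarith)

/-- cell data -/
def c29 : Cl :=
  ⟨-12774753, 46818037, 75484918, 18070535, -11547250,
    [⟨34, 1623556, -20136758, 20202103⟩],
    20, 71, -112, -61, 200, 4225, 15811, 1999, 2249, 8, 169, 68, 379, 3500, 4000, 607, 2271⟩

theorem c29_ok : okA c29 = true := by decide +kernel

theorem c29_cell (κ b v : ℝ) (h1 : 1999 / 10000 ≤ κ) (h2 : κ ≤ 2249 / 10000)
    (h3 : 3500 / 10000 ≤ b) (h4 : b ≤ 4000 / 10000) (h5 : 607 / 10000 ≤ v) (h6 : v ≤ 2271 / 10000) :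
    CellOK 1 b κ v :=
  cell_A c29 c29_ok κ b v
    (by rw [show ((c29.K1 : ℤ) : ℝ) = 1999 from by norm_num [c29]]; linarith)
    (by rw [show ((c29.K2 : ℤ) : ℝ) = 2249 from by norm_num [c29]]; linarith)
    (by rw [show ((c29.P1 : ℤ) : ℝ) = 3500 from by norm_num [c29]]; linarith)
    (by rw [show ((c29.P2 : ℤ) : ℝ) = 4000 from by norm_num [c29]]; linarith)
    (by rw [show ((c29.v1 : ℤ) : ℝ) = 607 from by norm_num [c29]]; linarith)
    (by rw [show ((c29.v2 : ℤ) : ℝ) = 2271 from by norm_num [c29]]; linarith)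

/-- cell data -/
def c30 : Cl :=
  ⟨-14751295, 36125014, 66732337, 19331469, -10174450,
    [⟨32, 1816026, -18438423, 18527639⟩],
    23, 67, -107, -63, 200, 4512, 15482, 2249, 2500, 9, 168, 59, 383, 3000, 3500, 662, 2271⟩

theorem c30_ok : okA c30 = true := by decide +kernel

theorem c30_cell (κ b v : ℝ) (h1 : 2249 / 10000 ≤ κ) (h2 : κ ≤ 2500 / 10000)
    (h3 : 3000 / 10000 ≤ b) (h4 : b ≤ 3500 / 10000) (h5 : 662 / 10000 ≤ v) (h6 : v ≤ 2271 / 10000) :
    CellOK 1 b κ v :=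
  cell_A c30 c30_ok κ b v
    (by rw [show ((c30.K1 : ℤ) : ℝ) = 2249 from by norm_num [c30]]; linarith)
    (by rw [show ((c30.K2 : ℤ) : ℝ) = 2500 from by norm_num [c30]]; linarith)
    (by rw [show ((c30.P1 : ℤ) : ℝ) = 3000 from by norm_num [c30]]; linarith)
    (by rw [show ((c30.P2 : ℤ) : ℝ) = 3500 from by norm_num [c30]]; linarith)
    (by rw [show ((c30.v1 : ℤ) : ℝ) = 662 from by norm_num [c30]]; linarith)
    (by rw [show ((c30.v2 : ℤ) : ℝ) = 2271 from by norm_num [c30]]; linarith)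

/-- cell data -/
def c31 : Cl :=
  ⟨-14017007, 40963918, 71877688, 19137196, -11180223,
    [⟨35, 5170565, -19557503, 20229451⟩],
    22, 72, -109, -58, 200, 4512, 15482, 2249, 2500, 12, 168, 67, 383, 3500, 4000, 662, 2271⟩

theorem c31_ok : okA c31 = true := by decide +kernel

theorem c31_cell (κ b v : ℝ) (h1 : 2249 / 10000 ≤ κ) (h2 : κ ≤ 2500 / 10000)
    (h3 : 3500 / 10000 ≤ b) (h4 : b ≤ 4000 / 10000) (h5 : 662 / 10000 ≤ v) (h6 : v ≤ 2271 / 10000) :
    CellOK 1 b κ v :=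
  cell_A c31 c31_ok κ b v
    (by rw [show ((c31.K1 : ℤ) : ℝ) = 2249 from by norm_num [c31]]; linarith)
    (by rw [show ((c31.K2 : ℤ) : ℝ) = 2500 from by norm_num [c31]]; linarith)
    (by rw [show ((c31.P1 : ℤ) : ℝ) = 3500 from by norm_num [c31]]; linarith)
    (by rw [show ((c31.P2 : ℤ) : ℝ) = 4000 from by norm_num [c31]]; linarith)
    (by rw [show ((c31.v1 : ℤ) : ℝ) = 662 from by norm_num [c31]]; linarith)
    (by rw [show ((c31.v2 : ℤ) : ℝ) = 2271 from by norm_num [c31]]; linarith)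

end Pool.Agent.H10.MK
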