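import Mathlib
import Pool.Agent.H10.MK.Cell

/-!
Cells and their certificates, checked by the kernel.
-/

namespace Pool.Agent.H10.MK

open Pool.Agent.H49.MK

/-- cell data -/
def c32 : Cl :=
  ⟨-15452349, 107311312, 92314031, 17221431, -18027258,
    [⟨35, -9049058, -29830745, 31173047⟩],
    16, 48, -71, -38, 200, 6821, 13199, 1999, 2500, 12, 111, 45, 577, 3000, 4000, 2271, 4394⟩

theorem c32_ok : okA c32 = true := by decide +kernel

theorem c32_cell (κ b v : ℝ) (h1 : 1999 / 10000 ≤ κ) (h2 : κ ≤ 2500 / 10000)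
    (h3 : 3000 / 10000 ≤ b) (h4 : b ≤ 4000 / 10000) (h5 : 2271 / 10000 ≤ v) (h6 : v ≤ 4394 / 10000) :
    CellOK 1 b κ v :=
  cell_A c32 c32_ok κ b v
    (by rw [show ((c32.K1 : ℤ) : ℝ) = 1999 from by norm_num [c32]]; linarith)
    (by rw [show ((c32.K2 : ℤ) : ℝ) = 2500 from by norm_num [c32]]; linarith)
    (by rw [show ((c32.P1 : ℤ) : ℝ) = 3000 from by norm_num [c32]]; linarith)
    (by rw [show ((c32.P2 : ℤ) : ℝ) = 4000 from by norm_num [c32]]; linarith)
    (by rw [show ((c32.v1 : ℤ) : ℝ) = 2271 from by norm_num [c32]]; linarith)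
    (by rw [show ((c32.v2 : ℤ) : ℝ) = 4394 from by norm_num [c32]]; linarith)

/-- cell data -/
def c33 : Cl :=
  ⟨636884085, 126414751, -187655306, 13135317, -820958,
    [⟨9, -638506351, 62887387, 641595811⟩,
      ⟨35, -22606467, -42293725, 47956351⟩],
    11, 35, -51, -28, 200, 6814, 13183, 1999, 2500, 12, 80, 32, 803, 3000, 4000, 4394, 8500⟩

theorem c33_ok : okA c33 = true := by decide +kernel

theorem c33_cell (κ b v : ℝ) (h1 : 1999 / 10000 ≤ κ) (h2 : κ ≤ 2500 / 10000)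
    (h3 : 3000 / 10000 ≤ b) (h4 : b ≤ 4000 / 10000) (h5 : 4394 / 10000 ≤ v) (h6 : v ≤ 8500 / 10000) :
    CellOK 1 b κ v :=
  cell_A c33 c33_ok κ b v
    (by rw [show ((c33.K1 : ℤ) : ℝ) = 1999 from by norm_num [c33]]; linarith)
    (by rw [show ((c33.K2 : ℤ) : ℝ) = 2500 from by norm_num [c33]]; linarith)
    (by rw [show ((c33.P1 : ℤ) : ℝ) = 3000 from by norm_num [c33]]; linarith)
    (by rw [show ((c33.P2 : ℤ) : ℝ) = 4000 from by norm_num [c33]]; linarith)
    (by rw [show ((c33.v1 : ℤ) : ℝ) = 4394 from by norm_num [c33]]; linarith)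
    (by rw [show ((c33.v2 : ℤ) : ℝ) = 8500 from by norm_num [c33]]; linarith)

/-- cell data -/
def c34 : Cl :=
  ⟨-11629638, 67858619, 90605206, 15882278, -14300075,
    [⟨35, -2521936, -25605650, 25729545⟩],
    18, 76, -113, -55, 200, 4269, 15769, 1999, 2249, 12, 168, 76, 382, 4000, 4500, 623, 2301⟩

theorem c34_ok : okA c34 = true := by decide +kernel

theorem c34_cell (κ b v : ℝ) (h1 : 1999 / 10000 ≤ κ) (h2 : κ ≤ 2249 / 10000)
    (h3 : 4000 / 10000 ≤ b) (h4 : b ≤ 4500 / 10000) (h5 : 623 / 10000 ≤ v) (h6 : v ≤ 2301 / 10000) :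
    CellOK 1 b κ v :=
  cell_A c34 c34_ok κ b v
    (by rw [show ((c34.K1 : ℤ) : ℝ) = 1999 from by norm_num [c34]]; linarith)
    (by rw [show ((c34.K2 : ℤ) : ℝ) = 2249 from by norm_num [c34]]; linarith)
    (by rw [show ((c34.P1 : ℤ) : ℝ) = 4000 from by norm_num [c34]]; linarith)
    (by rw [show ((c34.P2 : ℤ) : ℝ) = 4500 from by norm_num [c34]]; linarith)
    (by rw [show ((c34.v1 : ℤ) : ℝ) = 623 from by norm_num [c34]]; linarith)
    (by rw [show ((c34.v2 : ℤ) : ℝ) = 2301 from by norm_num [c34]]; linarith)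

/-- cell data -/
def c35 : Cl :=
  ⟨-14677821, 61588013, 90455773, 17482405, -14330822,
    [⟨35, 2570448, -26098193, 26224472⟩],
    20, 77, -110, -53, 200, 4557, 15444, 2249, 2500, 12, 166, 75, 386, 4000, 4500, 679, 2301⟩

theorem c35_ok : okA c35 = true := by decide +kernel

theorem c35_cell (κ b v : ℝ) (h1 : 2249 / 10000 ≤ κ) (h2 : κ ≤ 2500 / 10000)
    (h3 : 4000 / 10000 ≤ b) (h4 : b ≤ 4500 / 10000) (h5 : 679 / 10000 ≤ v) (h6 : v ≤ 2301 / 10000) :
    CellOK 1 b κ v :=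
  cell_A c35 c35_ok κ b v
    (by rw [show ((c35.K1 : ℤ) : ℝ) = 2249 from by norm_num [c35]]; linarith)
    (by rw [show ((c35.K2 : ℤ) : ℝ) = 2500 from by norm_num [c35]]; linarith)
    (by rw [show ((c35.P1 : ℤ) : ℝ) = 4000 from by norm_num [c35]]; linarith)
    (by rw [show ((c35.P2 : ℤ) : ℝ) = 4500 from by norm_num [c35]]; linarith)
    (by rw [show ((c35.v1 : ℤ) : ℝ) = 679 from by norm_num [c35]]; linarith)
    (by rw [show ((c35.v2 : ℤ) : ℝ) = 2301 from by norm_num [c35]]; linarith)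

/-- cell data -/
def c36 : Cl :=
  ⟨-10173180, 71187122, 89418853, 13400143, -13521489,
    [⟨36, -2519451, -25580420, 25704193⟩],
    17, 77, -114, -54, 200, 4269, 15769, 1999, 2249, 12, 168, 78, 382, 4500, 4625, 623, 2301⟩

theorem c36_ok : okA c36 = true := by decide +kernel

theorem c36_cell (κ b v : ℝ) (h1 : 1999 / 10000 ≤ κ) (h2 : κ ≤ 2249 / 10000)
    (h3 : 4500 / 10000 ≤ b) (h4 : b ≤ 4625 / 10000) (h5 : 623 / 10000 ≤ v) (h6 : v ≤ 2301 / 10000) :
    CellOK 1 b κ v :=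
  cell_A c36 c36_ok κ b v
    (by rw [show ((c36.K1 : ℤ) : ℝ) = 1999 from by norm_num [c36]]; linarith)
    (by rw [show ((c36.K2 : ℤ) : ℝ) = 2249 from by norm_num [c36]]; linarith)
    (by rw [show ((c36.P1 : ℤ) : ℝ) = 4500 from by norm_num [c36]]; linarith)
    (by rw [show ((c36.P2 : ℤ) : ℝ) = 4625 from by norm_num [c36]]; linarith)
    (by rw [show ((c36.v1 : ℤ) : ℝ) = 623 from by norm_num [c36]]; linarith)
    (by rw [show ((c36.v2 : ℤ) : ℝ) = 2301 from by norm_num [c36]]; linarith)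

/-- cell data -/
def c37 : Cl :=
  ⟨-8923847, 76488464, 90761962, 9996072, -13030414,
    [⟨30, -399321, -1316385, 1375619⟩,
      ⟨38, -2433712, -24709889, 24829450⟩],
    16, 78, -115, -53, 200, 4269, 15769, 1999, 2249, 11, 168, 80, 382, 4625, 4750, 623, 2301⟩

theorem c37_ok : okA c37 = true := by decide +kernel

theorem c37_cell (κ b v : ℝ) (h1 : 1999 / 10000 ≤ κ) (h2 : κ ≤ 2249 / 10000)
    (h3 : 4625 / 10000 ≤ b) (h4 : b ≤ 4750 / 10000) (h5 : 623 / 10000 ≤ v) (h6 : v ≤ 2301 / 10000) :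
    CellOK 1 b κ v :=
  cell_A c37 c37_ok κ b v
    (by rw [show ((c37.K1 : ℤ) : ℝ) = 1999 from by norm_num [c37]]; linarith)
    (by rw [show ((c37.K2 : ℤ) : ℝ) = 2249 from by norm_num [c37]]; linarith)
    (by rw [show ((c37.P1 : ℤ) : ℝ) = 4625 from by norm_num [c37]]; linarith)
    (by rw [show ((c37.P2 : ℤ) : ℝ) = 4750 from by norm_num [c37]]; linarith)
    (by rw [show ((c37.v1 : ℤ) : ℝ) = 623 from by norm_num [c37]]; linarith)
    (by rw [show ((c37.v2 : ℤ) : ℝ) = 2301 from by norm_num [c37]]; linarith)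

/-- cell data -/
def c38 : Cl :=
  ⟨-23742273, 88243101, 95765333, 4705933, -12880137,
    [⟨34, -3438792, -11336179, 11846276⟩],
    15, 79, -116, -51, 200, 4269, 15769, 1999, 2061, 8, 168, 84, 382, 4750, 5000, 623, 2301⟩

theorem c38_ok : okA c38 = true := by decide +kernel

theorem c38_cell (κ b v : ℝ) (h1 : 1999 / 10000 ≤ κ) (h2 : κ ≤ 2061 / 10000)
    (h3 : 4750 / 10000 ≤ b) (h4 : b ≤ 5000 / 10000) (h5 : 623 / 10000 ≤ v) (h6 : v ≤ 2301 / 10000) :
    CellOK 1 b κ v :=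
  cell_A c38 c38_ok κ b v
    (by rw [show ((c38.K1 : ℤ) : ℝ) = 1999 from by norm_num [c38]]; linarith)
    (by rw [show ((c38.K2 : ℤ) : ℝ) = 2061 from by norm_num [c38]]; linarith)
    (by rw [show ((c38.P1 : ℤ) : ℝ) = 4750 from by norm_num [c38]]; linarith)
    (by rw [show ((c38.P2 : ℤ) : ℝ) = 5000 from by norm_num [c38]]; linarith)
    (by rw [show ((c38.v1 : ℤ) : ℝ) = 623 from by norm_num [c38]]; linarith)
    (by rw [show ((c38.v2 : ℤ) : ℝ) = 2301 from by norm_num [c38]]; linarith)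

/-- cell data -/
def c39 : Cl :=
  ⟨-24387729, 88825043, 99040619, 4398335, -14382396,
    [⟨35, -3456734, -11395325, 11908084⟩],
    15, 80, -115, -51, 200, 4349, 15687, 2061, 2124, 12, 168, 84, 383, 4750, 5000, 638, 2301⟩

theorem c39_ok : okA c39 = true := by decide +kernel

theorem c39_cell (κ b v : ℝ) (h1 : 2061 / 10000 ≤ κ) (h2 : κ ≤ 2124 / 10000)
    (h3 : 4750 / 10000 ≤ b) (h4 : b ≤ 5000 / 10000) (h5 : 638 / 10000 ≤ v) (h6 : v ≤ 2301 / 10000) :
    CellOK 1 b κ v :=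
  cell_A c39 c39_ok κ b v
    (by rw [show ((c39.K1 : ℤ) : ℝ) = 2061 from by norm_num [c39]]; linarith)
    (by rw [show ((c39.K2 : ℤ) : ℝ) = 2124 from by norm_num [c39]]; linarith)
    (by rw [show ((c39.P1 : ℤ) : ℝ) = 4750 from by norm_num [c39]]; linarith)
    (by rw [show ((c39.P2 : ℤ) : ℝ) = 5000 from by norm_num [c39]]; linarith)
    (by rw [show ((c39.v1 : ℤ) : ℝ) = 638 from by norm_num [c39]]; linarith)
    (by rw [show ((c39.v2 : ℤ) : ℝ) = 2301 from by norm_num [c39]]; linarith)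

end Pool.Agent.H10.MK
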