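import Mathlib
import Pool.Agent.H10.MK.Cell

/-!
Cells and their certificates, checked by the kernel.
-/

namespace Pool.Agent.H10.MK

open Pool.Agent.H49.MK

/-- cell data -/
def c40 : Cl :=
  ⟨-26577849, 92049303, 108129874, 3895859, -17851420,
    [⟨36, -3418464, -11269166, 11776248⟩],
    15, 80, -115, -50, 200, 4421, 15605, 2124, 2186, 12, 167, 84, 384, 4750, 5000, 652, 2301⟩

theorem c40_ok : okA c40 = true := by decide +kernel

theorem c40_cell (κ b v : ℝ) (h1 : 2124 / 10000 ≤ κ) (h2 : κ ≤ 2186 / 10000)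
    (h3 : 4750 / 10000 ≤ b) (h4 : b ≤ 5000 / 10000) (h5 : 652 / 10000 ≤ v) (h6 : v ≤ 2301 / 10000) :
    CellOK 1 b κ v :=
  cell_A c40 c40_ok κ b v
    (by rw [show ((c40.K1 : ℤ) : ℝ) = 2124 from by norm_num [c40]]; linarith)
    (by rw [show ((c40.K2 : ℤ) : ℝ) = 2186 from by norm_num [c40]]; linarith)
    (by rw [show ((c40.P1 : ℤ) : ℝ) = 4750 from by norm_num [c40]]; linarith)
    (by rw [show ((c40.P2 : ℤ) : ℝ) = 5000 from by norm_num [c40]]; linarith)
    (by rw [show ((c40.v1 : ℤ) : ℝ) = 652 from by norm_num [c40]]; linarith)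
    (by rw [show ((c40.v2 : ℤ) : ℝ) = 2301 from by norm_num [c40]]; linarith)

/-- cell data -/
def c41 : Cl :=
  ⟨-26499153, 87654063, 98735642, 4540815, -13980780,
    [⟨34, -3480875, -11549857, 12062989⟩],
    16, 80, -114, -50, 200, 4493, 15524, 2186, 2249, 8, 167, 84, 385, 4750, 5000, 666, 2301⟩

theorem c41_ok : okA c41 = true := by decide +kernel

theorem c41_cell (κ b v : ℝ) (h1 : 2186 / 10000 ≤ κ) (h2 : κ ≤ 2249 / 10000)
    (h3 : 4750 / 10000 ≤ b) (h4 : b ≤ 5000 / 10000) (h5 : 666 / 10000 ≤ v) (h6 : v ≤ 2301 / 10000) :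
    CellOK 1 b κ v :=
  cell_A c41 c41_ok κ b v
    (by rw [show ((c41.K1 : ℤ) : ℝ) = 2186 from by norm_num [c41]]; linarith)
    (by rw [show ((c41.K2 : ℤ) : ℝ) = 2249 from by norm_num [c41]]; linarith)
    (by rw [show ((c41.P1 : ℤ) : ℝ) = 4750 from by norm_num [c41]]; linarith)
    (by rw [show ((c41.P2 : ℤ) : ℝ) = 5000 from by norm_num [c41]]; linarith)
    (by rw [show ((c41.v1 : ℤ) : ℝ) = 666 from by norm_num [c41]]; linarith)
    (by rw [show ((c41.v2 : ℤ) : ℝ) = 2301 from by norm_num [c41]]; linarith)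

/-- cell data -/
def c42 : Cl :=
  ⟨-11051641, 59833066, 58993178, 6275599, -5725804,
    [⟨30, -2598999, -26388076, 26515757⟩],
    21, 96, -140, -64, 200, 7020, 12924, 2249, 2311, 12, 175, 98, 311, 4500, 4750, 679, 1250⟩

theorem c42_ok : okA c42 = true := by decide +kernel

theorem c42_cell (κ b v : ℝ) (h1 : 2249 / 10000 ≤ κ) (h2 : κ ≤ 2311 / 10000)
    (h3 : 4500 / 10000 ≤ b) (h4 : b ≤ 4750 / 10000) (h5 : 679 / 10000 ≤ v) (h6 : v ≤ 1250 / 10000) :
    CellOK 1 b κ v :=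
  cell_A c42 c42_ok κ b v
    (by rw [show ((c42.K1 : ℤ) : ℝ) = 2249 from by norm_num [c42]]; linarith)
    (by rw [show ((c42.K2 : ℤ) : ℝ) = 2311 from by norm_num [c42]]; linarith)
    (by rw [show ((c42.P1 : ℤ) : ℝ) = 4500 from by norm_num [c42]]; linarith)
    (by rw [show ((c42.P2 : ℤ) : ℝ) = 4750 from by norm_num [c42]]; linarith)
    (by rw [show ((c42.v1 : ℤ) : ℝ) = 679 from by norm_num [c42]]; linarith)
    (by rw [show ((c42.v2 : ℤ) : ℝ) = 1250 from by norm_num [c42]]; linarith)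

/-- cell data -/
def c43 : Cl :=
  ⟨-28016864, 74054470, 77756673, 2293263, -9467758,
    [⟨30, -1478785, -15014357, 15087006⟩],
    20, 99, -141, -61, 200, 7020, 12924, 2249, 2311, 11, 175, 103, 311, 4750, 5000, 679, 1250⟩

theorem c43_ok : okA c43 = true := by decide +kernel

theorem c43_cell (κ b v : ℝ) (h1 : 2249 / 10000 ≤ κ) (h2 : κ ≤ 2311 / 10000)
    (h3 : 4750 / 10000 ≤ b) (h4 : b ≤ 5000 / 10000) (h5 : 679 / 10000 ≤ v) (h6 : v ≤ 1250 / 10000) :
    CellOK 1 b κ v :=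
  cell_A c43 c43_ok κ b v
    (by rw [show ((c43.K1 : ℤ) : ℝ) = 2249 from by norm_num [c43]]; linarith)
    (by rw [show ((c43.K2 : ℤ) : ℝ) = 2311 from by norm_num [c43]]; linarith)
    (by rw [show ((c43.P1 : ℤ) : ℝ) = 4750 from by norm_num [c43]]; linarith)
    (by rw [show ((c43.P2 : ℤ) : ℝ) = 5000 from by norm_num [c43]]; linarith)
    (by rw [show ((c43.v1 : ℤ) : ℝ) = 679 from by norm_num [c43]]; linarith)
    (by rw [show ((c43.v2 : ℤ) : ℝ) = 1250 from by norm_num [c43]]; linarith)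

/-- cell data -/
def c44 : Cl :=
  ⟨-27305029, 68353363, 66830443, 2766538, -6667241,
    [⟨28, -1363978, -13848700, 13915708⟩],
    21, 100, -139, -61, 200, 7119, 12842, 2311, 2374, 9, 173, 103, 312, 4500, 5000, 693, 1250⟩

theorem c44_ok : okA c44 = true := by decide +kernel

theorem c44_cell (κ b v : ℝ) (h1 : 2311 / 10000 ≤ κ) (h2 : κ ≤ 2374 / 10000)
    (h3 : 4500 / 10000 ≤ b) (h4 : b ≤ 5000 / 10000) (h5 : 693 / 10000 ≤ v) (h6 : v ≤ 1250 / 10000) :
    CellOK 1 b κ v :=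
  cell_A c44 c44_ok κ b v
    (by rw [show ((c44.K1 : ℤ) : ℝ) = 2311 from by norm_num [c44]]; linarith)
    (by rw [show ((c44.K2 : ℤ) : ℝ) = 2374 from by norm_num [c44]]; linarith)
    (by rw [show ((c44.P1 : ℤ) : ℝ) = 4500 from by norm_num [c44]]; linarith)
    (by rw [show ((c44.P2 : ℤ) : ℝ) = 5000 from by norm_num [c44]]; linarith)
    (by rw [show ((c44.v1 : ℤ) : ℝ) = 693 from by norm_num [c44]]; linarith)
    (by rw [show ((c44.v2 : ℤ) : ℝ) = 1250 from by norm_num [c44]]; linarith)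

/-- cell data -/
def c45 : Cl :=
  ⟨14013090, 98043433, 96083469, 6071466, -18605129,
    [⟨9, -51832656, -5105071, 52083453⟩,
      ⟨35, -3609543, -11899070, 12434496⟩],
    16, 74, -103, -45, 200, 7052, 12983, 2249, 2374, 12, 153, 77, 421, 4500, 5000, 1250, 2301⟩

theorem c45_ok : okA c45 = true := by decide +kernel

theorem c45_cell (κ b v : ℝ) (h1 : 2249 / 10000 ≤ κ) (h2 : κ ≤ 2374 / 10000)
    (h3 : 4500 / 10000 ≤ b) (h4 : b ≤ 5000 / 10000) (h5 : 1250 / 10000 ≤ v) (h6 : v ≤ 2301 / 10000) :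
    CellOK 1 b κ v :=
  cell_A c45 c45_ok κ b v
    (by rw [show ((c45.K1 : ℤ) : ℝ) = 2249 from by norm_num [c45]]; linarith)
    (by rw [show ((c45.K2 : ℤ) : ℝ) = 2374 from by norm_num [c45]]; linarith)
    (by rw [show ((c45.P1 : ℤ) : ℝ) = 4500 from by norm_num [c45]]; linarith)
    (by rw [show ((c45.P2 : ℤ) : ℝ) = 5000 from by norm_num [c45]]; linarith)
    (by rw [show ((c45.v1 : ℤ) : ℝ) = 1250 from by norm_num [c45]]; linarith)
    (by rw [show ((c45.v2 : ℤ) : ℝ) = 2301 from by norm_num [c45]]; linarith)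

/-- cell data -/
def c46 : Cl :=
  ⟨-13715745, 72302689, 98444073, 11399584, -16366989,
    [⟨38, 2670579, -27114844, 27246042⟩],
    18, 79, -111, -50, 200, 4689, 15285, 2374, 2500, 11, 165, 79, 388, 4500, 4750, 706, 2301⟩

theorem c46_ok : okA c46 = true := by decide +kernel

theorem c46_cell (κ b v : ℝ) (h1 : 2374 / 10000 ≤ κ) (h2 : κ ≤ 2500 / 10000)
    (h3 : 4500 / 10000 ≤ b) (h4 : b ≤ 4750 / 10000) (h5 : 706 / 10000 ≤ v) (h6 : v ≤ 2301 / 10000) :
    CellOK 1 b κ v :=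
  cell_A c46 c46_ok κ b v
    (by rw [show ((c46.K1 : ℤ) : ℝ) = 2374 from by norm_num [c46]]; linarith)
    (by rw [show ((c46.K2 : ℤ) : ℝ) = 2500 from by norm_num [c46]]; linarith)
    (by rw [show ((c46.P1 : ℤ) : ℝ) = 4500 from by norm_num [c46]]; linarith)
    (by rw [show ((c46.P2 : ℤ) : ℝ) = 4750 from by norm_num [c46]]; linarith)
    (by rw [show ((c46.v1 : ℤ) : ℝ) = 706 from by norm_num [c46]]; linarith)
    (by rw [show ((c46.v2 : ℤ) : ℝ) = 2301 from by norm_num [c46]]; linarith)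

/-- cell data -/
def c47 : Cl :=
  ⟨-29312633, 88165144, 113055537, 4699266, -19697182,
    [⟨36, -1422606, -14443966, 14513855⟩],
    17, 81, -111, -48, 200, 4689, 15285, 2374, 2500, 12, 165, 83, 388, 4750, 5000, 706, 2301⟩

theorem c47_ok : okA c47 = true := by decide +kernel

theorem c47_cell (κ b v : ℝ) (h1 : 2374 / 10000 ≤ κ) (h2 : κ ≤ 2500 / 10000)
    (h3 : 4750 / 10000 ≤ b) (h4 : b ≤ 5000 / 10000) (h5 : 706 / 10000 ≤ v) (h6 : v ≤ 2301 / 10000) :
    CellOK 1 b κ v :=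
  cell_A c47 c47_ok κ b v
    (by rw [show ((c47.K1 : ℤ) : ℝ) = 2374 from by norm_num [c47]]; linarith)
    (by rw [show ((c47.K2 : ℤ) : ℝ) = 2500 from by norm_num [c47]]; linarith)
    (by rw [show ((c47.P1 : ℤ) : ℝ) = 4750 from by norm_num [c47]]; linarith)
    (by rw [show ((c47.P2 : ℤ) : ℝ) = 5000 from by norm_num [c47]]; linarith)
    (by rw [show ((c47.v1 : ℤ) : ℝ) = 706 from by norm_num [c47]]; linarith)
    (by rw [show ((c47.v2 : ℤ) : ℝ) = 2301 from by norm_num [c47]]; linarith)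

end Pool.Agent.H10.MK
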