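import Mathlib
import Pool.Agent.H10.MK.Cell

/-!
Cells and their certificates, checked by the kernel.
-/

namespace Pool.Agent.H10.MK

open Pool.Agent.H49.MK

/-- cell data -/
def c48 : Cl :=
  ⟨-17110785, 118235791, 90771435, 12717807, -17031145,
    [⟨35, -11574145, -21653702, 24552875⟩],
    13, 54, -73, -32, 200, 6840, 13146, 1999, 2500, 12, 111, 56, 580, 4000, 5000, 2301, 4422⟩

theorem c48_ok : okA c48 = true := by decide +kernel

theorem c48_cell (κ b v : ℝ) (h1 : 1999 / 10000 ≤ κ) (h2 : κ ≤ 2500 / 10000)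
    (h3 : 4000 / 10000 ≤ b) (h4 : b ≤ 5000 / 10000) (h5 : 2301 / 10000 ≤ v) (h6 : v ≤ 4422 / 10000) :
    CellOK 1 b κ v :=
  cell_A c48 c48_ok κ b v
    (by rw [show ((c48.K1 : ℤ) : ℝ) = 1999 from by norm_num [c48]]; linarith)
    (by rw [show ((c48.K2 : ℤ) : ℝ) = 2500 from by norm_num [c48]]; linarith)
    (by rw [show ((c48.P1 : ℤ) : ℝ) = 4000 from by norm_num [c48]]; linarith)
    (by rw [show ((c48.P2 : ℤ) : ℝ) = 5000 from by norm_num [c48]]; linarith)
    (by rw [show ((c48.v1 : ℤ) : ℝ) = 2301 from by norm_num [c48]]; linarith)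
    (by rw [show ((c48.v2 : ℤ) : ℝ) = 4422 from by norm_num [c48]]; linarith)

/-- cell data -/
def c49 : Cl :=
  ⟨662724729, 133107788, -195361884, 10926133, -682884,
    [⟨9, -663900703, 65388512, 667113035⟩,
      ⟨35, -28801448, -35724721, 45888769⟩],
    10, 39, -52, -23, 200, 6840, 13150, 1999, 2500, 12, 80, 40, 804, 4000, 5000, 4422, 8500⟩

theorem c49_ok : okA c49 = true := by decide +kernel

theorem c49_cell (κ b v : ℝ) (h1 : 1999 / 10000 ≤ κ) (h2 : κ ≤ 2500 / 10000)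
    (h3 : 4000 / 10000 ≤ b) (h4 : b ≤ 5000 / 10000) (h5 : 4422 / 10000 ≤ v) (h6 : v ≤ 8500 / 10000) :
    CellOK 1 b κ v :=
  cell_A c49 c49_ok κ b v
    (by rw [show ((c49.K1 : ℤ) : ℝ) = 1999 from by norm_num [c49]]; linarith)
    (by rw [show ((c49.K2 : ℤ) : ℝ) = 2500 from by norm_num [c49]]; linarith)
    (by rw [show ((c49.P1 : ℤ) : ℝ) = 4000 from by norm_num [c49]]; linarith)
    (by rw [show ((c49.P2 : ℤ) : ℝ) = 5000 from by norm_num [c49]]; linarith)
    (by rw [show ((c49.v1 : ℤ) : ℝ) = 4422 from by norm_num [c49]]; linarith)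
    (by rw [show ((c49.v2 : ℤ) : ℝ) = 8500 from by norm_num [c49]]; linarith)

/-- cell data -/
def c50 : Cl :=
  ⟨-45012330, 93257842, 104245278, 84181, -16086647,
    [⟨38, -559749, -1845247, 1928278⟩],
    18, 109, -150, -59, 200, 6790, 13174, 1999, 2124, 11, 184, 119, 297, 5000, 5500, 599, 1162⟩

theorem c50_ok : okA c50 = true := by decide +kernel

theorem c50_cell (κ b v : ℝ) (h1 : 1999 / 10000 ≤ κ) (h2 : κ ≤ 2124 / 10000)
    (h3 : 5000 / 10000 ≤ b) (h4 : b ≤ 5500 / 10000) (h5 : 599 / 10000 ≤ v) (h6 : v ≤ 1162 / 10000) :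
    CellOK 1 b κ v :=
  cell_A c50 c50_ok κ b v
    (by rw [show ((c50.K1 : ℤ) : ℝ) = 1999 from by norm_num [c50]]; linarith)
    (by rw [show ((c50.K2 : ℤ) : ℝ) = 2124 from by norm_num [c50]]; linarith)
    (by rw [show ((c50.P1 : ℤ) : ℝ) = 5000 from by norm_num [c50]]; linarith)
    (by rw [show ((c50.P2 : ℤ) : ℝ) = 5500 from by norm_num [c50]]; linarith)
    (by rw [show ((c50.v1 : ℤ) : ℝ) = 599 from by norm_num [c50]]; linarith)
    (by rw [show ((c50.v2 : ℤ) : ℝ) = 1162 from by norm_num [c50]]; linarith)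

/-- cell data -/
def c51 : Cl :=
  ⟨-52491514, 95910697, 114456530, 0, -18688258,
    [⟨26, -69112, -227833, 238085⟩,
      ⟨39, -6491, -21399, 22362⟩],
    19, 109, -148, -58, 200, 7013, 12998, 2124, 2249, 11, 179, 118, 299, 5000, 5500, 627, 1162⟩

theorem c51_ok : okA c51 = true := by decide +kernel

theorem c51_cell (κ b v : ℝ) (h1 : 2124 / 10000 ≤ κ) (h2 : κ ≤ 2249 / 10000)
    (h3 : 5000 / 10000 ≤ b) (h4 : b ≤ 5500 / 10000) (h5 : 627 / 10000 ≤ v) (h6 : v ≤ 1162 / 10000) :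
    CellOK 1 b κ v :=
  cell_A c51 c51_ok κ b v
    (by rw [show ((c51.K1 : ℤ) : ℝ) = 2124 from by norm_num [c51]]; linarith)
    (by rw [show ((c51.K2 : ℤ) : ℝ) = 2249 from by norm_num [c51]]; linarith)
    (by rw [show ((c51.P1 : ℤ) : ℝ) = 5000 from by norm_num [c51]]; linarith)
    (by rw [show ((c51.P2 : ℤ) : ℝ) = 5500 from by norm_num [c51]]; linarith)
    (by rw [show ((c51.v1 : ℤ) : ℝ) = 627 from by norm_num [c51]]; linarith)
    (by rw [show ((c51.v2 : ℤ) : ℝ) = 1162 from by norm_num [c51]]; linarith)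

/-- cell data -/
def c52 : Cl :=
  ⟨-32989483, 96034995, 107589307, 3237626, -17604878,
    [⟨35, -4466036, -8355365, 9474049⟩],
    14, 79, -107, -42, 200, 6812, 13227, 1999, 2249, 12, 155, 86, 413, 5000, 5500, 1162, 2256⟩

theorem c52_ok : okA c52 = true := by decide +kernel

theorem c52_cell (κ b v : ℝ) (h1 : 1999 / 10000 ≤ κ) (h2 : κ ≤ 2249 / 10000)
    (h3 : 5000 / 10000 ≤ b) (h4 : b ≤ 5500 / 10000) (h5 : 1162 / 10000 ≤ v) (h6 : v ≤ 2256 / 10000) :
    CellOK 1 b κ v :=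
  cell_A c52 c52_ok κ b v
    (by rw [show ((c52.K1 : ℤ) : ℝ) = 1999 from by norm_num [c52]]; linarith)
    (by rw [show ((c52.K2 : ℤ) : ℝ) = 2249 from by norm_num [c52]]; linarith)
    (by rw [show ((c52.P1 : ℤ) : ℝ) = 5000 from by norm_num [c52]]; linarith)
    (by rw [show ((c52.P2 : ℤ) : ℝ) = 5500 from by norm_num [c52]]; linarith)
    (by rw [show ((c52.v1 : ℤ) : ℝ) = 1162 from by norm_num [c52]]; linarith)
    (by rw [show ((c52.v2 : ℤ) : ℝ) = 2256 from by norm_num [c52]]; linarith)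

/-- cell data -/
def c53 : Cl :=
  ⟨-49936956, 96292972, 116057716, 111415, -19715007,
    [⟨26, -1132027, -3731795, 3899716⟩,
      ⟨39, -90582, -298610, 312047⟩],
    19, 104, -144, -59, 200, 6973, 12966, 2249, 2311, 11, 175, 110, 306, 5000, 5250, 653, 1214⟩

theorem c53_ok : okA c53 = true := by decide +kernel

theorem c53_cell (κ b v : ℝ) (h1 : 2249 / 10000 ≤ κ) (h2 : κ ≤ 2311 / 10000)
    (h3 : 5000 / 10000 ≤ b) (h4 : b ≤ 5250 / 10000) (h5 : 653 / 10000 ≤ v) (h6 : v ≤ 1214 / 10000) :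
    CellOK 1 b κ v :=
  cell_A c53 c53_ok κ b v
    (by rw [show ((c53.K1 : ℤ) : ℝ) = 2249 from by norm_num [c53]]; linarith)
    (by rw [show ((c53.K2 : ℤ) : ℝ) = 2311 from by norm_num [c53]]; linarith)
    (by rw [show ((c53.P1 : ℤ) : ℝ) = 5000 from by norm_num [c53]]; linarith)
    (by rw [show ((c53.P2 : ℤ) : ℝ) = 5250 from by norm_num [c53]]; linarith)
    (by rw [show ((c53.v1 : ℤ) : ℝ) = 653 from by norm_num [c53]]; linarith)
    (by rw [show ((c53.v2 : ℤ) : ℝ) = 1214 from by norm_num [c53]]; linarith)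

/-- cell data -/
def c54 : Cl :=
  ⟨-46045946, 91071137, 109948139, 493860, -17964812,
    [⟨28, -826694, -8393569, 8434182⟩],
    20, 104, -143, -58, 200, 7066, 12881, 2311, 2374, 10, 173, 110, 307, 5000, 5250, 666, 1214⟩

theorem c54_ok : okA c54 = true := by decide +kernel

theorem c54_cell (κ b v : ℝ) (h1 : 2311 / 10000 ≤ κ) (h2 : κ ≤ 2374 / 10000)
    (h3 : 5000 / 10000 ≤ b) (h4 : b ≤ 5250 / 10000) (h5 : 666 / 10000 ≤ v) (h6 : v ≤ 1214 / 10000) :
    CellOK 1 b κ v :=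
  cell_A c54 c54_ok κ b v
    (by rw [show ((c54.K1 : ℤ) : ℝ) = 2311 from by norm_num [c54]]; linarith)
    (by rw [show ((c54.K2 : ℤ) : ℝ) = 2374 from by norm_num [c54]]; linarith)
    (by rw [show ((c54.P1 : ℤ) : ℝ) = 5000 from by norm_num [c54]]; linarith)
    (by rw [show ((c54.P2 : ℤ) : ℝ) = 5250 from by norm_num [c54]]; linarith)
    (by rw [show ((c54.v1 : ℤ) : ℝ) = 666 from by norm_num [c54]]; linarith)
    (by rw [show ((c54.v2 : ℤ) : ℝ) = 1214 from by norm_num [c54]]; linarith)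

/-- cell data -/
def c55 : Cl :=
  ⟨-35685673, 94563368, 112723127, 4304559, -19161396,
    [⟨35, -3309863, -10911155, 11402127⟩],
    15, 77, -105, -43, 200, 6981, 12974, 2249, 2374, 12, 154, 81, 417, 5000, 5250, 1214, 2256⟩

theorem c55_ok : okA c55 = true := by decide +kernel

theorem c55_cell (κ b v : ℝ) (h1 : 2249 / 10000 ≤ κ) (h2 : κ ≤ 2374 / 10000)
    (h3 : 5000 / 10000 ≤ b) (h4 : b ≤ 5250 / 10000) (h5 : 1214 / 10000 ≤ v) (h6 : v ≤ 2256 / 10000) :
    CellOK 1 b κ v :=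
  cell_A c55 c55_ok κ b v
    (by rw [show ((c55.K1 : ℤ) : ℝ) = 2249 from by norm_num [c55]]; linarith)
    (by rw [show ((c55.K2 : ℤ) : ℝ) = 2374 from by norm_num [c55]]; linarith)
    (by rw [show ((c55.P1 : ℤ) : ℝ) = 5000 from by norm_num [c55]]; linarith)
    (by rw [show ((c55.P2 : ℤ) : ℝ) = 5250 from by norm_num [c55]]; linarith)
    (by rw [show ((c55.v1 : ℤ) : ℝ) = 1214 from by norm_num [c55]]; linarith)
    (by rw [show ((c55.v2 : ℤ) : ℝ) = 2256 from by norm_num [c55]]; linarith)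

end Pool.Agent.H10.MK
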