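import Mathlib
import Pool.Agent.H10.MK.Cell

/-!
Cells and their certificates, checked by the kernel.
-/

namespace Pool.Agent.H10.MK

open Pool.Agent.H49.MK

/-- cell data -/
def c56 : Cl :=
  ⟨-26270733, 94129497, 107429909, 1411778, -18466880,
    [⟨35, -3504701, -11553451, 12073325⟩,
      ⟨45, -77427, -255242, 266728⟩],
    15, 87, -116, -45, 200, 4498, 15542, 2249, 2374, 9, 168, 93, 381, 5250, 5500, 653, 2256⟩

theorem c56_ok : okA c56 = true := by decide +kernel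

theorem c56_cell (κ b v : ℝ) (h1 : 2249 / 10000 ≤ κ) (h2 : κ ≤ 2374 / 10000)
    (h3 : 5250 / 10000 ≤ b) (h4 : b ≤ 5500 / 10000) (h5 : 653 / 10000 ≤ v) (h6 : v ≤ 2256 / 10000) :
    CellOK 1 b κ v :=
  cell_A c56 c56_ok κ b v
    (by rw [show ((c56.K1 : ℤ) : ℝ) = 2249 from by norm_num [c56]]; linarith)
    (by rw [show ((c56.K2 : ℤ) : ℝ) = 2374 from by norm_num [c56]]; linarith)
    (by rw [show ((c56.P1 : ℤ) : ℝ) = 5250 from by norm_num [c56]]; linarith)
    (by rw [show ((c56.P2 : ℤ) : ℝ) = 5500 from by norm_num [c56]]; linarith)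
    (by rw [show ((c56.v1 : ℤ) : ℝ) = 653 from by norm_num [c56]]; linarith)
    (by rw [show ((c56.v2 : ℤ) : ℝ) = 2256 from by norm_num [c56]]; linarith)

/-- cell data -/
def c57 : Cl :=
  ⟨-28485992, 94038661, 111133857, 1556311, -19462077,
    [⟨35, -3722009, -12269820, 12821928⟩,
      ⟨45, -128324, -423027, 442063⟩],
    16, 87, -114, -44, 200, 4622, 15380, 2374, 2437, 9, 168, 92, 383, 5000, 5500, 678, 2256⟩

theorem c57_ok : okA c57 = true := by decide +kernel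

theorem c57_cell (κ b v : ℝ) (h1 : 2374 / 10000 ≤ κ) (h2 : κ ≤ 2437 / 10000)
    (h3 : 5000 / 10000 ≤ b) (h4 : b ≤ 5500 / 10000) (h5 : 678 / 10000 ≤ v) (h6 : v ≤ 2256 / 10000) :
    CellOK 1 b κ v :=
  cell_A c57 c57_ok κ b v
    (by rw [show ((c57.K1 : ℤ) : ℝ) = 2374 from by norm_num [c57]]; linarith)
    (by rw [show ((c57.K2 : ℤ) : ℝ) = 2437 from by norm_num [c57]]; linarith)
    (by rw [show ((c57.P1 : ℤ) : ℝ) = 5000 from by norm_num [c57]]; linarith)
    (by rw [show ((c57.P2 : ℤ) : ℝ) = 5500 from by norm_num [c57]]; linarith)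
    (by rw [show ((c57.v1 : ℤ) : ℝ) = 678 from by norm_num [c57]]; linarith)
    (by rw [show ((c57.v2 : ℤ) : ℝ) = 2256 from by norm_num [c57]]; linarith)

/-- cell data -/
def c58 : Cl :=
  ⟨-33095148, 87621424, 102513342, 678140, -16550337,
    [⟨28, -1652299, -16776075, 16857248⟩,
      ⟨42, -550710, -5591451, 5618506⟩],
    21, 104, -140, -57, 200, 7144, 12914, 2437, 2500, 10, 170, 109, 311, 5000, 5250, 691, 1249⟩

theorem c58_ok : okA c58 = true := by decide +kernel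

theorem c58_cell (κ b v : ℝ) (h1 : 2437 / 10000 ≤ κ) (h2 : κ ≤ 2500 / 10000)
    (h3 : 5000 / 10000 ≤ b) (h4 : b ≤ 5250 / 10000) (h5 : 691 / 10000 ≤ v) (h6 : v ≤ 1249 / 10000) :
    CellOK 1 b κ v :=
  cell_A c58 c58_ok κ b v
    (by rw [show ((c58.K1 : ℤ) : ℝ) = 2437 from by norm_num [c58]]; linarith)
    (by rw [show ((c58.K2 : ℤ) : ℝ) = 2500 from by norm_num [c58]]; linarith)
    (by rw [show ((c58.P1 : ℤ) : ℝ) = 5000 from by norm_num [c58]]; linarith)
    (by rw [show ((c58.P2 : ℤ) : ℝ) = 5250 from by norm_num [c58]]; linarith)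
    (by rw [show ((c58.v1 : ℤ) : ℝ) = 691 from by norm_num [c58]]; linarith)
    (by rw [show ((c58.v2 : ℤ) : ℝ) = 1249 from by norm_num [c58]]; linarith)

/-- cell data -/
def c59 : Cl :=
  ⟨-45084513, 98167097, 116548501, 0, -20755910,
    [⟨25, -2910054, -9593164, 10024830⟩,
      ⟨45, -417929, -4243305, 4263837⟩],
    20, 107, -141, -54, 200, 7144, 12914, 2437, 2500, 9, 170, 114, 311, 5250, 5500, 691, 1249⟩

theorem c59_ok : okA c59 = true := by decide +kernel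

theorem c59_cell (κ b v : ℝ) (h1 : 2437 / 10000 ≤ κ) (h2 : κ ≤ 2500 / 10000)
    (h3 : 5250 / 10000 ≤ b) (h4 : b ≤ 5500 / 10000) (h5 : 691 / 10000 ≤ v) (h6 : v ≤ 1249 / 10000) :
    CellOK 1 b κ v :=
  cell_A c59 c59_ok κ b v
    (by rw [show ((c59.K1 : ℤ) : ℝ) = 2437 from by norm_num [c59]]; linarith)
    (by rw [show ((c59.K2 : ℤ) : ℝ) = 2500 from by norm_num [c59]]; linarith)
    (by rw [show ((c59.P1 : ℤ) : ℝ) = 5250 from by norm_num [c59]]; linarith)
    (by rw [show ((c59.P2 : ℤ) : ℝ) = 5500 from by norm_num [c59]]; linarith)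
    (by rw [show ((c59.v1 : ℤ) : ℝ) = 691 from by norm_num [c59]]; linarith)
    (by rw [show ((c59.v2 : ℤ) : ℝ) = 1249 from by norm_num [c59]]; linarith)

/-- cell data -/
def c60 : Cl :=
  ⟨-9336383, 99463782, 102268096, 2563525, -19286214,
    [⟨9, -27465577, -2705123, 27598472⟩,
      ⟨35, -5122754, -9583999, 10867183⟩],
    15, 80, -104, -40, 200, 7114, 12851, 2437, 2500, 12, 153, 85, 419, 5000, 5500, 1249, 2256⟩

theorem c60_ok : okA c60 = true := by decide +kernel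

theorem c60_cell (κ b v : ℝ) (h1 : 2437 / 10000 ≤ κ) (h2 : κ ≤ 2500 / 10000)
    (h3 : 5000 / 10000 ≤ b) (h4 : b ≤ 5500 / 10000) (h5 : 1249 / 10000 ≤ v) (h6 : v ≤ 2256 / 10000) :
    CellOK 1 b κ v :=
  cell_A c60 c60_ok κ b v
    (by rw [show ((c60.K1 : ℤ) : ℝ) = 2437 from by norm_num [c60]]; linarith)
    (by rw [show ((c60.K2 : ℤ) : ℝ) = 2500 from by norm_num [c60]]; linarith)
    (by rw [show ((c60.P1 : ℤ) : ℝ) = 5000 from by norm_num [c60]]; linarith)
    (by rw [show ((c60.P2 : ℤ) : ℝ) = 5500 from by norm_num [c60]]; linarith)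
    (by rw [show ((c60.v1 : ℤ) : ℝ) = 1249 from by norm_num [c60]]; linarith)
    (by rw [show ((c60.v2 : ℤ) : ℝ) = 2256 from by norm_num [c60]]; linarith)

/-- cell data -/
def c61 : Cl :=
  ⟨154974227, 150197196, -67105972, 13931393, -1431983,
    [⟨15, -156905341, 15453827, 157664539⟩,
      ⟨35, -22989911, -25552895, 34372758⟩],
    9, 46, -59, -23, 200, 4198, 15821, 1999, 2500, 12, 88, 49, 733, 5000, 5500, 2256, 8500⟩

theorem c61_ok : okA c61 = true := by decide +kernel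

theorem c61_cell (κ b v : ℝ) (h1 : 1999 / 10000 ≤ κ) (h2 : κ ≤ 2500 / 10000)
    (h3 : 5000 / 10000 ≤ b) (h4 : b ≤ 5500 / 10000) (h5 : 2256 / 10000 ≤ v) (h6 : v ≤ 8500 / 10000) :
    CellOK 1 b κ v :=
  cell_A c61 c61_ok κ b v
    (by rw [show ((c61.K1 : ℤ) : ℝ) = 1999 from by norm_num [c61]]; linarith)
    (by rw [show ((c61.K2 : ℤ) : ℝ) = 2500 from by norm_num [c61]]; linarith)
    (by rw [show ((c61.P1 : ℤ) : ℝ) = 5000 from by norm_num [c61]]; linarith)
    (by rw [show ((c61.P2 : ℤ) : ℝ) = 5500 from by norm_num [c61]]; linarith)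
    (by rw [show ((c61.v1 : ℤ) : ℝ) = 2256 from by norm_num [c61]]; linarith)
    (by rw [show ((c61.v2 : ℤ) : ℝ) = 8500 from by norm_num [c61]]; linarith)

/-- cell data -/
def c62 : Cl :=
  ⟨-36675682, 94372729, 104747332, 0, -16516847,
    [⟨36, -4094848, -7660922, 8686629⟩],
    17, 119, -157, -54, 200, 6739, 13311, 1999, 2124, 12, 185, 134, 288, 5500, 6000, 559, 1104⟩

theorem c62_ok : okA c62 = true := by decide +kernel

theorem c62_cell (κ b v : ℝ) (h1 : 1999 / 10000 ≤ κ) (h2 : κ ≤ 2124 / 10000)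
    (h3 : 5500 / 10000 ≤ b) (h4 : b ≤ 6000 / 10000) (h5 : 559 / 10000 ≤ v) (h6 : v ≤ 1104 / 10000) :
    CellOK 1 b κ v :=
  cell_A c62 c62_ok κ b v
    (by rw [show ((c62.K1 : ℤ) : ℝ) = 1999 from by norm_num [c62]]; linarith)
    (by rw [show ((c62.K2 : ℤ) : ℝ) = 2124 from by norm_num [c62]]; linarith)
    (by rw [show ((c62.P1 : ℤ) : ℝ) = 5500 from by norm_num [c62]]; linarith)
    (by rw [show ((c62.P2 : ℤ) : ℝ) = 6000 from by norm_num [c62]]; linarith)
    (by rw [show ((c62.v1 : ℤ) : ℝ) = 559 from by norm_num [c62]]; linarith)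
    (by rw [show ((c62.v2 : ℤ) : ℝ) = 1104 from by norm_num [c62]]; linarith)

/-- cell data -/
def c63 : Cl :=
  ⟨-50454215, 97180724, 115251813, 0, -19312688,
    [⟨26, -86405, -284841, 297658⟩,
      ⟨39, -46263, -152507, 159370⟩],
    18, 119, -154, -53, 200, 6908, 13038, 2124, 2249, 11, 179, 132, 291, 5500, 6000, 585, 1104⟩

theorem c63_ok : okA c63 = true := by decide +kernel

theorem c63_cell (κ b v : ℝ) (h1 : 2124 / 10000 ≤ κ) (h2 : κ ≤ 2249 / 10000)
    (h3 : 5500 / 10000 ≤ b) (h4 : b ≤ 6000 / 10000) (h5 : 585 / 10000 ≤ v) (h6 : v ≤ 1104 / 10000) :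
    CellOK 1 b κ v :=
  cell_A c63 c63_ok κ b v
    (by rw [show ((c63.K1 : ℤ) : ℝ) = 2124 from by norm_num [c63]]; linarith)
    (by rw [show ((c63.K2 : ℤ) : ℝ) = 2249 from by norm_num [c63]]; linarith)
    (by rw [show ((c63.P1 : ℤ) : ℝ) = 5500 from by norm_num [c63]]; linarith)
    (by rw [show ((c63.P2 : ℤ) : ℝ) = 6000 from by norm_num [c63]]; linarith)
    (by rw [show ((c63.v1 : ℤ) : ℝ) = 585 from by norm_num [c63]]; linarith)
    (by rw [show ((c63.v2 : ℤ) : ℝ) = 1104 from by norm_num [c63]]; linarith)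

end Pool.Agent.H10.MK
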