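import Mathlib
import Pool.Agent.H10.MK.Cell

/-!
Cells and their certificates, checked by the kernel.
-/

namespace Pool.Agent.H10.MK

open Pool.Agent.H49.MK

/-- cell data -/
def c64 : Cl :=
  ⟨-30553664, 95118334, 100053810, 1315228, -16081765,
    [⟨35, -3640556, -6811000, 7722912⟩],
    13, 86, -110, -38, 200, 6730, 13291, 1999, 2249, 12, 159, 95, 405, 5500, 6000, 1104, 2180⟩

theorem c64_ok : okA c64 = true := by decide +kernel

theorem c64_cell (κ b v : ℝ) (h1 : 1999 / 10000 ≤ κ) (h2 : κ ≤ 2249 / 10000)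
    (h3 : 5500 / 10000 ≤ b) (h4 : b ≤ 6000 / 10000) (h5 : 1104 / 10000 ≤ v) (h6 : v ≤ 2180 / 10000) :
    CellOK 1 b κ v :=
  cell_A c64 c64_ok κ b v
    (by rw [show ((c64.K1 : ℤ) : ℝ) = 1999 from by norm_num [c64]]; linarith)
    (by rw [show ((c64.K2 : ℤ) : ℝ) = 2249 from by norm_num [c64]]; linarith)
    (by rw [show ((c64.P1 : ℤ) : ℝ) = 5500 from by norm_num [c64]]; linarith)
    (by rw [show ((c64.P2 : ℤ) : ℝ) = 6000 from by norm_num [c64]]; linarith)
    (by rw [show ((c64.v1 : ℤ) : ℝ) = 1104 from by norm_num [c64]]; linarith)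
    (by rw [show ((c64.v2 : ℤ) : ℝ) = 2180 from by norm_num [c64]]; linarith)

/-- cell data -/
def c65 : Cl :=
  ⟨-49269194, 97445838, 118536549, 0, -20424807,
    [⟨26, -1044597, -3443576, 3598528⟩,
      ⟨39, -566019, -1865914, 1949876⟩],
    19, 118, -149, -50, 200, 6915, 13072, 2249, 2500, 11, 176, 130, 297, 5500, 6000, 610, 1153⟩

theorem c65_ok : okA c65 = true := by decide +kernel

theorem c65_cell (κ b v : ℝ) (h1 : 2249 / 10000 ≤ κ) (h2 : κ ≤ 2500 / 10000)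
    (h3 : 5500 / 10000 ≤ b) (h4 : b ≤ 6000 / 10000) (h5 : 610 / 10000 ≤ v) (h6 : v ≤ 1153 / 10000) :
    CellOK 1 b κ v :=
  cell_A c65 c65_ok κ b v
    (by rw [show ((c65.K1 : ℤ) : ℝ) = 2249 from by norm_num [c65]]; linarith)
    (by rw [show ((c65.K2 : ℤ) : ℝ) = 2500 from by norm_num [c65]]; linarith)
    (by rw [show ((c65.P1 : ℤ) : ℝ) = 5500 from by norm_num [c65]]; linarith)
    (by rw [show ((c65.P2 : ℤ) : ℝ) = 6000 from by norm_num [c65]]; linarith)
    (by rw [show ((c65.v1 : ℤ) : ℝ) = 610 from by norm_num [c65]]; linarith)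
    (by rw [show ((c65.v2 : ℤ) : ℝ) = 1153 from by norm_num [c65]]; linarith)

/-- cell data -/
def c66 : Cl :=
  ⟨-34831293, 97783091, 107742533, 731446, -18429839,
    [⟨35, -3884720, -7267801, 8240873⟩],
    14, 86, -108, -36, 200, 6926, 13096, 2249, 2500, 12, 157, 95, 408, 5500, 6000, 1153, 2180⟩

theorem c66_ok : okA c66 = true := by decide +kernel

theorem c66_cell (κ b v : ℝ) (h1 : 2249 / 10000 ≤ κ) (h2 : κ ≤ 2500 / 10000)
    (h3 : 5500 / 10000 ≤ b) (h4 : b ≤ 6000 / 10000) (h5 : 1153 / 10000 ≤ v) (h6 : v ≤ 2180 / 10000) :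
    CellOK 1 b κ v :=
  cell_A c66 c66_ok κ b v
    (by rw [show ((c66.K1 : ℤ) : ℝ) = 2249 from by norm_num [c66]]; linarith)
    (by rw [show ((c66.K2 : ℤ) : ℝ) = 2500 from by norm_num [c66]]; linarith)
    (by rw [show ((c66.P1 : ℤ) : ℝ) = 5500 from by norm_num [c66]]; linarith)
    (by rw [show ((c66.P2 : ℤ) : ℝ) = 6000 from by norm_num [c66]]; linarith)
    (by rw [show ((c66.v1 : ℤ) : ℝ) = 1153 from by norm_num [c66]]; linarith)
    (by rw [show ((c66.v2 : ℤ) : ℝ) = 2180 from by norm_num [c66]]; linarith)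

/-- cell data -/
def c67 : Cl :=
  ⟨22792642, 176512338, 39819693, 7935478, -10203630,
    [⟨30, -47536750, -25408922, 53901354⟩],
    8, 48, -60, -20, 200, 4079, 15907, 1999, 2500, 12, 88, 53, 731, 5500, 6000, 2180, 8500⟩

theorem c67_ok : okA c67 = true := by decide +kernel

theorem c67_cell (κ b v : ℝ) (h1 : 1999 / 10000 ≤ κ) (h2 : κ ≤ 2500 / 10000)
    (h3 : 5500 / 10000 ≤ b) (h4 : b ≤ 6000 / 10000) (h5 : 2180 / 10000 ≤ v) (h6 : v ≤ 8500 / 10000) :
    CellOK 1 b κ v :=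
  cell_A c67 c67_ok κ b v
    (by rw [show ((c67.K1 : ℤ) : ℝ) = 1999 from by norm_num [c67]]; linarith)
    (by rw [show ((c67.K2 : ℤ) : ℝ) = 2500 from by norm_num [c67]]; linarith)
    (by rw [show ((c67.P1 : ℤ) : ℝ) = 5500 from by norm_num [c67]]; linarith)
    (by rw [show ((c67.P2 : ℤ) : ℝ) = 6000 from by norm_num [c67]]; linarith)
    (by rw [show ((c67.v1 : ℤ) : ℝ) = 2180 from by norm_num [c67]]; linarith)
    (by rw [show ((c67.v2 : ℤ) : ℝ) = 8500 from by norm_num [c67]]; linarith)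

/-- cell data -/
def c68 : Cl :=
  ⟨-36495604, 94575863, 105332038, 0, -16687388,
    [⟨36, -4136564, -7738966, 8775122⟩],
    17, 139, -163, -41, 200, 6611, 13354, 1999, 2249, 12, 185, 162, 278, 6000, 7000, 511, 1032⟩

theorem c68_ok : okA c68 = true := by decide +kernel

theorem c68_cell (κ b v : ℝ) (h1 : 1999 / 10000 ≤ κ) (h2 : κ ≤ 2249 / 10000)
    (h3 : 6000 / 10000 ≤ b) (h4 : b ≤ 7000 / 10000) (h5 : 511 / 10000 ≤ v) (h6 : v ≤ 1032 / 10000) :
    CellOK 1 b κ v :=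
  cell_A c68 c68_ok κ b v
    (by rw [show ((c68.K1 : ℤ) : ℝ) = 1999 from by norm_num [c68]]; linarith)
    (by rw [show ((c68.K2 : ℤ) : ℝ) = 2249 from by norm_num [c68]]; linarith)
    (by rw [show ((c68.P1 : ℤ) : ℝ) = 6000 from by norm_num [c68]]; linarith)
    (by rw [show ((c68.P2 : ℤ) : ℝ) = 7000 from by norm_num [c68]]; linarith)
    (by rw [show ((c68.v1 : ℤ) : ℝ) = 511 from by norm_num [c68]]; linarith)
    (by rw [show ((c68.v2 : ℤ) : ℝ) = 1032 from by norm_num [c68]]; linarith)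

/-- cell data -/
def c69 : Cl :=
  ⟨-46333228, 97394864, 117052767, 0, -19985411,
    [⟨35, -1702885, -5613658, 5866258⟩],
    18, 138, -159, -39, 200, 7004, 12978, 2249, 2500, 12, 175, 159, 282, 6000, 7000, 557, 1032⟩

theorem c69_ok : okA c69 = true := by decide +kernel

theorem c69_cell (κ b v : ℝ) (h1 : 2249 / 10000 ≤ κ) (h2 : κ ≤ 2500 / 10000)
    (h3 : 6000 / 10000 ≤ b) (h4 : b ≤ 7000 / 10000) (h5 : 557 / 10000 ≤ v) (h6 : v ≤ 1032 / 10000) :
    CellOK 1 b κ v :=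
  cell_A c69 c69_ok κ b v
    (by rw [show ((c69.K1 : ℤ) : ℝ) = 2249 from by norm_num [c69]]; linarith)
    (by rw [show ((c69.K2 : ℤ) : ℝ) = 2500 from by norm_num [c69]]; linarith)
    (by rw [show ((c69.P1 : ℤ) : ℝ) = 6000 from by norm_num [c69]]; linarith)
    (by rw [show ((c69.P2 : ℤ) : ℝ) = 7000 from by norm_num [c69]]; linarith)
    (by rw [show ((c69.v1 : ℤ) : ℝ) = 557 from by norm_num [c69]]; linarith)
    (by rw [show ((c69.v2 : ℤ) : ℝ) = 1032 from by norm_num [c69]]; linarith)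

/-- cell data -/
def c70 : Cl :=
  ⟨-31899568, 95597784, 98849928, 92849, -16062094,
    [⟨35, -2502455, -4681764, 5308597⟩],
    13, 99, -113, -28, 200, 6614, 13357, 1999, 2500, 12, 163, 114, 395, 6000, 7000, 1032, 2084⟩

theorem c70_ok : okA c70 = true := by decide +kernel

theorem c70_cell (κ b v : ℝ) (h1 : 1999 / 10000 ≤ κ) (h2 : κ ≤ 2500 / 10000)
    (h3 : 6000 / 10000 ≤ b) (h4 : b ≤ 7000 / 10000) (h5 : 1032 / 10000 ≤ v) (h6 : v ≤ 2084 / 10000) :
    CellOK 1 b κ v :=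
  cell_A c70 c70_ok κ b v
    (by rw [show ((c70.K1 : ℤ) : ℝ) = 1999 from by norm_num [c70]]; linarith)
    (by rw [show ((c70.K2 : ℤ) : ℝ) = 2500 from by norm_num [c70]]; linarith)
    (by rw [show ((c70.P1 : ℤ) : ℝ) = 6000 from by norm_num [c70]]; linarith)
    (by rw [show ((c70.P2 : ℤ) : ℝ) = 7000 from by norm_num [c70]]; linarith)
    (by rw [show ((c70.v1 : ℤ) : ℝ) = 1032 from by norm_num [c70]]; linarith)
    (by rw [show ((c70.v2 : ℤ) : ℝ) = 2084 from by norm_num [c70]]; linarith)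

/-- cell data -/
def c71 : Cl :=
  ⟨384405667, 138821826, -71054094, 6922422, -7898236,
    [⟨9, -380416037, 37467709, 382256708⟩,
      ⟨35, -24918929, -20450436, 32236212⟩],
    7, 54, -61, -15, 200, 3943, 16083, 1999, 2500, 12, 89, 62, 727, 6000, 7000, 2084, 8500⟩

theorem c71_ok : okA c71 = true := by decide +kernel

theorem c71_cell (κ b v : ℝ) (h1 : 1999 / 10000 ≤ κ) (h2 : κ ≤ 2500 / 10000)
    (h3 : 6000 / 10000 ≤ b) (h4 : b ≤ 7000 / 10000) (h5 : 2084 / 10000 ≤ v) (h6 : v ≤ 8500 / 10000) :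
    CellOK 1 b κ v :=
  cell_A c71 c71_ok κ b v
    (by rw [show ((c71.K1 : ℤ) : ℝ) = 1999 from by norm_num [c71]]; linarith)
    (by rw [show ((c71.K2 : ℤ) : ℝ) = 2500 from by norm_num [c71]]; linarith)
    (by rw [show ((c71.P1 : ℤ) : ℝ) = 6000 from by norm_num [c71]]; linarith)
    (by rw [show ((c71.P2 : ℤ) : ℝ) = 7000 from by norm_num [c71]]; linarith)
    (by rw [show ((c71.v1 : ℤ) : ℝ) = 2084 from by norm_num [c71]]; linarith)
    (by rw [show ((c71.v2 : ℤ) : ℝ) = 8500 from by norm_num [c71]]; linarith)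

end Pool.Agent.H10.MK
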