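import Mathlib
import Pool.Agent.H10.MK.Cell

/-!
Cells and their certificates, checked by the kernel.
-/

namespace Pool.Agent.H10.MK

open Pool.Agent.H49.MK

/-- cell data -/
def c72 : Cl :=
  ⟨-35257091, 94300031, 99719446, 0, -15667404,
    [⟨35, -2821221, -4124476, 4997059⟩],
    15, 191, -175, 1, 200, 6462, 13489, 1999, 2500, 12, 186, 186, 263, 7000, 10000, 447, 933⟩

theorem c72_ok : okA c72 = true := by decide +kernel

theorem c72_cell (κ b v : ℝ) (h1 : 1999 / 10000 ≤ κ) (h2 : κ ≤ 2500 / 10000)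
    (h3 : 7000 / 10000 ≤ b) (h4 : b ≤ 10000 / 10000) (h5 : 447 / 10000 ≤ v) (h6 : v ≤ 933 / 10000) :
    CellOK 1 b κ v :=
  cell_A c72 c72_ok κ b v
    (by rw [show ((c72.K1 : ℤ) : ℝ) = 1999 from by norm_num [c72]]; linarith)
    (by rw [show ((c72.K2 : ℤ) : ℝ) = 2500 from by norm_num [c72]]; linarith)
    (by rw [show ((c72.P1 : ℤ) : ℝ) = 7000 from by norm_num [c72]]; linarith)
    (by rw [show ((c72.P2 : ℤ) : ℝ) = 10000 from by norm_num [c72]]; linarith)
    (by rw [show ((c72.v1 : ℤ) : ℝ) = 447 from by norm_num [c72]]; linarith)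
    (by rw [show ((c72.v2 : ℤ) : ℝ) = 933 from by norm_num [c72]]; linarith)

/-- cell data -/
def c73 : Cl :=
  ⟨-35137476, 95850392, 99686980, 0, -15972633,
    [⟨35, -3833531, -1162889, 4006030⟩],
    10, 132, -121, 1, 200, 6461, 13498, 1999, 2500, 12, 169, 169, 380, 7000, 10000, 933, 1949⟩

theorem c73_ok : okA c73 = true := by decide +kernel

theorem c73_cell (κ b v : ℝ) (h1 : 1999 / 10000 ≤ κ) (h2 : κ ≤ 2500 / 10000)
    (h3 : 7000 / 10000 ≤ b) (h4 : b ≤ 10000 / 10000) (h5 : 933 / 10000 ≤ v) (h6 : v ≤ 1949 / 10000) :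
    CellOK 1 b κ v :=
  cell_A c73 c73_ok κ b v
    (by rw [show ((c73.K1 : ℤ) : ℝ) = 1999 from by norm_num [c73]]; linarith)
    (by rw [show ((c73.K2 : ℤ) : ℝ) = 2500 from by norm_num [c73]]; linarith)
    (by rw [show ((c73.P1 : ℤ) : ℝ) = 7000 from by norm_num [c73]]; linarith)
    (by rw [show ((c73.P2 : ℤ) : ℝ) = 10000 from by norm_num [c73]]; linarith)
    (by rw [show ((c73.v1 : ℤ) : ℝ) = 933 from by norm_num [c73]]; linarith)
    (by rw [show ((c73.v2 : ℤ) : ℝ) = 1949 from by norm_num [c73]]; linarith)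

/-- cell data -/
def c74 : Cl :=
  ⟨-32466637, 114850126, 87363438, 0, -15373295,
    [⟨30, -305548, -30094, 307027⟩,
      ⟨38, -3359989, -330930, 3376247⟩],
    8, 103, -94, 1, 200, 8184, 11825, 1999, 2500, 11, 132, 132, 488, 7000, 10000, 1949, 2816⟩

theorem c74_ok : okA c74 = true := by decide +kernel

theorem c74_cell (κ b v : ℝ) (h1 : 1999 / 10000 ≤ κ) (h2 : κ ≤ 2500 / 10000)
    (h3 : 7000 / 10000 ≤ b) (h4 : b ≤ 10000 / 10000) (h5 : 1949 / 10000 ≤ v) (h6 : v ≤ 2816 / 10000) :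
    CellOK 1 b κ v :=
  cell_A c74 c74_ok κ b v
    (by rw [show ((c74.K1 : ℤ) : ℝ) = 1999 from by norm_num [c74]]; linarith)
    (by rw [show ((c74.K2 : ℤ) : ℝ) = 2500 from by norm_num [c74]]; linarith)
    (by rw [show ((c74.P1 : ℤ) : ℝ) = 7000 from by norm_num [c74]]; linarith)
    (by rw [show ((c74.P2 : ℤ) : ℝ) = 10000 from by norm_num [c74]]; linarith)
    (by rw [show ((c74.v1 : ℤ) : ℝ) = 1949 from by norm_num [c74]]; linarith)
    (by rw [show ((c74.v2 : ℤ) : ℝ) = 2816 from by norm_num [c74]]; linarith)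

/-- cell data -/
def c75 : Cl :=
  ⟨-7455819, 130335674, 65560385, 3135125, -10213370,
    [⟨35, -19121800, -5800535, 19982229⟩],
    7, 76, -78, -9, 200, 8172, 11812, 1999, 2500, 12, 110, 93, 587, 7000, 8500, 2816, 4070⟩

theorem c75_ok : okA c75 = true := by decide +kernel

theorem c75_cell (κ b v : ℝ) (h1 : 1999 / 10000 ≤ κ) (h2 : κ ≤ 2500 / 10000)
    (h3 : 7000 / 10000 ≤ b) (h4 : b ≤ 8500 / 10000) (h5 : 2816 / 10000 ≤ v) (h6 : v ≤ 4070 / 10000) :
    CellOK 1 b κ v :=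
  cell_A c75 c75_ok κ b v
    (by rw [show ((c75.K1 : ℤ) : ℝ) = 1999 from by norm_num [c75]]; linarith)
    (by rw [show ((c75.K2 : ℤ) : ℝ) = 2500 from by norm_num [c75]]; linarith)
    (by rw [show ((c75.P1 : ℤ) : ℝ) = 7000 from by norm_num [c75]]; linarith)
    (by rw [show ((c75.P2 : ℤ) : ℝ) = 8500 from by norm_num [c75]]; linarith)
    (by rw [show ((c75.v1 : ℤ) : ℝ) = 2816 from by norm_num [c75]]; linarith)
    (by rw [show ((c75.v2 : ℤ) : ℝ) = 4070 from by norm_num [c75]]; linarith)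

/-- cell data -/
def c76 : Cl :=
  ⟨-33878154, 123142651, 74598918, 0, -12216863,
    [⟨40, -2176456, -214362, 2186987⟩],
    4, 90, -86, 1, 200, 9076, 10911, 1999, 2500, 11, 115, 115, 557, 8500, 10000, 2816, 3385⟩

theorem c76_ok : okA c76 = true := by decide +kernel

theorem c76_cell (κ b v : ℝ) (h1 : 1999 / 10000 ≤ κ) (h2 : κ ≤ 2500 / 10000)
    (h3 : 8500 / 10000 ≤ b) (h4 : b ≤ 10000 / 10000) (h5 : 2816 / 10000 ≤ v) (h6 : v ≤ 3385 / 10000) :
    CellOK 1 b κ v :=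
  cell_A c76 c76_ok κ b v
    (by rw [show ((c76.K1 : ℤ) : ℝ) = 1999 from by norm_num [c76]]; linarith)
    (by rw [show ((c76.K2 : ℤ) : ℝ) = 2500 from by norm_num [c76]]; linarith)
    (by rw [show ((c76.P1 : ℤ) : ℝ) = 8500 from by norm_num [c76]]; linarith)
    (by rw [show ((c76.P2 : ℤ) : ℝ) = 10000 from by norm_num [c76]]; linarith)
    (by rw [show ((c76.v1 : ℤ) : ℝ) = 2816 from by norm_num [c76]]; linarith)
    (by rw [show ((c76.v2 : ℤ) : ℝ) = 3385 from by norm_num [c76]]; linarith)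

/-- cell data -/
def c77 : Cl :=
  ⟨-12851434, 133139718, 48494719, 0, -5393205,
    [⟨28, -12197971, -1201395, 12256992⟩,
      ⟨48, -12261005, -1207604, 12320331⟩],
    4, 82, -78, 1, 200, 9067, 10903, 1999, 2500, 9, 105, 105, 611, 8500, 10000, 3385, 4070⟩

theorem c77_ok : okA c77 = true := by decide +kernel

theorem c77_cell (κ b v : ℝ) (h1 : 1999 / 10000 ≤ κ) (h2 : κ ≤ 2500 / 10000)
    (h3 : 8500 / 10000 ≤ b) (h4 : b ≤ 10000 / 10000) (h5 : 3385 / 10000 ≤ v) (h6 : v ≤ 4070 / 10000) :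
    CellOK 1 b κ v :=
  cell_A c77 c77_ok κ b v
    (by rw [show ((c77.K1 : ℤ) : ℝ) = 1999 from by norm_num [c77]]; linarith)
    (by rw [show ((c77.K2 : ℤ) : ℝ) = 2500 from by norm_num [c77]]; linarith)
    (by rw [show ((c77.P1 : ℤ) : ℝ) = 8500 from by norm_num [c77]]; linarith)
    (by rw [show ((c77.P2 : ℤ) : ℝ) = 10000 from by norm_num [c77]]; linarith)
    (by rw [show ((c77.v1 : ℤ) : ℝ) = 3385 from by norm_num [c77]]; linarith)
    (by rw [show ((c77.v2 : ℤ) : ℝ) = 4070 from by norm_num [c77]]; linarith)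

/-- cell data -/
def c78 : Cl :=
  ⟨72604936, 165160681, 43108224, 0, -12351063,
    [⟨9, -96810590, 9535011, 97279016⟩,
      ⟨35, -14112152, -4280874, 14747160⟩],
    5, 64, -58, 1, 200, 6472, 13517, 1999, 2500, 12, 81, 81, 793, 7000, 10000, 4070, 8500⟩

theorem c78_ok : okA c78 = true := by decide +kernel

theorem c78_cell (κ b v : ℝ) (h1 : 1999 / 10000 ≤ κ) (h2 : κ ≤ 2500 / 10000)
    (h3 : 7000 / 10000 ≤ b) (h4 : b ≤ 10000 / 10000) (h5 : 4070 / 10000 ≤ v) (h6 : v ≤ 8500 / 10000) :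
    CellOK 1 b κ v :=
  cell_A c78 c78_ok κ b v
    (by rw [show ((c78.K1 : ℤ) : ℝ) = 1999 from by norm_num [c78]]; linarith)
    (by rw [show ((c78.K2 : ℤ) : ℝ) = 2500 from by norm_num [c78]]; linarith)
    (by rw [show ((c78.P1 : ℤ) : ℝ) = 7000 from by norm_num [c78]]; linarith)
    (by rw [show ((c78.P2 : ℤ) : ℝ) = 10000 from by norm_num [c78]]; linarith)
    (by rw [show ((c78.v1 : ℤ) : ℝ) = 4070 from by norm_num [c78]]; linarith)
    (by rw [show ((c78.v2 : ℤ) : ℝ) = 8500 from by norm_num [c78]]; linarith)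

/-- cell data -/
def c79 : Cl :=
  ⟨53910823, 236455811, 12945220, -29587203, -5656541,
    [⟨30, 18216557, 60051940, 62754111⟩,
      ⟨35, 2944970, 3588457, 4642184⟩],
    -22, 127, -29, 120, 200, 3564, 16432, 1999, 2500, 12, 48, 192, 335, 0, 2500, 400, 1844⟩

theorem c79_ok : okB c79 = true := by decide +kernel

theorem c79_cell (κ a v : ℝ) (h1 : 1999 / 10000 ≤ κ) (h2 : κ ≤ 2500 / 10000)
    (h3 : 0 / 10000 ≤ a) (h4 : a ≤ 2500 / 10000) (h5 : 400 / 10000 ≤ v) (h6 : v ≤ 1844 / 10000) :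
    CellOK a 1 κ v :=
  cell_B c79 c79_ok κ a v
    (by rw [show ((c79.K1 : ℤ) : ℝ) = 1999 from by norm_num [c79]]; linarith)
    (by rw [show ((c79.K2 : ℤ) : ℝ) = 2500 from by norm_num [c79]]; linarith)
    (by rw [show ((c79.P1 : ℤ) : ℝ) = 0 from by norm_num [c79]]; linarith)
    (by rw [show ((c79.P2 : ℤ) : ℝ) = 2500 from by norm_num [c79]]; linarith)
    (by rw [show ((c79.v1 : ℤ) : ℝ) = 400 from by norm_num [c79]]; linarith)
    (by rw [show ((c79.v2 : ℤ) : ℝ) = 1844 from by norm_num [c79]]; linarith)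

end Pool.Agent.H10.MK
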