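import Mathlib
import Pool.Agent.H10.MK.Cell

/-!
Cells and their certificates, checked by the kernel.
-/

namespace Pool.Agent.H10.MK

open Pool.Agent.H49.MK

/-- cell data -/
def c80 : Cl :=
  ⟨2096329, 150179602, 18158361, -8949210, -1658791,
    [⟨9, 0, 0, 0⟩],
    -14, 135, -59, 90, 200, 3564, 16432, 1999, 2500, 12, 96, 192, 335, 2500, 5000, 400, 1844⟩

theorem c80_ok : okB c80 = true := by decide +kernel

theorem c80_cell (κ a v : ℝ) (h1 : 1999 / 10000 ≤ κ) (h2 : κ ≤ 2500 / 10000)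
    (h3 : 2500 / 10000 ≤ a) (h4 : a ≤ 5000 / 10000) (h5 : 400 / 10000 ≤ v) (h6 : v ≤ 1844 / 10000) :
    CellOK a 1 κ v :=
  cell_B c80 c80_ok κ a v
    (by rw [show ((c80.K1 : ℤ) : ℝ) = 1999 from by norm_num [c80]]; linarith)
    (by rw [show ((c80.K2 : ℤ) : ℝ) = 2500 from by norm_num [c80]]; linarith)
    (by rw [show ((c80.P1 : ℤ) : ℝ) = 2500 from by norm_num [c80]]; linarith)
    (by rw [show ((c80.P2 : ℤ) : ℝ) = 5000 from by norm_num [c80]]; linarith)
    (by rw [show ((c80.v1 : ℤ) : ℝ) = 400 from by norm_num [c80]]; linarith)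
    (by rw [show ((c80.v2 : ℤ) : ℝ) = 1844 from by norm_num [c80]]; linarith)

/-- cell data -/
def c81 : Cl :=
  ⟨24422189, 266060705, 45576081, -46090051, -12155425,
    [⟨30, -235104, 52385581, 52386109⟩,
      ⟨45, -3577509, 24631234, 24889682⟩],
    -13, 79, -18, 75, 200, 6347, 13628, 1999, 2500, 9, 30, 119, 539, 0, 2500, 1844, 3959⟩

theorem c81_ok : okB c81 = true := by decide +kernel

theorem c81_cell (κ a v : ℝ) (h1 : 1999 / 10000 ≤ κ) (h2 : κ ≤ 2500 / 10000)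
    (h3 : 0 / 10000 ≤ a) (h4 : a ≤ 2500 / 10000) (h5 : 1844 / 10000 ≤ v) (h6 : v ≤ 3959 / 10000) :
    CellOK a 1 κ v :=
  cell_B c81 c81_ok κ a v
    (by rw [show ((c81.K1 : ℤ) : ℝ) = 1999 from by norm_num [c81]]; linarith)
    (by rw [show ((c81.K2 : ℤ) : ℝ) = 2500 from by norm_num [c81]]; linarith)
    (by rw [show ((c81.P1 : ℤ) : ℝ) = 0 from by norm_num [c81]]; linarith)
    (by rw [show ((c81.P2 : ℤ) : ℝ) = 2500 from by norm_num [c81]]; linarith)
    (by rw [show ((c81.v1 : ℤ) : ℝ) = 1844 from by norm_num [c81]]; linarith)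
    (by rw [show ((c81.v2 : ℤ) : ℝ) = 3959 from by norm_num [c81]]; linarith)

/-- cell data -/
def c82 : Cl :=
  ⟨38494026, 245303763, 15129804, -28123624, -5044904,
    [⟨35, -10040374, 49007461, 50025397⟩],
    -9, 84, -37, 56, 200, 6347, 13628, 1999, 2500, 12, 60, 119, 539, 2500, 5000, 1844, 3959⟩

theorem c82_ok : okB c82 = true := by decide +kernel

theorem c82_cell (κ a v : ℝ) (h1 : 1999 / 10000 ≤ κ) (h2 : κ ≤ 2500 / 10000)
    (h3 : 2500 / 10000 ≤ a) (h4 : a ≤ 5000 / 10000) (h5 : 1844 / 10000 ≤ v) (h6 : v ≤ 3959 / 10000) :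
    CellOK a 1 κ v :=
  cell_B c82 c82_ok κ a v
    (by rw [show ((c82.K1 : ℤ) : ℝ) = 1999 from by norm_num [c82]]; linarith)
    (by rw [show ((c82.K2 : ℤ) : ℝ) = 2500 from by norm_num [c82]]; linarith)
    (by rw [show ((c82.P1 : ℤ) : ℝ) = 2500 from by norm_num [c82]]; linarith)
    (by rw [show ((c82.P2 : ℤ) : ℝ) = 5000 from by norm_num [c82]]; linarith)
    (by rw [show ((c82.v1 : ℤ) : ℝ) = 1844 from by norm_num [c82]]; linarith)
    (by rw [show ((c82.v2 : ℤ) : ℝ) = 3959 from by norm_num [c82]]; linarith)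

/-- cell data -/
def c83 : Cl :=
  ⟨8401667, 282936654, 72402869, -47637958, -15643171,
    [⟨34, 3628288, 58661123, 58773224⟩,
      ⟨50, -13256825, 24801775, 28122437⟩],
    -7, 65, -14, 58, 200, 8102, 11873, 1999, 2500, 8, 46, 92, 699, 0, 5000, 3959, 5801⟩

theorem c83_ok : okB c83 = true := by decide +kernel

theorem c83_cell (κ a v : ℝ) (h1 : 1999 / 10000 ≤ κ) (h2 : κ ≤ 2500 / 10000)
    (h3 : 0 / 10000 ≤ a) (h4 : a ≤ 5000 / 10000) (h5 : 3959 / 10000 ≤ v) (h6 : v ≤ 5801 / 10000) :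
    CellOK a 1 κ v :=
  cell_B c83 c83_ok κ a v
    (by rw [show ((c83.K1 : ℤ) : ℝ) = 1999 from by norm_num [c83]]; linarith)
    (by rw [show ((c83.K2 : ℤ) : ℝ) = 2500 from by norm_num [c83]]; linarith)
    (by rw [show ((c83.P1 : ℤ) : ℝ) = 0 from by norm_num [c83]]; linarith)
    (by rw [show ((c83.P2 : ℤ) : ℝ) = 5000 from by norm_num [c83]]; linarith)
    (by rw [show ((c83.v1 : ℤ) : ℝ) = 3959 from by norm_num [c83]]; linarith)
    (by rw [show ((c83.v2 : ℤ) : ℝ) = 5801 from by norm_num [c83]]; linarith)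

/-- cell data -/
def c84 : Cl :=
  ⟨232791788, 238228800, -39750093, -26304040, -3667501,
    [⟨9, -249115973, 24535782, 250321339⟩,
      ⟨35, -23482089, 71964248, 75698491⟩],
    -5, 54, -11, 48, 200, 8105, 11877, 1999, 2500, 12, 38, 76, 846, 0, 5000, 5801, 8500⟩

theorem c84_ok : okB c84 = true := by decide +kernel

theorem c84_cell (κ a v : ℝ) (h1 : 1999 / 10000 ≤ κ) (h2 : κ ≤ 2500 / 10000)
    (h3 : 0 / 10000 ≤ a) (h4 : a ≤ 5000 / 10000) (h5 : 5801 / 10000 ≤ v) (h6 : v ≤ 8500 / 10000) :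
    CellOK a 1 κ v :=
  cell_B c84 c84_ok κ a v
    (by rw [show ((c84.K1 : ℤ) : ℝ) = 1999 from by norm_num [c84]]; linarith)
    (by rw [show ((c84.K2 : ℤ) : ℝ) = 2500 from by norm_num [c84]]; linarith)
    (by rw [show ((c84.P1 : ℤ) : ℝ) = 0 from by norm_num [c84]]; linarith)
    (by rw [show ((c84.P2 : ℤ) : ℝ) = 5000 from by norm_num [c84]]; linarith)
    (by rw [show ((c84.v1 : ℤ) : ℝ) = 5801 from by norm_num [c84]]; linarith)
    (by rw [show ((c84.v2 : ℤ) : ℝ) = 8500 from by norm_num [c84]]; linarith)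

/-- cell data -/
def c85 : Cl :=
  ⟨51917928, 121778490, 16356602, -1751039, -3684142,
    [⟨16, -30867686, 16499122, 35000501⟩,
      ⟨32, -25036904, 7594862, 26163496⟩,
      ⟨48, -6109336, 7444248, 9630204⟩],
    -7, 142, -89, 60, 200, 3564, 16432, 1999, 2500, 9, 144, 192, 335, 5000, 7500, 400, 1844⟩

theorem c85_ok : okB c85 = true := by decide +kernel

theorem c85_cell (κ a v : ℝ) (h1 : 1999 / 10000 ≤ κ) (h2 : κ ≤ 2500 / 10000)
    (h3 : 5000 / 10000 ≤ a) (h4 : a ≤ 7500 / 10000) (h5 : 400 / 10000 ≤ v) (h6 : v ≤ 1844 / 10000) :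
    CellOK a 1 κ v :=
  cell_B c85 c85_ok κ a v
    (by rw [show ((c85.K1 : ℤ) : ℝ) = 1999 from by norm_num [c85]]; linarith)
    (by rw [show ((c85.K2 : ℤ) : ℝ) = 2500 from by norm_num [c85]]; linarith)
    (by rw [show ((c85.P1 : ℤ) : ℝ) = 5000 from by norm_num [c85]]; linarith)
    (by rw [show ((c85.P2 : ℤ) : ℝ) = 7500 from by norm_num [c85]]; linarith)
    (by rw [show ((c85.v1 : ℤ) : ℝ) = 400 from by norm_num [c85]]; linarith)
    (by rw [show ((c85.v2 : ℤ) : ℝ) = 1844 from by norm_num [c85]]; linarith)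

/-- cell data -/
def c86 : Cl :=
  ⟨-35366776, 94296424, 97133399, 0, -15132012,
    [⟨35, -3137205, -951661, 3278371⟩],
    1, 200, -159, 40, 202, 6349, 13635, 1999, 2500, 12, 187, 187, 251, 7500, 10000, 400, 859⟩

theorem c86_ok : okB c86 = true := by decide +kernel

theorem c86_cell (κ a v : ℝ) (h1 : 1999 / 10000 ≤ κ) (h2 : κ ≤ 2500 / 10000)
    (h3 : 7500 / 10000 ≤ a) (h4 : a ≤ 10000 / 10000) (h5 : 400 / 10000 ≤ v) (h6 : v ≤ 859 / 10000) :
    CellOK a 1 κ v :=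
  cell_B c86 c86_ok κ a v
    (by rw [show ((c86.K1 : ℤ) : ℝ) = 1999 from by norm_num [c86]]; linarith)
    (by rw [show ((c86.K2 : ℤ) : ℝ) = 2500 from by norm_num [c86]]; linarith)
    (by rw [show ((c86.P1 : ℤ) : ℝ) = 7500 from by norm_num [c86]]; linarith)
    (by rw [show ((c86.P2 : ℤ) : ℝ) = 10000 from by norm_num [c86]]; linarith)
    (by rw [show ((c86.v1 : ℤ) : ℝ) = 400 from by norm_num [c86]]; linarith)
    (by rw [show ((c86.v2 : ℤ) : ℝ) = 859 from by norm_num [c86]]; linarith)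

/-- cell data -/
def c87 : Cl :=
  ⟨-29787505, 98827707, 98627560, 0, -16154917,
    [⟨35, -8567149, -843791, 8608602⟩],
    1, 136, -108, 28, 200, 6343, 13617, 1999, 2500, 12, 174, 174, 368, 7500, 10000, 859, 1844⟩

theorem c87_ok : okB c87 = true := by decide +kernel

theorem c87_cell (κ a v : ℝ) (h1 : 1999 / 10000 ≤ κ) (h2 : κ ≤ 2500 / 10000)
    (h3 : 7500 / 10000 ≤ a) (h4 : a ≤ 10000 / 10000) (h5 : 859 / 10000 ≤ v) (h6 : v ≤ 1844 / 10000) :
    CellOK a 1 κ v :=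
  cell_B c87 c87_ok κ a v
    (by rw [show ((c87.K1 : ℤ) : ℝ) = 1999 from by norm_num [c87]]; linarith)
    (by rw [show ((c87.K2 : ℤ) : ℝ) = 2500 from by norm_num [c87]]; linarith)
    (by rw [show ((c87.P1 : ℤ) : ℝ) = 7500 from by norm_num [c87]]; linarith)
    (by rw [show ((c87.P2 : ℤ) : ℝ) = 10000 from by norm_num [c87]]; linarith)
    (by rw [show ((c87.v1 : ℤ) : ℝ) = 859 from by norm_num [c87]]; linarith)
    (by rw [show ((c87.v2 : ℤ) : ℝ) = 1844 from by norm_num [c87]]; linarith)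

end Pool.Agent.H10.MK
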