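import Mathlib
import Pool.Agent.H10.MK.Cell

/-!
Cells and their certificates, checked by the kernel.
-/

namespace Pool.Agent.H10.MK

open Pool.Agent.H49.MK

/-- cell data -/
def c88 : Cl :=
  ⟨13862845, 216034311, 31892134, -22025157, -5112804,
    [⟨28, -30805565, 30580396, 43406722⟩],
    -3, 67, -41, 28, 200, 3567, 16443, 1999, 2500, 10, 67, 90, 719, 5000, 7500, 1844, 8500⟩

theorem c88_ok : okB c88 = true := by decide +kernel

theorem c88_cell (κ a v : ℝ) (h1 : 1999 / 10000 ≤ κ) (h2 : κ ≤ 2500 / 10000)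
    (h3 : 5000 / 10000 ≤ a) (h4 : a ≤ 7500 / 10000) (h5 : 1844 / 10000 ≤ v) (h6 : v ≤ 8500 / 10000) :
    CellOK a 1 κ v :=
  cell_B c88 c88_ok κ a v
    (by rw [show ((c88.K1 : ℤ) : ℝ) = 1999 from by norm_num [c88]]; linarith)
    (by rw [show ((c88.K2 : ℤ) : ℝ) = 2500 from by norm_num [c88]]; linarith)
    (by rw [show ((c88.P1 : ℤ) : ℝ) = 5000 from by norm_num [c88]]; linarith)
    (by rw [show ((c88.P2 : ℤ) : ℝ) = 7500 from by norm_num [c88]]; linarith)
    (by rw [show ((c88.v1 : ℤ) : ℝ) = 1844 from by norm_num [c88]]; linarith)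
    (by rw [show ((c88.v2 : ℤ) : ℝ) = 8500 from by norm_num [c88]]; linarith)

/-- cell data -/
def c89 : Cl :=
  ⟨-678158, 123859589, 58058139, -1219254, -10240235,
    [⟨34, -15049993, -1482295, 15122814⟩,
      ⟨50, -12431373, 9060601, 15382898⟩],
    -2, 103, -83, 21, 200, 8104, 11876, 1999, 2500, 8, 118, 135, 477, 7500, 8750, 1844, 2702⟩

theorem c89_ok : okB c89 = true := by decide +kernel

theorem c89_cell (κ a v : ℝ) (h1 : 1999 / 10000 ≤ κ) (h2 : κ ≤ 2500 / 10000)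
    (h3 : 7500 / 10000 ≤ a) (h4 : a ≤ 8750 / 10000) (h5 : 1844 / 10000 ≤ v) (h6 : v ≤ 2702 / 10000) :
    CellOK a 1 κ v :=
  cell_B c89 c89_ok κ a v
    (by rw [show ((c89.K1 : ℤ) : ℝ) = 1999 from by norm_num [c89]]; linarith)
    (by rw [show ((c89.K2 : ℤ) : ℝ) = 2500 from by norm_num [c89]]; linarith)
    (by rw [show ((c89.P1 : ℤ) : ℝ) = 7500 from by norm_num [c89]]; linarith)
    (by rw [show ((c89.P2 : ℤ) : ℝ) = 8750 from by norm_num [c89]]; linarith)
    (by rw [show ((c89.v1 : ℤ) : ℝ) = 1844 from by norm_num [c89]]; linarith)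
    (by rw [show ((c89.v2 : ℤ) : ℝ) = 2702 from by norm_num [c89]]; linarith)

/-- cell data -/
def c90 : Cl :=
  ⟨-32010801, 114851593, 87353370, 0, -15378252,
    [⟨30, -546363, -53812, 549007⟩,
      ⟨38, -3512297, -345931, 3529292⟩],
    1, 105, -94, 11, 200, 8104, 11876, 1999, 2500, 11, 135, 135, 477, 8750, 10000, 1844, 2702⟩

theorem c90_ok : okB c90 = true := by decide +kernel

theorem c90_cell (κ a v : ℝ) (h1 : 1999 / 10000 ≤ κ) (h2 : κ ≤ 2500 / 10000)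
    (h3 : 8750 / 10000 ≤ a) (h4 : a ≤ 10000 / 10000) (h5 : 1844 / 10000 ≤ v) (h6 : v ≤ 2702 / 10000) :
    CellOK a 1 κ v :=
  cell_B c90 c90_ok κ a v
    (by rw [show ((c90.K1 : ℤ) : ℝ) = 1999 from by norm_num [c90]]; linarith)
    (by rw [show ((c90.K2 : ℤ) : ℝ) = 2500 from by norm_num [c90]]; linarith)
    (by rw [show ((c90.P1 : ℤ) : ℝ) = 8750 from by norm_num [c90]]; linarith)
    (by rw [show ((c90.P2 : ℤ) : ℝ) = 10000 from by norm_num [c90]]; linarith)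
    (by rw [show ((c90.v1 : ℤ) : ℝ) = 1844 from by norm_num [c90]]; linarith)
    (by rw [show ((c90.v2 : ℤ) : ℝ) = 2702 from by norm_num [c90]]; linarith)

/-- cell data -/
def c91 : Cl :=
  ⟨-28792176, 132894151, 52244189, -25716, -5916481,
    [⟨50, -434034, 42749, 436135⟩],
    -2, 85, -69, 18, 200, 8115, 11892, 1999, 2500, 8, 98, 111, 577, 7500, 8750, 2702, 3959⟩

theorem c91_ok : okB c91 = true := by decide +kernel

theorem c91_cell (κ a v : ℝ) (h1 : 1999 / 10000 ≤ κ) (h2 : κ ≤ 2500 / 10000)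
    (h3 : 7500 / 10000 ≤ a) (h4 : a ≤ 8750 / 10000) (h5 : 2702 / 10000 ≤ v) (h6 : v ≤ 3959 / 10000) :
    CellOK a 1 κ v :=
  cell_B c91 c91_ok κ a v
    (by rw [show ((c91.K1 : ℤ) : ℝ) = 1999 from by norm_num [c91]]; linarith)
    (by rw [show ((c91.K2 : ℤ) : ℝ) = 2500 from by norm_num [c91]]; linarith)
    (by rw [show ((c91.P1 : ℤ) : ℝ) = 7500 from by norm_num [c91]]; linarith)
    (by rw [show ((c91.P2 : ℤ) : ℝ) = 8750 from by norm_num [c91]]; linarith)
    (by rw [show ((c91.v1 : ℤ) : ℝ) = 2702 from by norm_num [c91]]; linarith)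
    (by rw [show ((c91.v2 : ℤ) : ℝ) = 3959 from by norm_num [c91]]; linarith)

/-- cell data -/
def c92 : Cl :=
  ⟨-30683129, 131137145, 68227115, -18205, -11197389,
    [⟨48, -950835, 93649, 955436⟩],
    -1, 86, -77, 9, 200, 8115, 11892, 1999, 2500, 9, 104, 111, 577, 8750, 9375, 2702, 3959⟩

theorem c92_ok : okB c92 = true := by decide +kernel

theorem c92_cell (κ a v : ℝ) (h1 : 1999 / 10000 ≤ κ) (h2 : κ ≤ 2500 / 10000)
    (h3 : 8750 / 10000 ≤ a) (h4 : a ≤ 9375 / 10000) (h5 : 2702 / 10000 ≤ v) (h6 : v ≤ 3959 / 10000) :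
    CellOK a 1 κ v :=
  cell_B c92 c92_ok κ a v
    (by rw [show ((c92.K1 : ℤ) : ℝ) = 1999 from by norm_num [c92]]; linarith)
    (by rw [show ((c92.K2 : ℤ) : ℝ) = 2500 from by norm_num [c92]]; linarith)
    (by rw [show ((c92.P1 : ℤ) : ℝ) = 8750 from by norm_num [c92]]; linarith)
    (by rw [show ((c92.P2 : ℤ) : ℝ) = 9375 from by norm_num [c92]]; linarith)
    (by rw [show ((c92.v1 : ℤ) : ℝ) = 2702 from by norm_num [c92]]; linarith)
    (by rw [show ((c92.v2 : ℤ) : ℝ) = 3959 from by norm_num [c92]]; linarith)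

/-- cell data -/
def c93 : Cl :=
  ⟨-32513192, 127664657, 72305066, -288, -11856116,
    [⟨44, -1335952, -131580, 1342417⟩],
    0, 87, -82, 5, 200, 8115, 11892, 1999, 2500, 10, 108, 111, 577, 9375, 9687, 2702, 3959⟩

theorem c93_ok : okB c93 = true := by decide +kernel

theorem c93_cell (κ a v : ℝ) (h1 : 1999 / 10000 ≤ κ) (h2 : κ ≤ 2500 / 10000)
    (h3 : 9375 / 10000 ≤ a) (h4 : a ≤ 9687 / 10000) (h5 : 2702 / 10000 ≤ v) (h6 : v ≤ 3959 / 10000) :
    CellOK a 1 κ v :=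
  cell_B c93 c93_ok κ a v
    (by rw [show ((c93.K1 : ℤ) : ℝ) = 1999 from by norm_num [c93]]; linarith)
    (by rw [show ((c93.K2 : ℤ) : ℝ) = 2500 from by norm_num [c93]]; linarith)
    (by rw [show ((c93.P1 : ℤ) : ℝ) = 9375 from by norm_num [c93]]; linarith)
    (by rw [show ((c93.P2 : ℤ) : ℝ) = 9687 from by norm_num [c93]]; linarith)
    (by rw [show ((c93.v1 : ℤ) : ℝ) = 2702 from by norm_num [c93]]; linarith)
    (by rw [show ((c93.v2 : ℤ) : ℝ) = 3959 from by norm_num [c93]]; linarith)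

/-- cell data -/
def c94 : Cl :=
  ⟨-32502072, 126499602, 73754395, 0, -12082719,
    [⟨42, -1660240, -163519, 1668274⟩],
    0, 87, -84, 3, 200, 8115, 11892, 1999, 2500, 10, 110, 111, 577, 9687, 9843, 2702, 3959⟩

theorem c94_ok : okB c94 = true := by decide +kernel

theorem c94_cell (κ a v : ℝ) (h1 : 1999 / 10000 ≤ κ) (h2 : κ ≤ 2500 / 10000)
    (h3 : 9687 / 10000 ≤ a) (h4 : a ≤ 9843 / 10000) (h5 : 2702 / 10000 ≤ v) (h6 : v ≤ 3959 / 10000) :
    CellOK a 1 κ v :=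
  cell_B c94 c94_ok κ a v
    (by rw [show ((c94.K1 : ℤ) : ℝ) = 1999 from by norm_num [c94]]; linarith)
    (by rw [show ((c94.K2 : ℤ) : ℝ) = 2500 from by norm_num [c94]]; linarith)
    (by rw [show ((c94.P1 : ℤ) : ℝ) = 9687 from by norm_num [c94]]; linarith)
    (by rw [show ((c94.P2 : ℤ) : ℝ) = 9843 from by norm_num [c94]]; linarith)
    (by rw [show ((c94.v1 : ℤ) : ℝ) = 2702 from by norm_num [c94]]; linarith)
    (by rw [show ((c94.v2 : ℤ) : ℝ) = 3959 from by norm_num [c94]]; linarith)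

/-- cell data -/
def c95 : Cl :=
  ⟨-34276424, 125887037, 76103305, 0, -12467526,
    [⟨42, -1713115, -168727, 1721405⟩],
    1, 87, -85, 2, 200, 8115, 11892, 1999, 2500, 10, 111, 111, 577, 9843, 10000, 2702, 3959⟩

theorem c95_ok : okB c95 = true := by decide +kernel

theorem c95_cell (κ a v : ℝ) (h1 : 1999 / 10000 ≤ κ) (h2 : κ ≤ 2500 / 10000)
    (h3 : 9843 / 10000 ≤ a) (h4 : a ≤ 10000 / 10000) (h5 : 2702 / 10000 ≤ v) (h6 : v ≤ 3959 / 10000) :
    CellOK a 1 κ v :=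
  cell_B c95 c95_ok κ a v
    (by rw [show ((c95.K1 : ℤ) : ℝ) = 1999 from by norm_num [c95]]; linarith)
    (by rw [show ((c95.K2 : ℤ) : ℝ) = 2500 from by norm_num [c95]]; linarith)
    (by rw [show ((c95.P1 : ℤ) : ℝ) = 9843 from by norm_num [c95]]; linarith)
    (by rw [show ((c95.P2 : ℤ) : ℝ) = 10000 from by norm_num [c95]]; linarith)
    (by rw [show ((c95.v1 : ℤ) : ℝ) = 2702 from by norm_num [c95]]; linarith)
    (by rw [show ((c95.v2 : ℤ) : ℝ) = 3959 from by norm_num [c95]]; linarith)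

end Pool.Agent.H10.MK
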