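import Mathlib
import Pool.Agent.H10.MK.Cell

/-!
Cells and their certificates, checked by the kernel.
-/

namespace Pool.Agent.H10.MK

open Pool.Agent.H49.MK

/-- cell data -/
def c96 : Cl :=
  ⟨2479006, 166717278, 46989185, 0, -10055756,
    [⟨17, -40542733, 12298504, 42367044⟩],
    1, 64, -50, 13, 200, 6359, 13655, 1999, 2500, 13, 82, 82, 789, 7500, 10000, 3959, 8500⟩

theorem c96_ok : okB c96 = true := by decide +kernel

theorem c96_cell (κ a v : ℝ) (h1 : 1999 / 10000 ≤ κ) (h2 : κ ≤ 2500 / 10000)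
    (h3 : 7500 / 10000 ≤ a) (h4 : a ≤ 10000 / 10000) (h5 : 3959 / 10000 ≤ v) (h6 : v ≤ 8500 / 10000) :
    CellOK a 1 κ v :=
  cell_B c96 c96_ok κ a v
    (by rw [show ((c96.K1 : ℤ) : ℝ) = 1999 from by norm_num [c96]]; linarith)
    (by rw [show ((c96.K2 : ℤ) : ℝ) = 2500 from by norm_num [c96]]; linarith)
    (by rw [show ((c96.P1 : ℤ) : ℝ) = 7500 from by norm_num [c96]]; linarith)
    (by rw [show ((c96.P2 : ℤ) : ℝ) = 10000 from by norm_num [c96]]; linarith)
    (by rw [show ((c96.v1 : ℤ) : ℝ) = 3959 from by norm_num [c96]]; linarith)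
    (by rw [show ((c96.v2 : ℤ) : ℝ) = 8500 from by norm_num [c96]]; linarith)

end Pool.Agent.H10.MK
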