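import Mathlib
import Pool.Agent.H10.MK.T01
import Pool.Agent.H10.MK.T02
import Pool.Agent.H10.MK.T03
import Pool.Agent.H10.MK.T04
import Pool.Agent.H10.MK.T05
import Pool.Agent.H10.MK.T06
import Pool.Agent.H10.MK.T07
import Pool.Agent.H10.MK.T08
import Pool.Agent.H10.MK.T09
import Pool.Agent.H10.MK.T10
import Pool.Agent.H10.MK.T11
import Pool.Agent.H10.MK.T12
import Pool.Agent.H10.MK.T13

/-!
The cells cover the regions A and B.
-/

namespace Pool.Agent.H10.MK

open Pool.Agent.H49.MK

theorem vlow (κ v k Q w : ℝ) (hk : k ≤ κ) (hκ : κ ≤ 1 / 4) (hQ : 0 ≤ Q)
    (hv : κ * (1 - κ) * Q ≤ v) (hw : w ≤ k * (1 - k) * Q) : w ≤ v := by
  have h1 : k * (1 - k) ≤ κ * (1 - κ) := by nlinarith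
  exact hw.trans ((mul_le_mul_of_nonneg_right h1 hQ).trans hv)

theorem strip_0_0 (κ b v : ℝ) (hk1 : 1999 / 10000 ≤ κ) (hk2 : κ ≤ 1 / 4) (hb1 : 0 / 10000 ≤ b)
    (hb2 : b ≤ 3000 / 10000) (hv : κ * (1 - κ) * (36 / 100) ≤ v) (hv2 : v ≤ 85 / 100) : CellOK 1 b κ v := by
  rcases le_total v (2211 / 10000) with h | h
  · rcases le_total v (1128 / 10000) with h | h
    · rcases le_total b (1500 / 10000) with h | h
      · exact c00_cell κ b v (by linarith) (by linarith) (by linarith) (by linarith)
          (vlow κ v (1999 / 10000) (36 / 100) (575 / 10000) (by linarith) hk2 (by norm_num) hv
            (by norm_num)) (by linarith)
      · rcases le_total b (2250 / 10000) with h | h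
        · exact c01_cell κ b v (by linarith) (by linarith) (by linarith) (by linarith)
            (vlow κ v (1999 / 10000) (36 / 100) (575 / 10000) (by linarith) hk2 (by norm_num) hv
              (by norm_num)) (by linarith)
        · exact c02_cell κ b v (by linarith) (by linarith) (by linarith) (by linarith)
            (vlow κ v (1999 / 10000) (36 / 100) (575 / 10000) (by linarith) hk2 (by norm_num) hv
              (by norm_num)) (by linarith)
    · exact c03_cell κ b v (by linarith) (by linarith) (by linarith) (by linarith)
        (by linarith) (by linarith)
  · rcases le_total v (4335 / 10000) with h | h
    · rcases le_total v (3096 / 10000) with h | h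
      · rcases le_total b (1500 / 10000) with h | h
        · exact c04_cell κ b v (by linarith) (by linarith) (by linarith) (by linarith)
            (by linarith) (by linarith)
        · exact c05_cell κ b v (by linarith) (by linarith) (by linarith) (by linarith)
            (by linarith) (by linarith)
      · rcases le_total κ (2249 / 10000) with h | h
        · exact c06_cell κ b v (by linarith) (by linarith) (by linarith) (by linarith)
            (by linarith) (by linarith)
        · rcases le_total v (3663 / 10000) with h | h
          · exact c07_cell κ b v (by linarith) (by linarith) (by linarith) (by linarith)
              (by linarith) (by linarith)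
          · rcases le_total b (1500 / 10000) with h | h
            · rcases le_total b (750 / 10000) with h | h
              · exact c08_cell κ b v (by linarith) (by linarith) (by linarith) (by linarith)
                  (by linarith) (by linarith)
              · exact c09_cell κ b v (by linarith) (by linarith) (by linarith) (by linarith)
                  (by linarith) (by linarith)
            · exact c10_cell κ b v (by linarith) (by linarith) (by linarith) (by linarith)
                (by linarith) (by linarith)
    · rcases le_total v (6070 / 10000) with h | h
      · rcases le_total κ (2249 / 10000) with h | h
        · exact c11_cell κ b v (by linarith) (by linarith) (by linarith) (by linarith)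
            (by linarith) (by linarith)
        · rcases le_total b (1500 / 10000) with h | h
          · rcases le_total b (750 / 10000) with h | h
            · rcases le_total v (5130 / 10000) with h | h
              · rcases le_total v (4716 / 10000) with h | h
                · rcases le_total v (4521 / 10000) with h | h
                  · exact c12_cell κ b v (by linarith) (by linarith) (by linarith) (by linarith)
                      (by linarith) (by linarith)
                  · rcases le_total b (375 / 10000) with h | h
                    · exact c13_cell κ b v (by linarith) (by linarith) (by linarith) (by linarith)
                        (by linarith) (by linarith)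
                    · exact c14_cell κ b v (by linarith) (by linarith) (by linarith) (by linarith)
                        (by linarith) (by linarith)
                · rcases le_total κ (2374 / 10000) with h | h
                  · exact c15_cell κ b v (by linarith) (by linarith) (by linarith) (by linarith)
                      (by linarith) (by linarith)
                  · rcases le_total b (375 / 10000) with h | h
                    · rcases le_total κ (2437 / 10000) with h | h
                      · rcases le_total v (4919 / 10000) with h | h
                        · exact c16_cell κ b v (by linarith) (by linarith) (by linarith) (by linarith)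
                            (by linarith) (by linarith)
                        · exact c17_cell κ b v (by linarith) (by linarith) (by linarith) (by linarith)
                            (by linarith) (by linarith)
                      · rcases le_total κ (2468 / 10000) with h | h
                        · rcases le_total v (4919 / 10000) with h | h
                          · exact c18_cell κ b v (by linarith) (by linarith) (by linarith) (by linarith)
                              (by linarith) (by linarith)
                          · exact c19_cell κ b v (by linarith) (by linarith) (by linarith) (by linarith)
                              (by linarith) (by linarith)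
                        · rcases le_total κ (2484 / 10000) with h | h
                          · rcases le_total v (4919 / 10000) with h | h
                            · exact c20_cell κ b v (by linarith) (by linarith) (by linarith) (by linarith)
                                (by linarith) (by linarith)
                            · exact c21_cell κ b v (by linarith) (by linarith) (by linarith) (by linarith)
                                (by linarith) (by linarith)
                          · exact c22_cell κ b v (by linarith) (by linarith) (by linarith) (by linarith)
                              (by linarith) (by linarith)
                    · exact c23_cell κ b v (by linarith) (by linarith) (by linarith) (by linarith)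
                        (by linarith) (by linarith)
              · exact c24_cell κ b v (by linarith) (by linarith) (by linarith) (by linarith)
                  (by linarith) (by linarith)
            · exact c25_cell κ b v (by linarith) (by linarith) (by linarith) (by linarith)
                (by linarith) (by linarith)
          · exact c26_cell κ b v (by linarith) (by linarith) (by linarith) (by linarith)
              (by linarith) (by linarith)
      · exact c27_cell κ b v (by linarith) (by linarith) (by linarith) (by linarith)
          (by linarith) (by linarith)

theorem strip_0_3000 (κ b v : ℝ) (hk1 : 1999 / 10000 ≤ κ) (hk2 : κ ≤ 1 / 4) (hb1 : 3000 / 10000 ≤ b)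
    (hb2 : b ≤ 4000 / 10000) (hv : κ * (1 - κ) * (38 / 100) ≤ v) (hv2 : v ≤ 85 / 100) : CellOK 1 b κ v := by
  rcases le_total v (2271 / 10000) with h | h
  · rcases le_total κ (2249 / 10000) with h | h
    · rcases le_total b (3500 / 10000) with h | h
      · exact c28_cell κ b v (by linarith) (by linarith) (by linarith) (by linarith)
          (vlow κ v (1999 / 10000) (38 / 100) (607 / 10000) (by linarith) hk2 (by norm_num) hv
            (by norm_num)) (by linarith)
      · exact c29_cell κ b v (by linarith) (by linarith) (by linarith) (by linarith)
          (vlow κ v (1999 / 10000) (38 / 100) (607 / 10000) (by linarith) hk2 (by norm_num) hv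
            (by norm_num)) (by linarith)
    · rcases le_total b (3500 / 10000) with h | h
      · exact c30_cell κ b v (by linarith) (by linarith) (by linarith) (by linarith)
          (vlow κ v (2249 / 10000) (38 / 100) (662 / 10000) (by linarith) hk2 (by norm_num) hv
            (by norm_num)) (by linarith)
      · exact c31_cell κ b v (by linarith) (by linarith) (by linarith) (by linarith)
          (vlow κ v (2249 / 10000) (38 / 100) (662 / 10000) (by linarith) hk2 (by norm_num) hv
            (by norm_num)) (by linarith)
  · rcases le_total v (4394 / 10000) with h | h
    · exact c32_cell κ b v (by linarith) (by linarith) (by linarith) (by linarith)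
        (by linarith) (by linarith)
    · exact c33_cell κ b v (by linarith) (by linarith) (by linarith) (by linarith)
        (by linarith) (by linarith)

theorem strip_0_4000 (κ b v : ℝ) (hk1 : 1999 / 10000 ≤ κ) (hk2 : κ ≤ 1 / 4) (hb1 : 4000 / 10000 ≤ b)
    (hb2 : b ≤ 5000 / 10000) (hv : κ * (1 - κ) * (39 / 100) ≤ v) (hv2 : v ≤ 85 / 100) : CellOK 1 b κ v := by
  rcases le_total v (2301 / 10000) with h | h
  · rcases le_total b (4500 / 10000) with h | h
    · rcases le_total κ (2249 / 10000) with h | h
      · exact c34_cell κ b v (by linarith) (by linarith) (by linarith) (by linarith)
          (vlow κ v (1999 / 10000) (39 / 100) (623 / 10000) (by linarith) hk2 (by norm_num) hv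
            (by norm_num)) (by linarith)
      · exact c35_cell κ b v (by linarith) (by linarith) (by linarith) (by linarith)
          (vlow κ v (2249 / 10000) (39 / 100) (679 / 10000) (by linarith) hk2 (by norm_num) hv
            (by norm_num)) (by linarith)
    · rcases le_total κ (2249 / 10000) with h | h
      · rcases le_total b (4750 / 10000) with h | h
        · rcases le_total b (4625 / 10000) with h | h
          · exact c36_cell κ b v (by linarith) (by linarith) (by linarith) (by linarith)
              (vlow κ v (1999 / 10000) (39 / 100) (623 / 10000) (by linarith) hk2 (by norm_num) hv
                (by norm_num)) (by linarith)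
          · exact c37_cell κ b v (by linarith) (by linarith) (by linarith) (by linarith)
              (vlow κ v (1999 / 10000) (39 / 100) (623 / 10000) (by linarith) hk2 (by norm_num) hv
                (by norm_num)) (by linarith)
        · rcases le_total κ (2124 / 10000) with h | h
          · rcases le_total κ (2061 / 10000) with h | h
            · exact c38_cell κ b v (by linarith) (by linarith) (by linarith) (by linarith)
                (vlow κ v (1999 / 10000) (39 / 100) (623 / 10000) (by linarith) hk2 (by norm_num) hv
                  (by norm_num)) (by linarith)
            · exact c39_cell κ b v (by linarith) (by linarith) (by linarith) (by linarith)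
                (vlow κ v (2061 / 10000) (39 / 100) (638 / 10000) (by linarith) hk2 (by norm_num) hv
                  (by norm_num)) (by linarith)
          · rcases le_total κ (2186 / 10000) with h | h
            · exact c40_cell κ b v (by linarith) (by linarith) (by linarith) (by linarith)
                (vlow κ v (2124 / 10000) (39 / 100) (652 / 10000) (by linarith) hk2 (by norm_num) hv
                  (by norm_num)) (by linarith)
            · exact c41_cell κ b v (by linarith) (by linarith) (by linarith) (by linarith)
                (vlow κ v (2186 / 10000) (39 / 100) (666 / 10000) (by linarith) hk2 (by norm_num) hv
                  (by norm_num)) (by linarith)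
      · rcases le_total κ (2374 / 10000) with h | h
        · rcases le_total v (1250 / 10000) with h | h
          · rcases le_total κ (2311 / 10000) with h | h
            · rcases le_total b (4750 / 10000) with h | h
              · exact c42_cell κ b v (by linarith) (by linarith) (by linarith) (by linarith)
                  (vlow κ v (2249 / 10000) (39 / 100) (679 / 10000) (by linarith) hk2 (by norm_num) hv
                    (by norm_num)) (by linarith)
              · exact c43_cell κ b v (by linarith) (by linarith) (by linarith) (by linarith)
                  (vlow κ v (2249 / 10000) (39 / 100) (679 / 10000) (by linarith) hk2 (by norm_num) hv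
                    (by norm_num)) (by linarith)
            · exact c44_cell κ b v (by linarith) (by linarith) (by linarith) (by linarith)
                (vlow κ v (2311 / 10000) (39 / 100) (693 / 10000) (by linarith) hk2 (by norm_num) hv
                  (by norm_num)) (by linarith)
          · exact c45_cell κ b v (by linarith) (by linarith) (by linarith) (by linarith)
              (by linarith) (by linarith)
        · rcases le_total b (4750 / 10000) with h | h
          · exact c46_cell κ b v (by linarith) (by linarith) (by linarith) (by linarith)
              (vlow κ v (2374 / 10000) (39 / 100) (706 / 10000) (by linarith) hk2 (by norm_num) hv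
                (by norm_num)) (by linarith)
          · exact c47_cell κ b v (by linarith) (by linarith) (by linarith) (by linarith)
              (vlow κ v (2374 / 10000) (39 / 100) (706 / 10000) (by linarith) hk2 (by norm_num) hv
                (by norm_num)) (by linarith)
  · rcases le_total v (4422 / 10000) with h | h
    · exact c48_cell κ b v (by linarith) (by linarith) (by linarith) (by linarith)
        (by linarith) (by linarith)
    · exact c49_cell κ b v (by linarith) (by linarith) (by linarith) (by linarith)
        (by linarith) (by linarith)

theorem strip_0_5000 (κ b v : ℝ) (hk1 : 1999 / 10000 ≤ κ) (hk2 : κ ≤ 1 / 4) (hb1 : 5000 / 10000 ≤ b)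
    (hb2 : b ≤ 5500 / 10000) (hv : κ * (1 - κ) * (375 / 1000) ≤ v) (hv2 : v ≤ 85 / 100) : CellOK 1 b κ v := by
  rcases le_total v (2256 / 10000) with h | h
  · rcases le_total κ (2249 / 10000) with h | h
    · rcases le_total v (1162 / 10000) with h | h
      · rcases le_total κ (2124 / 10000) with h | h
        · exact c50_cell κ b v (by linarith) (by linarith) (by linarith) (by linarith)
            (vlow κ v (1999 / 10000) (375 / 1000) (599 / 10000) (by linarith) hk2 (by norm_num) hv
              (by norm_num)) (by linarith)
        · exact c51_cell κ b v (by linarith) (by linarith) (by linarith) (by linarith)
            (vlow κ v (2124 / 10000) (375 / 1000) (627 / 10000) (by linarith) hk2 (by norm_num) hv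
              (by norm_num)) (by linarith)
      · exact c52_cell κ b v (by linarith) (by linarith) (by linarith) (by linarith)
          (by linarith) (by linarith)
    · rcases le_total κ (2374 / 10000) with h | h
      · rcases le_total b (5250 / 10000) with h | h
        · rcases le_total v (1214 / 10000) with h | h
          · rcases le_total κ (2311 / 10000) with h | h
            · exact c53_cell κ b v (by linarith) (by linarith) (by linarith) (by linarith)
                (vlow κ v (2249 / 10000) (375 / 1000) (653 / 10000) (by linarith) hk2 (by norm_num) hv
                  (by norm_num)) (by linarith)
            · exact c54_cell κ b v (by linarith) (by linarith) (by linarith) (by linarith)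
                (vlow κ v (2311 / 10000) (375 / 1000) (666 / 10000) (by linarith) hk2 (by norm_num) hv
                  (by norm_num)) (by linarith)
          · exact c55_cell κ b v (by linarith) (by linarith) (by linarith) (by linarith)
              (by linarith) (by linarith)
        · exact c56_cell κ b v (by linarith) (by linarith) (by linarith) (by linarith)
            (vlow κ v (2249 / 10000) (375 / 1000) (653 / 10000) (by linarith) hk2 (by norm_num) hv
              (by norm_num)) (by linarith)
      · rcases le_total κ (2437 / 10000) with h | h
        · exact c57_cell κ b v (by linarith) (by linarith) (by linarith) (by linarith)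
            (vlow κ v (2374 / 10000) (375 / 1000) (678 / 10000) (by linarith) hk2 (by norm_num) hv
              (by norm_num)) (by linarith)
        · rcases le_total v (1249 / 10000) with h | h
          · rcases le_total b (5250 / 10000) with h | h
            · exact c58_cell κ b v (by linarith) (by linarith) (by linarith) (by linarith)
                (vlow κ v (2437 / 10000) (375 / 1000) (691 / 10000) (by linarith) hk2 (by norm_num) hv
                  (by norm_num)) (by linarith)
            · exact c59_cell κ b v (by linarith) (by linarith) (by linarith) (by linarith)
                (vlow κ v (2437 / 10000) (375 / 1000) (691 / 10000) (by linarith) hk2 (by norm_num) hv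
                  (by norm_num)) (by linarith)
          · exact c60_cell κ b v (by linarith) (by linarith) (by linarith) (by linarith)
              (by linarith) (by linarith)
  · exact c61_cell κ b v (by linarith) (by linarith) (by linarith) (by linarith)
      (by linarith) (by linarith)

theorem strip_0_5500 (κ b v : ℝ) (hk1 : 1999 / 10000 ≤ κ) (hk2 : κ ≤ 1 / 4) (hb1 : 5500 / 10000 ≤ b)
    (hb2 : b ≤ 6000 / 10000) (hv : κ * (1 - κ) * (35 / 100) ≤ v) (hv2 : v ≤ 85 / 100) : CellOK 1 b κ v := by
  rcases le_total v (2180 / 10000) with h | h
  · rcases le_total κ (2249 / 10000) with h | h
    · rcases le_total v (1104 / 10000) with h | h
      · rcases le_total κ (2124 / 10000) with h | h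
        · exact c62_cell κ b v (by linarith) (by linarith) (by linarith) (by linarith)
            (vlow κ v (1999 / 10000) (35 / 100) (559 / 10000) (by linarith) hk2 (by norm_num) hv
              (by norm_num)) (by linarith)
        · exact c63_cell κ b v (by linarith) (by linarith) (by linarith) (by linarith)
            (vlow κ v (2124 / 10000) (35 / 100) (585 / 10000) (by linarith) hk2 (by norm_num) hv
              (by norm_num)) (by linarith)
      · exact c64_cell κ b v (by linarith) (by linarith) (by linarith) (by linarith)
          (by linarith) (by linarith)
    · rcases le_total v (1153 / 10000) with h | h
      · exact c65_cell κ b v (by linarith) (by linarith) (by linarith) (by linarith)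
          (vlow κ v (2249 / 10000) (35 / 100) (610 / 10000) (by linarith) hk2 (by norm_num) hv
            (by norm_num)) (by linarith)
      · exact c66_cell κ b v (by linarith) (by linarith) (by linarith) (by linarith)
          (by linarith) (by linarith)
  · exact c67_cell κ b v (by linarith) (by linarith) (by linarith) (by linarith)
      (by linarith) (by linarith)

theorem strip_0_6000 (κ b v : ℝ) (hk1 : 1999 / 10000 ≤ κ) (hk2 : κ ≤ 1 / 4) (hb1 : 6000 / 10000 ≤ b)
    (hb2 : b ≤ 7000 / 10000) (hv : κ * (1 - κ) * (32 / 100) ≤ v) (hv2 : v ≤ 85 / 100) : CellOK 1 b κ v := by
  rcases le_total v (2084 / 10000) with h | h
  · rcases le_total v (1032 / 10000) with h | h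
    · rcases le_total κ (2249 / 10000) with h | h
      · exact c68_cell κ b v (by linarith) (by linarith) (by linarith) (by linarith)
          (vlow κ v (1999 / 10000) (32 / 100) (511 / 10000) (by linarith) hk2 (by norm_num) hv
            (by norm_num)) (by linarith)
      · exact c69_cell κ b v (by linarith) (by linarith) (by linarith) (by linarith)
          (vlow κ v (2249 / 10000) (32 / 100) (557 / 10000) (by linarith) hk2 (by norm_num) hv
            (by norm_num)) (by linarith)
    · exact c70_cell κ b v (by linarith) (by linarith) (by linarith) (by linarith)
        (by linarith) (by linarith)
  · exact c71_cell κ b v (by linarith) (by linarith) (by linarith) (by linarith)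
      (by linarith) (by linarith)

theorem strip_0_7000 (κ b v : ℝ) (hk1 : 1999 / 10000 ≤ κ) (hk2 : κ ≤ 1 / 4) (hb1 : 7000 / 10000 ≤ b)
    (hb2 : b ≤ 10000 / 10000) (hv : κ * (1 - κ) * (28 / 100) ≤ v) (hv2 : v ≤ 85 / 100) : CellOK 1 b κ v := by
  rcases le_total v (1949 / 10000) with h | h
  · rcases le_total v (933 / 10000) with h | h
    · exact c72_cell κ b v (by linarith) (by linarith) (by linarith) (by linarith)
        (vlow κ v (1999 / 10000) (28 / 100) (447 / 10000) (by linarith) hk2 (by norm_num) hv
          (by norm_num)) (by linarith)
    · exact c73_cell κ b v (by linarith) (by linarith) (by linarith) (by linarith)
        (by linarith) (by linarith)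
  · rcases le_total v (4070 / 10000) with h | h
    · rcases le_total v (2816 / 10000) with h | h
      · exact c74_cell κ b v (by linarith) (by linarith) (by linarith) (by linarith)
          (by linarith) (by linarith)
      · rcases le_total b (8500 / 10000) with h | h
        · exact c75_cell κ b v (by linarith) (by linarith) (by linarith) (by linarith)
            (by linarith) (by linarith)
        · rcases le_total v (3385 / 10000) with h | h
          · exact c76_cell κ b v (by linarith) (by linarith) (by linarith) (by linarith)
              (by linarith) (by linarith)
          · exact c77_cell κ b v (by linarith) (by linarith) (by linarith) (by linarith)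
              (by linarith) (by linarith)
    · exact c78_cell κ b v (by linarith) (by linarith) (by linarith) (by linarith)
        (by linarith) (by linarith)

theorem strip_1_0 (κ a v : ℝ) (hk1 : 1999 / 10000 ≤ κ) (hk2 : κ ≤ 1 / 4) (ha1 : 0 ≤ a)
    (ha2 : a ≤ 1) (hv1 : 4 / 100 ≤ v) (hv2 : v ≤ 85 / 100) : CellOK a 1 κ v := by
  rcases le_total a (5000 / 10000) with h | h
  · rcases le_total v (1844 / 10000) with h | h
    · rcases le_total a (2500 / 10000) with h | h
      · exact c79_cell κ a v (by linarith) (by linarith) (by linarith) (by linarith)
          (by linarith) (by linarith)
      · exact c80_cell κ a v (by linarith) (by linarith) (by linarith) (by linarith)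
          (by linarith) (by linarith)
    · rcases le_total v (3959 / 10000) with h | h
      · rcases le_total a (2500 / 10000) with h | h
        · exact c81_cell κ a v (by linarith) (by linarith) (by linarith) (by linarith)
            (by linarith) (by linarith)
        · exact c82_cell κ a v (by linarith) (by linarith) (by linarith) (by linarith)
            (by linarith) (by linarith)
      · rcases le_total v (5801 / 10000) with h | h
        · exact c83_cell κ a v (by linarith) (by linarith) (by linarith) (by linarith)
            (by linarith) (by linarith)
        · exact c84_cell κ a v (by linarith) (by linarith) (by linarith) (by linarith)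
            (by linarith) (by linarith)
  · rcases le_total v (1844 / 10000) with h | h
    · rcases le_total a (7500 / 10000) with h | h
      · exact c85_cell κ a v (by linarith) (by linarith) (by linarith) (by linarith)
          (by linarith) (by linarith)
      · rcases le_total v (859 / 10000) with h | h
        · exact c86_cell κ a v (by linarith) (by linarith) (by linarith) (by linarith)
            (by linarith) (by linarith)
        · exact c87_cell κ a v (by linarith) (by linarith) (by linarith) (by linarith)
            (by linarith) (by linarith)
    · rcases le_total a (7500 / 10000) with h | h
      · exact c88_cell κ a v (by linarith) (by linarith) (by linarith) (by linarith)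
          (by linarith) (by linarith)
      · rcases le_total v (3959 / 10000) with h | h
        · rcases le_total v (2702 / 10000) with h | h
          · rcases le_total a (8750 / 10000) with h | h
            · exact c89_cell κ a v (by linarith) (by linarith) (by linarith) (by linarith)
                (by linarith) (by linarith)
            · exact c90_cell κ a v (by linarith) (by linarith) (by linarith) (by linarith)
                (by linarith) (by linarith)
          · rcases le_total a (8750 / 10000) with h | h
            · exact c91_cell κ a v (by linarith) (by linarith) (by linarith) (by linarith)
                (by linarith) (by linarith)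
            · rcases le_total a (9375 / 10000) with h | h
              · exact c92_cell κ a v (by linarith) (by linarith) (by linarith) (by linarith)
                  (by linarith) (by linarith)
              · rcases le_total a (9687 / 10000) with h | h
                · exact c93_cell κ a v (by linarith) (by linarith) (by linarith) (by linarith)
                    (by linarith) (by linarith)
                · rcases le_total a (9843 / 10000) with h | h
                  · exact c94_cell κ a v (by linarith) (by linarith) (by linarith) (by linarith)
                      (by linarith) (by linarith)
                  · exact c95_cell κ a v (by linarith) (by linarith) (by linarith) (by linarith)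
                      (by linarith) (by linarith)
        · exact c96_cell κ a v (by linarith) (by linarith) (by linarith) (by linarith)
            (by linarith) (by linarith)

end Pool.Agent.H10.MK
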