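import Mathlib
import Pool.Agent.H10.MK.Cover

/-!
The three certificate statements of `Pool.Agent.H49.MK.Defs`.
-/

open Finset

namespace Pool.Agent.H10.MK

open Pool.Agent.H49.MK

/-- certificate for the region D -/
def dD : Dat :=
  ⟨23790014, 37849637, 11782486, 0, -1933190,
    [⟨25, -15505924, 20580266, 25767830⟩, ⟨35, -778779, -2061486, 2203684⟩, ⟨45, -8813862, 868090, 8856509⟩],
    0, [(0, 3)], 200, 10000, 10000, 1999, 2500, 9, 64, 64, 1⟩

theorem dD_ok : chkA dD = true := by decide +kernel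

theorem dD_C : chkC dD = true := by decide +kernel

theorem cellD : CellD := by
  intro κ hκ1 hκ2
  obtain ⟨s1, s2, s3, s4, s5, s6⟩ := chkA_sound dD dD_ok
  have hK1 : ((dD.K1 : ℤ) : ℝ) = 1999 := by norm_num [dD]
  have hK2 : ((dD.K2 : ℤ) : ℝ) = 2500 := by norm_num [dD]
  have hV1 : ((dD.V1 : ℤ) : ℝ) = 10000 := by norm_num [dD]
  have hV2 : ((dD.V2 : ℤ) : ℝ) = 10000 := by norm_num [dD]
  have hNP : ((dD.NP : ℤ) : ℝ) = 64 := by norm_num [dD]
  have hNN : ((dD.NN : ℤ) : ℝ) = 64 := by norm_num [dD]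
  have hkf : ((dD.kf : ℤ) : ℝ) = 1 := by norm_num [dD]
  refine ⟨certOf dD 1, certOf_ok dD 1 (by norm_num) s3 s4 dD_C, ?_, ?_⟩
  · intro z
    rw [certOf_eval, div_one]
    have h := s1 z
    have hj : jn dD.jp z = if (0 : ℝ) < z then 3 else 0 := by
      unfold dD
      simp only [jn]
      by_cases hz : 0 < z
      · have : ((0 : ℤ) : ℝ) / 50 < z := by simpa using hz
        rw [if_pos this, if_pos hz]; push_cast; ring
      · have : ¬ ((0 : ℤ) : ℝ) / 50 < z := by simpa using hz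
        rw [if_neg this, if_neg hz]; ring
    have hb : ((dD.base : ℤ) : ℝ) = 0 := by norm_num [dD]
    rw [hj, hb] at h
    by_cases hz : 0 < z
    · rw [if_pos hz] at h ⊢
      rw [div_le_iff₀ (by norm_num)]
      linarith
    · rw [if_neg hz] at h ⊢
      rw [div_le_iff₀ (by norm_num)]
      linarith
  · intro y hy0 hy1 hy2
    rw [certOf_W _ _ _ _ _ one_ne_zero]
    have e1 : (1 : ℝ) / 1 ^ 2 = 1 := by norm_num
    rw [e1, div_one]
    have hq : κ * (1 - κ) * y ^ 2 ≤ 1 := by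
      have h1 : y ^ 2 ≤ 1 := by nlinarith
      have h2 : κ * (1 - κ) ≤ 1 := by nlinarith
      have h3 : 0 ≤ κ * (1 - κ) := mul_nonneg (by linarith) (by linarith)
      calc κ * (1 - κ) * y ^ 2 ≤ κ * (1 - κ) * 1 := mul_le_mul_of_nonneg_left h1 h3
        _ ≤ 1 := by linarith
    have hw := s2 κ 1 y (by rw [hK1]; linarith) (by rw [hK2]; linarith) (by rw [hV1]; norm_num)
      (by rw [hV2]; norm_num) hy0 hq (fun _ => by rw [hNP]; linarith)
      (fun _ => by rw [hNN]; linarith)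
    rw [hkf] at hw
    rw [le_div_iff₀ (by norm_num)]
    linarith

theorem cellsB : CellsB := fun κ a v hκ1 hκ2 ha1 ha2 hv1 hv2 =>
  strip_1_0 κ a v hκ1 hκ2 ha1 ha2 hv1 hv2

theorem cellsA : CellsA := by
  intro κ b v hκ1 hκ2 hb1 hb2 hv hv2
  unfold QA at hv
  rcases le_or_gt b (3 / 10) with h1 | h1
  · rw [if_pos h1] at hv
    exact strip_0_0 κ b v hκ1 hκ2 (by linarith) (by linarith) hv hv2
  rw [if_neg (not_le.mpr h1)] at hv
  rcases le_or_gt b (4 / 10) with h2 | h2
  · rw [if_pos h2] at hv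
    exact strip_0_3000 κ b v hκ1 hκ2 (by linarith) (by linarith) hv hv2
  rw [if_neg (not_le.mpr h2)] at hv
  rcases le_or_gt b (5 / 10) with h3 | h3
  · rw [if_pos h3] at hv
    exact strip_0_4000 κ b v hκ1 hκ2 (by linarith) (by linarith) hv hv2
  rw [if_neg (not_le.mpr h3)] at hv
  rcases le_or_gt b (55 / 100) with h4 | h4
  · rw [if_pos h4] at hv
    exact strip_0_5000 κ b v hκ1 hκ2 (by linarith) (by linarith) hv hv2
  rw [if_neg (not_le.mpr h4)] at hv
  rcases le_or_gt b (6 / 10) with h5 | h5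
  · rw [if_pos h5] at hv
    exact strip_0_5500 κ b v hκ1 hκ2 (by linarith) (by linarith) hv hv2
  rw [if_neg (not_le.mpr h5)] at hv
  rcases le_or_gt b (7 / 10) with h6 | h6
  · rw [if_pos h6] at hv
    exact strip_0_6000 κ b v hκ1 hκ2 (by linarith) (by linarith) hv hv2
  rw [if_neg (not_le.mpr h6)] at hv
  exact strip_0_7000 κ b v hκ1 hκ2 (by linarith) (by linarith) hv hv2

end Pool.Agent.H10.MK
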